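import Mathlib
import Pool.Agent.V7H86.SG.Loc

/-!
# Estimates for the mollification and the homotopy operator by means over balls
-/

set_option autoImplicit false

open Set Filter Topology MeasureTheory
open scoped Manifold ContDiff ENNReal

noncomputable section

namespace Pool.Agent.V7H86.LP

open Pool.Agent.Y501.SY
open Pool.Agent.Y515.SY (Al moll_int moll_cs two_bound lR_apply)
open Pool.Agent.V7H86.SG

variable {d : ℕ}

/-- the integral over a ball -/
def Av (r : ℝ) (h : E d → ℝ≥0∞) (p : E d) : ℝ≥0∞ := ∫⁻ q in Metric.closedBall p r, h q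

theorem Av_eq (r : ℝ) (h : E d → ℝ≥0∞) (p : E d) :
    Av r h p = ∫⁻ q, {x : (ℝ × E d) × E d | dist x.2 x.1.2 ≤ x.1.1}.indicator
      (fun x => h x.2) ((r, p), q) := by
  unfold Av
  rw [← lintegral_indicator Metric.isClosed_closedBall.measurableSet]
  rfl

theorem Av_measurable {h : E d → ℝ≥0∞} (hh : Measurable h) :
    Measurable (fun x : ℝ × E d => Av x.1 h x.2) := by
  have h1 : (fun x : ℝ × E d => Av x.1 h x.2) = fun x : ℝ × E d => ∫⁻ q,
      {x : (ℝ × E d) × E d | dist x.2 x.1.2 ≤ x.1.1}.indicator (fun x => h x.2) (x, q) := by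
    funext x
    exact Av_eq x.1 h x.2
  rw [h1]
  refine Measurable.lintegral_prod_right' (f := {x : (ℝ × E d) × E d |
    dist x.2 x.1.2 ≤ x.1.1}.indicator (fun x => h x.2)) ?_
  refine (hh.comp measurable_snd).indicator ?_
  exact (isClosed_le (by fun_prop) (by fun_prop)).measurableSet

theorem Av_measurable' (r : ℝ) {h : E d → ℝ≥0∞} (hh : Measurable h) :
    Measurable (fun p : E d => Av r h p) := by
  have h1 : (fun p : E d => Av r h p) = fun p : E d => ∫⁻ q,
      {x : E d × E d | dist x.2 x.1 ≤ r}.indicator (fun x => h x.2) (p, q) := by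
    funext p
    unfold Av
    rw [← lintegral_indicator Metric.isClosed_closedBall.measurableSet]
    rfl
  rw [h1]
  refine Measurable.lintegral_prod_right' (f := {x : E d × E d |
    dist x.2 x.1 ≤ r}.indicator (fun x => h x.2)) ?_
  refine (hh.comp measurable_snd).indicator ?_
  exact (isClosed_le (by fun_prop) (by fun_prop)).measurableSet

theorem Av_mono_right {r : ℝ} {f g : E d → ℝ≥0∞} {p : E d}
    (h : ∀ q ∈ Metric.closedBall p r, f q ≤ g q) : Av r f p ≤ Av r g p :=
  setLIntegral_mono' Metric.isClosed_closedBall.measurableSet h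

/-- the mean with the kernel `sc ρ ε` over the ball of radius `t ε` -/
theorem mean_le {ρ : E d → ℝ} (hρ : Moll 1 ρ) {S : ℝ} (hS : ∀ x, ‖ρ x‖ ≤ S) {ε t : ℝ}
    (hε : 0 < ε) (ht : 0 < t) {g : E d → ℝ≥0∞} (hg : Measurable g) (p : E d) :
    ∫⁻ y, ENNReal.ofReal (sc ρ ε y) * g (p + t • y) ≤
      ENNReal.ofReal (S * ((t * ε) ^ d)⁻¹) * Av (t * ε) g p := by
  have hS0 : 0 ≤ S := (norm_nonneg _).trans (hS 0)
  obtain ⟨G, hG⟩ : ∃ G : E d → ℝ≥0∞, G = fun w =>
    (Metric.closedBall (0 : E d) (t * ε)).indicator (fun w => g (p + w)) w := ⟨_, rfl⟩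
  have hGm : Measurable G := by
    rw [hG]
    exact (hg.comp (measurable_const_add p)).indicator Metric.isClosed_closedBall.measurableSet
  have h1 : ∫⁻ y, ENNReal.ofReal (sc ρ ε y) * g (p + t • y) ≤
      ∫⁻ y, ENNReal.ofReal (S * (ε ^ d)⁻¹) * G (t • y) := by
    refine lintegral_mono fun y => ?_
    by_cases hy : ε ≤ ‖y‖
    · rw [(sc_moll hρ hε).supp y hy, ENNReal.ofReal_zero, zero_mul]
      exact zero_le
    · rw [not_le] at hy
      have h2 : G (t • y) = g (p + t • y) := by
        rw [hG]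
        refine indicator_of_mem ?_ _
        rw [Metric.mem_closedBall, dist_zero_right, norm_smul, Real.norm_of_nonneg ht.le]
        exact mul_le_mul_of_nonneg_left hy.le ht.le
      rw [h2]
      refine mul_le_mul_left (ENNReal.ofReal_le_ofReal ?_) _
      unfold sc
      rw [mul_comm]
      exact mul_le_mul_of_nonneg_right ((le_abs_self _).trans (hS _)) (by positivity)
  refine h1.trans (le_of_eq ?_)
  have hGt : Measurable (fun y : E d => G (t • y)) := hGm.comp (measurable_const_smul t)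
  rw [lintegral_const_mul _ hGt]
  have h3 : ∫⁻ y, G (t • y) = ENNReal.ofReal ((t ^ d)⁻¹) * ∫⁻ w, G w := by
    have h4 := Measure.map_addHaar_smul (volume : Measure (E d)) ht.ne'
    have hfr : Module.finrank ℝ (E d) = d := by simp
    rw [hfr, abs_of_pos (by positivity)] at h4
    rw [← lintegral_map hGm (measurable_const_smul t), h4, lintegral_smul_measure]
    rfl
  have h5 : ∫⁻ w, G w = Av (t * ε) g p := by
    unfold Av
    rw [← lintegral_indicator Metric.isClosed_closedBall.measurableSet,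
      ← lintegral_add_left_eq_self ((Metric.closedBall p (t * ε)).indicator g) p]
    refine lintegral_congr fun w => ?_
    rw [hG]
    by_cases hw : w ∈ Metric.closedBall (0 : E d) (t * ε)
    · have hw' : p + w ∈ Metric.closedBall p (t * ε) := by
        rw [Metric.mem_closedBall, dist_zero_right] at hw
        rw [Metric.mem_closedBall, dist_eq_norm, add_sub_cancel_left]
        exact hw
      dsimp only
      rw [indicator_of_mem hw, indicator_of_mem hw']
    · have hw' : p + w ∉ Metric.closedBall p (t * ε) := by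
        rw [Metric.mem_closedBall, dist_zero_right] at hw
        rw [Metric.mem_closedBall, dist_eq_norm, add_sub_cancel_left]
        exact hw
      dsimp only
      rw [indicator_of_notMem hw, indicator_of_notMem hw']
  rw [h3, h5, ← mul_assoc, ← ENNReal.ofReal_mul (by positivity)]
  congr 2
  rw [mul_pow, mul_inv]
  ring

theorem curry_enorm (s : Al d 2) (y : E d) : ‖s.curryLeft y‖ₑ ≤ ‖s‖ₑ * ‖y‖ₑ := by
  rw [← ofReal_norm, ← ofReal_norm, ← ofReal_norm, ← ENNReal.ofReal_mul (norm_nonneg _)]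
  refine ENNReal.ofReal_le_ofReal ?_
  refine ContinuousAlternatingMap.opNorm_le_bound _ (by positivity) fun v => ?_
  have h1 := s.le_opNorm (Matrix.vecCons y v)
  have h2 : s.curryLeft y v = s (Matrix.vecCons y v) := rfl
  rw [h2]
  refine h1.trans (le_of_eq ?_)
  rw [Fin.prod_univ_succ]
  simp only [Matrix.cons_val_zero, Matrix.cons_val_succ]
  ring

/-- the bound for the homotopy operator -/
theorem hA_le {ρ : E d → ℝ} (hρ : Moll 1 ρ) {S : ℝ} (hS : ∀ x, ‖ρ x‖ ≤ S) {ε : ℝ}
    (hε : 0 < ε) {s : E d → Al d 2} {h : E d → ℝ≥0∞} (hh : Measurable h) {p : E d}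
    (hs : ∀ q ∈ Metric.closedBall p ε, ‖s q‖ₑ ≤ h q) :
    ‖hA (sc ρ ε) s p‖ₑ ≤ ENNReal.ofReal ε * ∫⁻ t in Ioc (0 : ℝ) 1,
      ENNReal.ofReal (S * ((t * ε) ^ d)⁻¹) * Av (t * ε) h p := by
  have hM := sc_moll hρ hε
  have h1 : ‖hA (sc ρ ε) s p‖ₑ ≤ ∫⁻ y, ∫⁻ t in Ioc (0 : ℝ) 1,
      ENNReal.ofReal ε * (ENNReal.ofReal (sc ρ ε y) * h (p + t • y)) := by
    unfold hA
    refine (enorm_integral_le_lintegral_enorm _).trans (lintegral_mono fun y => ?_)
    rw [enorm_smul]
    by_cases hy : ε ≤ ‖y‖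
    · rw [hM.supp y hy, enorm_zero, zero_mul]
      exact zero_le
    rw [not_le] at hy
    have hy' : ‖y‖ₑ ≤ ENNReal.ofReal ε := by
      rw [← ofReal_norm]
      exact ENNReal.ofReal_le_ofReal hy.le
    have h2 : ‖∫ t in (0 : ℝ)..1, (s (p + t • y)).curryLeft y‖ₑ ≤
        ∫⁻ t in Ioc (0 : ℝ) 1, h (p + t • y) * ENNReal.ofReal ε := by
      rw [intervalIntegral.integral_of_le zero_le_one]
      refine (enorm_integral_le_lintegral_enorm _).trans
        (setLIntegral_mono' measurableSet_Ioc fun t ht => ?_)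
      refine (curry_enorm _ _).trans (mul_le_mul' (hs _ ?_) hy')
      rw [Metric.mem_closedBall, dist_eq_norm, add_sub_cancel_left, norm_smul,
        Real.norm_of_nonneg ht.1.le]
      have := ht.2
      have h3 := norm_nonneg y
      nlinarith
    have h3 : ‖sc ρ ε y‖ₑ = ENNReal.ofReal (sc ρ ε y) := by
      rw [← ofReal_norm, Real.norm_of_nonneg (hM.nonneg y)]
    rw [h3]
    refine (mul_le_mul_right h2 _).trans (le_of_eq ?_)
    rw [← lintegral_const_mul]
    · refine lintegral_congr fun t => ?_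
      ring
    · have : Measurable (fun t : ℝ => p + t • y) := by fun_prop
      exact (hh.comp this).mul_const _
  refine h1.trans (le_of_eq_of_le ?_ (mul_le_mul_right (setLIntegral_mono' measurableSet_Ioc
    (f := fun t => ∫⁻ y, ENNReal.ofReal (sc ρ ε y) * h (p + t • y))
    fun t ht => mean_le hρ hS hε ht.1 hh p) _))
  have hm : Measurable (fun x : E d × ℝ => ENNReal.ofReal (sc ρ ε x.1) * h (p + x.2 • x.1)) := by
    have e1 : Measurable (fun x : E d × ℝ => p + x.2 • x.1) := by fun_prop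
    have e2 : Measurable (fun x : E d × ℝ => sc ρ ε x.1) :=
      hM.smooth.continuous.measurable.comp measurable_fst
    exact e2.ennreal_ofReal.mul (hh.comp e1)
  rw [lintegral_lintegral_swap, ← lintegral_const_mul]
  · refine lintegral_congr fun t => ?_
    rw [lintegral_const_mul]
    exact hm.comp (measurable_id.prodMk measurable_const)
  · exact Measurable.lintegral_prod_left' hm
  · exact (hm.const_mul _).aemeasurable

theorem ofReal_int_le {α : Type} [MeasurableSpace α] {μ : Measure α} {F : α → ℝ}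
    (hF : Integrable F μ) : ENNReal.ofReal (∫ y, F y ∂μ) ≤ ∫⁻ y, ENNReal.ofReal (F y) ∂μ := by
  have h1 : ∫ y, F y ∂μ ≤ ∫ y, max (F y) 0 ∂μ :=
    integral_mono hF hF.pos_part fun y => le_max_left _ _
  refine (ENNReal.ofReal_le_ofReal h1).trans (le_of_eq ?_)
  rw [ofReal_integral_eq_lintegral_ofReal hF.pos_part
    (Eventually.of_forall fun y => le_max_right _ _)]
  refine lintegral_congr fun y => ?_
  rcases le_total (F y) 0 with h | h
  · rw [max_eq_right h, ENNReal.ofReal_zero, ENNReal.ofReal_of_nonpos h]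
  · rw [max_eq_left h]

theorem ker_cont {ρ : E d → ℝ} (hρ : Moll 1 ρ) {ε : ℝ} (hε : 0 < ε) {W : Type}
    [NormedAddCommGroup W] [NormedSpace ℝ W] {s : E d → W} {P : Set (E d)} (hP : IsOpen P)
    (hs : ContinuousOn s P) {p : E d} (hp : Metric.closedBall p ε ⊆ P) :
    Continuous (fun y => sc ρ ε y • s (p + y)) := by
  have hM := sc_moll hρ hε
  rw [continuous_iff_continuousAt]
  intro y
  by_cases hy : p + y ∈ P
  · have h1 : ContinuousAt s (p + y) := hs.continuousAt (hP.mem_nhds hy)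
    have h2 : ContinuousAt (fun y : E d => s (p + y)) y :=
      ContinuousAt.comp (f := fun y : E d => p + y) h1 (by fun_prop)
    exact hM.smooth.continuous.continuousAt.smul h2
  · have h1 : ε < ‖y‖ := by
      by_contra hcon
      apply hy
      apply hp
      rw [Metric.mem_closedBall, dist_eq_norm, add_sub_cancel_left]
      exact not_lt.1 hcon
    have h2 : (fun y => sc ρ ε y • s (p + y)) =ᶠ[𝓝 y] fun _ => 0 := by
      filter_upwards [continuous_norm.continuousAt.eventually_const_lt h1] with w hw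
      rw [hM.supp w hw.le, zero_smul]
    exact continuousAt_const.congr h2.symm

theorem ker_int {ρ : E d → ℝ} (hρ : Moll 1 ρ) {ε : ℝ} (hε : 0 < ε) {W : Type}
    [NormedAddCommGroup W] [NormedSpace ℝ W] {s : E d → W} {P : Set (E d)} (hP : IsOpen P)
    (hs : ContinuousOn s P) {p : E d} (hp : Metric.closedBall p ε ⊆ P) :
    Integrable (fun y => sc ρ ε y • s (p + y)) := by
  have hM := sc_moll hρ hε
  refine (ker_cont hρ hε hP hs hp).integrable_of_hasCompactSupport ?_
  refine HasCompactSupport.intro (isCompact_closedBall (0 : E d) ε) fun y hy => ?_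
  rw [mem_closedBall_zero_iff, not_le] at hy
  rw [hM.supp y hy.le, zero_smul]

/-- the lower bound for the mollification -/
theorem mol_le {ρ : E d → ℝ} (hρ : Moll 1 ρ) {S : ℝ} (hS : ∀ x, ‖ρ x‖ ≤ S) {ε : ℝ}
    (hε : 0 < ε) {s : E d → Al d 2} {P : Set (E d)} (hP : IsOpen P) (hs : ContinuousOn s P)
    {Js : E d → (E d →L[ℝ] E d)} {f h : E d → ℝ≥0∞} (hf : Measurable f) (hh : Measurable h)
    {p : E d} (hp : Metric.closedBall p ε ⊆ P) {c τ : ℝ} (hτ0 : 0 ≤ τ)
    (hsh : ∀ q ∈ Metric.closedBall p ε, ‖s q‖ₑ ≤ h q)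
    (hτ : ∀ q ∈ Metric.closedBall p ε, ‖Js p - Js q‖ ≤ τ) (v : E d)
    (hsf : ∀ q ∈ Metric.closedBall p ε, ENNReal.ofReal (c * ‖v‖ ^ 2 - s q ![v, Js q v]) ≤
      f q * ENNReal.ofReal (‖v‖ ^ 2)) :
    ENNReal.ofReal (c * ‖v‖ ^ 2 - mol (sc ρ ε) s p ![v, Js p v]) ≤
      ENNReal.ofReal (‖v‖ ^ 2) * (ENNReal.ofReal (S * (ε ^ d)⁻¹) *
        Av ε (fun q => f q + ENNReal.ofReal τ * h q) p) := by
  have hM := sc_moll hρ hε
  have hint := ker_int hρ hε hP hs hp
  have e1 : mol (sc ρ ε) s p ![v, Js p v] = ∫ y, sc ρ ε y * s (p + y) ![v, Js p v] := by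
    have h1 := (ContinuousAlternatingMap.apply ℝ (E d) ℝ ![v, Js p v]).integral_comp_comm hint
    exact h1.symm
  have hint2 : Integrable (fun y => sc ρ ε y * s (p + y) ![v, Js p v]) :=
    (ContinuousAlternatingMap.apply ℝ (E d) ℝ ![v, Js p v]).integrable_comp hint
  have hint3 : Integrable (fun y => sc ρ ε y * (c * ‖v‖ ^ 2)) := (moll_int hM).mul_const _
  have e2 : c * ‖v‖ ^ 2 - mol (sc ρ ε) s p ![v, Js p v] =
      ∫ y, (sc ρ ε y * (c * ‖v‖ ^ 2) - sc ρ ε y * s (p + y) ![v, Js p v]) := by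
    rw [integral_sub hint3 hint2, integral_mul_const, hM.int, one_mul, e1]
  rw [e2]
  refine (ofReal_int_le (hint3.sub hint2)).trans ?_
  have hgm : Measurable (fun q => f q + ENNReal.ofReal τ * h q) := hf.add (hh.const_mul _)
  have h3 := mean_le hρ hS hε one_pos hgm p
  simp only [one_smul, one_mul] at h3
  refine le_trans ?_ (mul_le_mul_right h3 _)
  rw [← lintegral_const_mul]
  · refine lintegral_mono fun y => ?_
    change ENNReal.ofReal (sc ρ ε y * (c * ‖v‖ ^ 2) - sc ρ ε y * s (p + y) ![v, Js p v]) ≤ _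
    by_cases hy : ε ≤ ‖y‖
    · rw [hM.supp y hy]
      simp
    rw [not_le] at hy
    have hq : p + y ∈ Metric.closedBall p ε := by
      rw [Metric.mem_closedBall, dist_eq_norm, add_sub_cancel_left]
      exact hy.le
    rw [← mul_sub, ENNReal.ofReal_mul (hM.nonneg y), mul_left_comm]
    refine mul_le_mul_right ?_ _
    have t1 : s (p + y) ![v, Js p v] = s (p + y) ![v, Js (p + y) v] +
        s (p + y) ![v, (Js p - Js (p + y)) v] := by
      rw [_root_.sub_apply, ← lR_apply, ← lR_apply, ← lR_apply, ← map_add]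
      congr 1
      abel
    have t3 := two_bound (s (p + y)) v ((Js p - Js (p + y)) v)
    have t4 : ‖(Js p - Js (p + y)) v‖ ≤ τ * ‖v‖ :=
      ((Js p - Js (p + y)).le_opNorm v).trans
        (mul_le_mul_of_nonneg_right (hτ _ hq) (norm_nonneg _))
    have t5 : c * ‖v‖ ^ 2 - s (p + y) ![v, Js p v] ≤
        (c * ‖v‖ ^ 2 - s (p + y) ![v, Js (p + y) v]) + ‖v‖ ^ 2 * (τ * ‖s (p + y)‖) := by
      rw [t1]
      have t6 := neg_abs_le (s (p + y) ![v, (Js p - Js (p + y)) v])
      have t7 : ‖s (p + y)‖ * (‖v‖ * ‖(Js p - Js (p + y)) v‖) ≤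
          ‖v‖ ^ 2 * (τ * ‖s (p + y)‖) := by
        calc _ ≤ ‖s (p + y)‖ * (‖v‖ * (τ * ‖v‖)) := by gcongr
          _ = _ := by ring
      linarith
    refine (ENNReal.ofReal_le_ofReal t5).trans (ENNReal.ofReal_add_le.trans ?_)
    rw [mul_add]
    refine add_le_add ((hsf _ hq).trans (le_of_eq (mul_comm _ _))) ?_
    rw [ENNReal.ofReal_mul (sq_nonneg _), ENNReal.ofReal_mul hτ0, ofReal_norm]
    exact mul_le_mul_right (mul_le_mul_right (hsh _ hq) _) _
  · have e3 : Measurable (fun y => sc ρ ε y) := hM.smooth.continuous.measurable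
    exact e3.ennreal_ofReal.mul (hgm.comp (measurable_const_add p))

end Pool.Agent.V7H86.LP
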