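import Mathlib
import Pool.Agent.V7H86.LP.Est

/-!
# Integration of the errors
-/

set_option autoImplicit false

open Set Filter Topology MeasureTheory
open scoped Manifold ContDiff ENNReal

noncomputable section

namespace Pool.Agent.V7H86.LP

open Pool.Agent.Y501.SY
open Pool.Agent.Y515.SY (Al)
open Pool.Agent.V7H86.SG

variable {d : ℕ}

/-- the integral of `t ^ (-b)` -/
def Ib (b : ℝ) : ℝ≥0∞ := ∫⁻ t in Ioc (0 : ℝ) 1, ENNReal.ofReal (t ^ (-b))

theorem Ib_lt {b : ℝ} (hb : b < 1) : Ib b ≠ ⊤ := by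
  have h1 : IntervalIntegrable (fun t : ℝ => t ^ (-b)) volume 0 1 :=
    intervalIntegral.intervalIntegrable_rpow' (by linarith)
  rw [intervalIntegrable_iff_integrableOn_Ioc_of_le zero_le_one] at h1
  have h2 := h1.lintegral_lt_top
  exact h2.ne

/-- the errors -/
def Err (V S A W b w ε : ℝ) : ℝ≥0∞ :=
  ENNReal.ofReal (V * S * A * (w * ε ^ (-b))) + ENNReal.ofReal (W * S * A * ε ^ (1 - b)) * Ib b

theorem Err_small {V S A W b : ℝ} (hVSA : 0 ≤ V * S * A) (hb : b < 1) {η₀ : ℝ≥0∞}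
    (h0 : 0 < η₀) : ∃ η ε₀ : ℝ, 0 < η ∧ 0 < ε₀ ∧ ∀ ε : ℝ, 0 < ε → ε ≤ ε₀ → ∀ w : ℝ, 0 ≤ w →
      w ≤ η * ε ^ b → Err V S A W b w ε ≤ η₀ := by
  have h1 : ∀ C e : ℝ, 0 < e → Tendsto (fun ε : ℝ => ENNReal.ofReal (C * ε ^ e)) (𝓝[>] 0)
      (𝓝 0) := by
    intro C e he
    have h2 : Tendsto (fun ε : ℝ => C * ε ^ e) (𝓝 0) (𝓝 (C * 0 ^ e)) :=
      tendsto_const_nhds.mul ((Real.continuousAt_rpow_const 0 e (Or.inr he.le)).tendsto)
    rw [Real.zero_rpow he.ne', mul_zero] at h2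
    have h3 := ENNReal.tendsto_ofReal (h2.mono_left (nhdsWithin_le_nhds (s := Ioi 0)))
    rwa [ENNReal.ofReal_zero] at h3
  have h4 := ENNReal.Tendsto.mul_const (h1 (W * S * A) (1 - b) (by linarith))
    (Or.inr (Ib_lt hb))
  rw [zero_mul] at h4
  have h02 : 0 < η₀ / 2 := ENNReal.half_pos h0.ne'
  obtain ⟨η, hη, hη0⟩ := (((h1 (V * S * A) 1 one_pos).eventually_lt_const h02).and
    self_mem_nhdsWithin).exists
  have h5 : ∀ᶠ ε in 𝓝[>] (0 : ℝ), ENNReal.ofReal (W * S * A * ε ^ (1 - b)) * Ib b < η₀ / 2 :=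
    h4.eventually_lt_const h02
  obtain ⟨ε₀, hε₀, h6⟩ := (mem_nhdsGT_iff_exists_Ioo_subset (a := (0 : ℝ))).1 h5
  refine ⟨η, ε₀ / 2, hη0, half_pos hε₀, fun ε hε hε2 w hw hwη => ?_⟩
  unfold Err
  have h7 := h6 (show ε ∈ Ioo 0 ε₀ from ⟨hε, by
    have : (0 : ℝ) < ε₀ := hε₀
    linarith⟩)
  have h8 : V * S * A * (w * ε ^ (-b)) ≤ V * S * A * η ^ (1 : ℝ) := by
    refine mul_le_mul_of_nonneg_left ?_ hVSA
    rw [Real.rpow_one]
    calc w * ε ^ (-b) ≤ (η * ε ^ b) * ε ^ (-b) :=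
          mul_le_mul_of_nonneg_right hwη (by positivity)
      _ = η := by
          rw [mul_assoc, ← Real.rpow_add hε, add_neg_cancel, Real.rpow_zero, mul_one]
  calc _ ≤ η₀ / 2 + η₀ / 2 := add_le_add ((ENNReal.ofReal_le_ofReal h8).trans hη.le) h7.le
    _ = η₀ := ENNReal.add_halves η₀

theorem pow_combine {x b : ℝ} (hx : 0 < x) (S A : ℝ) :
    S * (x ^ d)⁻¹ * (A * x ^ ((d : ℝ) - b)) = S * A * x ^ (-b) := by
  have h1 : x ^ ((d : ℝ) - b) = x ^ d * x ^ (-b) := by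
    rw [← Real.rpow_natCast x d, ← Real.rpow_add hx]
    rfl
  rw [h1]
  have h2 : x ^ d ≠ 0 := by positivity
  field_simp

theorem Av_measurable2 {h : E d → ℝ≥0∞} (hh : Measurable h) (ε : ℝ) :
    Measurable (fun x : E d × ℝ => Av (x.2 * ε) h x.1) := by
  have e4 : Measurable (fun x : E d × ℝ => ((x.2 * ε, x.1) : ℝ × E d)) := by fun_prop
  have e5 := Av_measurable hh
  generalize Av = A at *
  exact e5.comp e4

/-- the integral of the error function -/
theorem int_err {m : Measure (E d)} [IsFiniteMeasure m] (hm1 : m univ ≤ 1) {f h : E d → ℝ≥0∞}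
    (hf : Measurable f) (hh : Measurable h) {V S A W w b : ℝ} (hV : 0 ≤ V) (hS : 0 ≤ S)
    (hw : 0 ≤ w) (hA : 0 ≤ A) (hW : 0 ≤ W)
    (hmor : ∀ r : ℝ, 0 < r → r ≤ 1 → ∫⁻ p, Av r h p ∂m ≤ ENNReal.ofReal (A * r ^ ((d : ℝ) - b)))
    {ε : ℝ} (hε : 0 < ε) (hε1 : ε ≤ 1) :
    ∫⁻ p, (ENNReal.ofReal V * (ENNReal.ofReal (S * (ε ^ d)⁻¹) *
        Av ε (fun q => f q + ENNReal.ofReal w * h q) p) +
      ENNReal.ofReal W * (ENNReal.ofReal ε * ∫⁻ t in Ioc (0 : ℝ) 1,
        ENNReal.ofReal (S * ((t * ε) ^ d)⁻¹) * Av (t * ε) h p)) ∂m ≤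
      Err V S A W b w ε + ENNReal.ofReal (V * (S * (ε ^ d)⁻¹)) * ∫⁻ q, f q := by
  have hAvm : ∀ (g : E d → ℝ≥0∞), Measurable g → ∀ r : ℝ, Measurable (fun p => Av r g p) :=
    fun g hg r => Av_measurable' r hg
  have hAvadd : ∀ p, Av ε (fun q => f q + ENNReal.ofReal w * h q) p =
      Av ε f p + ENNReal.ofReal w * Av ε h p := by
    intro p
    unfold Av
    rw [lintegral_add_left hf, lintegral_const_mul _ hh]
  -- the first term
  have h1 : ∫⁻ p, ENNReal.ofReal V * (ENNReal.ofReal (S * (ε ^ d)⁻¹) *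
        Av ε (fun q => f q + ENNReal.ofReal w * h q) p) ∂m ≤
      ENNReal.ofReal (V * (S * (ε ^ d)⁻¹)) * (∫⁻ q, f q) +
        ENNReal.ofReal (V * S * A * (w * ε ^ (-b))) := by
    simp_rw [hAvadd]
    have mA : Measurable (fun p => Av ε f p) := hAvm f hf ε
    have mB : Measurable (fun p => Av ε h p) := hAvm h hh ε
    have mC : Measurable (fun p => Av ε f p + ENNReal.ofReal w * Av ε h p) :=
      mA.add (mB.const_mul _)
    have mD : Measurable (fun p => ENNReal.ofReal (S * (ε ^ d)⁻¹) *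
        (Av ε f p + ENNReal.ofReal w * Av ε h p)) := mC.const_mul _
    rw [lintegral_const_mul _ mD, lintegral_const_mul _ mC, lintegral_add_left mA,
      lintegral_const_mul _ mB, ← mul_assoc, ← ENNReal.ofReal_mul hV, mul_add]
    refine add_le_add (mul_le_mul' (le_refl (ENNReal.ofReal (V * (S * (ε ^ d)⁻¹)))) ?_) ?_
    · have e1 : ∫⁻ p, Av ε f p ∂m ≤ ∫⁻ _p, (∫⁻ q, f q) ∂m :=
        lintegral_mono fun p => by
          unfold Av
          exact setLIntegral_le_lintegral _ _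
      refine e1.trans ?_
      rw [lintegral_const]
      exact (mul_le_mul' (le_refl (∫⁻ q, f q)) hm1).trans (le_of_eq (mul_one _))
    · have e5 := mul_le_mul' (le_refl (ENNReal.ofReal (V * (S * (ε ^ d)⁻¹))))
        (mul_le_mul' (le_refl (ENNReal.ofReal w)) (hmor ε hε hε1))
      refine e5.trans (le_of_eq ?_)
      rw [← ENNReal.ofReal_mul hw, ← ENNReal.ofReal_mul (by positivity)]
      congr 1
      have e2 := pow_combine (d := d) (b := b) hε S A
      calc V * (S * (ε ^ d)⁻¹) * (w * (A * ε ^ ((d : ℝ) - b))) =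
          V * w * (S * (ε ^ d)⁻¹ * (A * ε ^ ((d : ℝ) - b))) := by ring
        _ = V * w * (S * A * ε ^ (-b)) := by rw [e2]
        _ = _ := by ring
  -- the second term
  have hjm : Measurable (fun x : E d × ℝ =>
      ENNReal.ofReal (S * ((x.2 * ε) ^ d)⁻¹) * Av (x.2 * ε) h x.1) := by
    have e1 : Measurable (fun x : E d × ℝ => ENNReal.ofReal (S * ((x.2 * ε) ^ d)⁻¹)) := by
      refine Measurable.ennreal_ofReal ?_
      fun_prop
    exact e1.mul (Av_measurable2 hh ε)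
  have h2 : ∫⁻ p, ENNReal.ofReal W * (ENNReal.ofReal ε * ∫⁻ t in Ioc (0 : ℝ) 1,
        ENNReal.ofReal (S * ((t * ε) ^ d)⁻¹) * Av (t * ε) h p) ∂m ≤
      ENNReal.ofReal (W * S * A * ε ^ (1 - b)) * Ib b := by
    have e0 : Measurable (fun p : E d => ∫⁻ t in Ioc (0 : ℝ) 1,
        ENNReal.ofReal (S * ((t * ε) ^ d)⁻¹) * Av (t * ε) h p) :=
      hjm.lintegral_prod_right'
    rw [lintegral_const_mul _ (e0.const_mul _), lintegral_const_mul _ e0,
      lintegral_lintegral_swap hjm.aemeasurable]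
    have e1 : ∫⁻ t in Ioc (0 : ℝ) 1, ∫⁻ p, ENNReal.ofReal (S * ((t * ε) ^ d)⁻¹) *
        Av (t * ε) h p ∂m ≤ ∫⁻ t in Ioc (0 : ℝ) 1,
          ENNReal.ofReal (S * A * ε ^ (-b)) * ENNReal.ofReal (t ^ (-b)) := by
      refine setLIntegral_mono' measurableSet_Ioc fun t ht => ?_
      have ht0 := ht.1
      rw [lintegral_const_mul _ (hAvm h hh _)]
      have e6 := mul_le_mul' (le_refl (ENNReal.ofReal (S * ((t * ε) ^ d)⁻¹)))
        (hmor (t * ε) (by positivity) (by
          have := ht.2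
          nlinarith))
      refine e6.trans (le_of_eq ?_)
      rw [← ENNReal.ofReal_mul (by positivity), ← ENNReal.ofReal_mul (by positivity),
        pow_combine (d := d) (b := b) (show 0 < t * ε by positivity) S A,
        Real.mul_rpow ht0.le hε.le]
      congr 1
      ring
    refine (mul_le_mul' le_rfl (mul_le_mul' le_rfl e1)).trans (le_of_eq ?_)
    rw [lintegral_const_mul _ (by
      refine Measurable.ennreal_ofReal ?_
      fun_prop)]
    unfold Ib
    rw [← mul_assoc, ← mul_assoc, ← ENNReal.ofReal_mul hW, ← ENNReal.ofReal_mul (by positivity)]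
    congr 2
    have e3 : ε ^ (1 - b) = ε * ε ^ (-b) := by
      have : (1 : ℝ) - b = 1 + -b := by ring
      rw [this, Real.rpow_add hε, Real.rpow_one]
    rw [e3]
    ring
  have h0 : Measurable (fun p => ENNReal.ofReal V * (ENNReal.ofReal (S * (ε ^ d)⁻¹) *
        Av ε (fun q => f q + ENNReal.ofReal w * h q) p)) :=
    ((hAvm _ (hf.add (hh.const_mul _)) ε).const_mul _).const_mul _
  rw [lintegral_add_left h0]
  refine (add_le_add h1 h2).trans (le_of_eq ?_)
  unfold Err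
  ring

/-- the Morrey condition along measures -/
def MorC (d : ℕ) (N : Set (E d)) (h : E d → ℝ≥0∞) (a b B : ℝ) : Prop :=
  ∀ m : Measure (E d), (∀ (z : E d) (s : ℝ), 0 < s → s ≤ 1 →
    m (Metric.closedBall z s) ≤ ENNReal.ofReal (s ^ a)) → ∀ r : ℝ, 0 < r → r ≤ 1 →
    ∫⁻ p in N, (∫⁻ q in N ∩ Metric.closedBall p r, h q) ∂m ≤
      ENNReal.ofReal (B * r ^ ((d : ℝ) - b))

/-- scaling of the measure -/
theorem mor_scale {m : Measure (E d)} (hm1 : m univ ≤ 1) {N D : Set (E d)}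
    (hN : MeasurableSet N) (hDN : D ⊆ N) (hD : m Dᶜ = 0) {h : E d → ℝ≥0∞} {a b B : ℝ}
    (hmor : MorC d N h a b B) {C s₀ κ : ℝ} (hC : 0 < C) (hs₀ : 0 < s₀)
    (haκ : a ≤ 2 - 2 * κ)
    (hball : ∀ z ∈ D, ∀ s : ℝ, 0 < s → s ≤ s₀ →
      m (D ∩ Metric.closedBall z s) ≤ ENNReal.ofReal (C * s ^ (2 - 2 * κ))) {Λ : ℝ}
    (hΛ : Λ = C * 2 ^ (2 - 2 * κ) + 1 + (s₀ / 2) ^ (-a)) (r : ℝ) (hr : 0 < r) (hr1 : r ≤ 1) :
    ∫⁻ p, Av r (N.indicator h) p ∂m ≤ ENNReal.ofReal (Λ * B * r ^ ((d : ℝ) - b)) := by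
  have hΛ0 : 0 < Λ := by rw [hΛ]; positivity
  have key : ∀ (z : E d) (s : ℝ), 0 < s → s ≤ 1 →
      ((ENNReal.ofReal Λ)⁻¹ • m) (Metric.closedBall z s) ≤ ENNReal.ofReal (s ^ a) := by
    intro z s hs hs1
    rw [Measure.smul_apply, smul_eq_mul, mul_comm, ← div_eq_mul_inv, ENNReal.div_le_iff
      (by simpa using hΛ0) ENNReal.ofReal_ne_top, ← ENNReal.ofReal_mul (by positivity)]
    have h1 : m (Metric.closedBall z s) ≤ m (D ∩ Metric.closedBall z s) := by
      have h2 : Metric.closedBall z s ⊆ (D ∩ Metric.closedBall z s) ∪ Dᶜ := by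
        intro p hp
        by_cases h : p ∈ D
        · exact Or.inl ⟨h, hp⟩
        · exact Or.inr h
      refine (measure_mono h2).trans ((measure_union_le _ _).trans ?_)
      rw [hD, add_zero]
    refine h1.trans ?_
    rcases (D ∩ Metric.closedBall z s).eq_empty_or_nonempty with h2 | ⟨z', hz', hz's⟩
    · rw [h2, measure_empty]
      exact zero_le
    rcases le_or_gt (2 * s) s₀ with h3 | h3
    · have h4 : D ∩ Metric.closedBall z s ⊆ D ∩ Metric.closedBall z' (2 * s) := by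
        refine inter_subset_inter_right _ fun p hp => ?_
        rw [Metric.mem_closedBall] at hp hz's ⊢
        have := dist_triangle p z z'
        rw [dist_comm z z'] at this
        linarith
      refine (measure_mono h4).trans ((hball z' hz' (2 * s) (by positivity) h3).trans
        (ENNReal.ofReal_le_ofReal ?_))
      rw [Real.mul_rpow (by norm_num) hs.le]
      have h5 : s ^ (2 - 2 * κ) ≤ s ^ a := Real.rpow_le_rpow_of_exponent_ge hs hs1 haκ
      have h6 : C * 2 ^ (2 - 2 * κ) ≤ Λ := by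
        rw [hΛ]
        have : 0 ≤ (s₀ / 2) ^ (-a) := by positivity
        linarith
      calc C * (2 ^ (2 - 2 * κ) * s ^ (2 - 2 * κ)) = C * 2 ^ (2 - 2 * κ) * s ^ (2 - 2 * κ) := by
            ring
        _ ≤ C * 2 ^ (2 - 2 * κ) * s ^ a := mul_le_mul_of_nonneg_left h5 (by positivity)
        _ ≤ Λ * s ^ a := mul_le_mul_of_nonneg_right h6 (by positivity)
        _ = _ := mul_comm _ _
    · refine (measure_mono (subset_univ _)).trans (hm1.trans ?_)
      rw [← ENNReal.ofReal_one]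
      refine ENNReal.ofReal_le_ofReal ?_
      have h5 : s ^ (-a) ≤ 1 + (s₀ / 2) ^ (-a) := by
        rcases le_total a 0 with h | h
        · have h6 : s ^ (-a) ≤ 1 := Real.rpow_le_one hs.le hs1 (by linarith)
          have : 0 ≤ (s₀ / 2) ^ (-a) := by positivity
          linarith
        · have h6 : s ^ (-a) ≤ (s₀ / 2) ^ (-a) :=
            Real.rpow_le_rpow_of_nonpos (by positivity) (by linarith) (by linarith)
          linarith
      have h7 : 1 + (s₀ / 2) ^ (-a) ≤ Λ := by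
        rw [hΛ]
        have : 0 ≤ C * 2 ^ (2 - 2 * κ) := by positivity
        linarith
      have h8 : s ^ a * s ^ (-a) = 1 := by
        rw [← Real.rpow_add hs, add_neg_cancel, Real.rpow_zero]
      calc (1 : ℝ) = s ^ a * s ^ (-a) := h8.symm
        _ ≤ s ^ a * Λ := mul_le_mul_of_nonneg_left (h5.trans h7) (by positivity)
  have h1 := hmor _ key r hr hr1
  rw [Measure.restrict_smul, lintegral_smul_measure, smul_eq_mul, mul_comm, ← div_eq_mul_inv,
    ENNReal.div_le_iff (by simpa using hΛ0) ENNReal.ofReal_ne_top] at h1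
  have h2 : ∫⁻ p, Av r (N.indicator h) p ∂m =
      ∫⁻ p in N, (∫⁻ q in N ∩ Metric.closedBall p r, h q) ∂m := by
    have h3 : m Nᶜ = 0 := measure_mono_null (compl_subset_compl.2 hDN) hD
    have h4 : m.restrict N = m := Measure.restrict_eq_self_of_ae_mem (by
      rw [ae_iff]
      exact h3)
    rw [h4]
    refine lintegral_congr fun p => ?_
    unfold Av
    rw [lintegral_indicator hN, Measure.restrict_restrict hN]
  rw [h2]
  refine h1.trans (le_of_eq ?_)
  rw [mul_comm, ← ENNReal.ofReal_mul hΛ0.le, mul_assoc]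

end Pool.Agent.V7H86.LP
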