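import Mathlib
import Pool.Agent.V7H86.LP.Int

/-!
# The local potential
-/

set_option autoImplicit false

open Set Filter Topology MeasureTheory
open scoped Manifold ContDiff ENNReal

noncomputable section

namespace Pool.Agent.V7H86.LP

open Pool.Agent.Y501.SY
open Pool.Agent.Y515.SY (Al)
open Pool.Agent.V7H86.SG

variable {d : ℕ}

/-- the pointwise error -/
def Ept (V W S w : ℝ) (f h : E d → ℝ≥0∞) (ε : ℝ) (p : E d) : ℝ≥0∞ :=
  ENNReal.ofReal V * (ENNReal.ofReal (S * (ε ^ d)⁻¹) *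
    Av ε (fun q => f q + ENNReal.ofReal w * h q) p) +
  ENNReal.ofReal W * (ENNReal.ofReal ε * ∫⁻ t in Ioc (0 : ℝ) 1,
    ENNReal.ofReal (S * ((t * ε) ^ d)⁻¹) * Av (t * ε) h p)

theorem Ept_mono {V V' W W' S w : ℝ} {f h : E d → ℝ≥0∞} {ε : ℝ} {p : E d} (hV : V ≤ V')
    (hW : W ≤ W') : Ept V W S w f h ε p ≤ Ept V' W' S w f h ε p := by
  unfold Ept
  exact add_le_add (mul_le_mul' (ENNReal.ofReal_le_ofReal hV) (le_refl _))
    (mul_le_mul' (ENNReal.ofReal_le_ofReal hW) (le_refl _))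

theorem Ept_measurable {V W S w : ℝ} {f h : E d → ℝ≥0∞} (hf : Measurable f)
    (hh : Measurable h) {ε : ℝ} : Measurable (Ept V W S w f h ε) := by
  have h0 : Measurable (fun p => ENNReal.ofReal V * (ENNReal.ofReal (S * (ε ^ d)⁻¹) *
        Av ε (fun q => f q + ENNReal.ofReal w * h q) p)) :=
    ((Av_measurable' _ (hf.add (hh.const_mul _))).const_mul _).const_mul _
  have hjm : Measurable (fun x : E d × ℝ =>
      ENNReal.ofReal (S * ((x.2 * ε) ^ d)⁻¹) * Av (x.2 * ε) h x.1) := by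
    have e1 : Measurable (fun x : E d × ℝ => ENNReal.ofReal (S * ((x.2 * ε) ^ d)⁻¹)) := by
      refine Measurable.ennreal_ofReal ?_
      fun_prop
    exact e1.mul (Av_measurable2 hh ε)
  have e0 : Measurable (fun p : E d => ∫⁻ t in Ioc (0 : ℝ) 1,
        ENNReal.ofReal (S * ((t * ε) ^ d)⁻¹) * Av (t * ε) h p) :=
    hjm.lintegral_prod_right'
  exact h0.add ((e0.const_mul _).const_mul _)

theorem loc_pt {ρ : E d → ℝ} (hρ : Moll 1 ρ) {S : ℝ} (hS : ∀ x, ‖ρ x‖ ≤ S) {ε : ℝ}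
    (hε : 0 < ε) {s : E d → Al d 2} {p₀ : E d} {R : ℝ} (hεR : ε < R / 4)
    (hs : ContDiffOn ℝ ∞ s (Metric.ball p₀ R))
    (hcl : ∀ p ∈ Metric.ball p₀ R, extDeriv s p = 0) {Bd : ℝ}
    (hBd : ∀ p ∈ Metric.ball p₀ R, ‖s p‖ ≤ Bd) {Js : E d → (E d →L[ℝ] E d)} {K : ℝ}
    (hK : ∀ p ∈ Metric.ball p₀ R, ‖Js p‖ ≤ K) {w : ℝ} (hw : 0 ≤ w)
    (hol : ∀ p ∈ Metric.ball p₀ R, ∀ q ∈ Metric.ball p₀ R, ‖p - q‖ ≤ ε → ‖Js p - Js q‖ ≤ w)
    {χ : E d → ℝ} (hχs : ContDiffOn ℝ ∞ χ (Metric.ball p₀ R))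
    (hχ0 : ∀ p ∈ Metric.ball p₀ R, 0 ≤ χ p) (hχ1 : ∀ p ∈ Metric.ball p₀ R, χ p ≤ 1) {M : ℝ}
    (hM : ∀ p ∈ Metric.ball p₀ (3 * R / 4), ‖fderiv ℝ χ p‖ ≤ M)
    (hχz : ∀ p ∈ Metric.ball p₀ R, p ∉ Metric.closedBall p₀ (R / 2) → χ p = 0)
    {f h : E d → ℝ≥0∞} (hf : Measurable f) (hh : Measurable h) {c : ℝ}
    (hsh : ∀ q ∈ Metric.ball p₀ R, ‖s q‖ₑ ≤ h q)
    (hsf : ∀ q ∈ Metric.ball p₀ R, ∀ v, ENNReal.ofReal (c * ‖v‖ ^ 2 - s q ![v, Js q v]) ≤
      f q * ENNReal.ofReal (‖v‖ ^ 2)) :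
    ∃ b : E d → Al d 1, ContDiffOn ℝ ∞ b (Metric.ball p₀ R) ∧
      (∀ p ∈ Metric.ball p₀ R, p ∉ Metric.closedBall p₀ (R / 2) → b p = 0) ∧
      ∀ p ∈ Metric.ball p₀ (3 * R / 4), ∀ v, ENNReal.ofReal (χ p * (c * ‖v‖ ^ 2) -
        (χ p * s p ![v, Js p v] + extDeriv b p ![v, Js p v])) ≤
        Ept (‖v‖ ^ 2) (2 * M * K * ‖v‖ ^ 2) S w f h ε p := by
  classical
  have hR : 0 < R := by linarith
  have hMo := sc_moll hρ hε
  have hcb : ∀ p ∈ Metric.ball p₀ (3 * R / 4), Metric.closedBall p ε ⊆ Metric.ball p₀ R := by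
    intro p hp q hq
    rw [Metric.mem_ball] at hp ⊢
    rw [Metric.mem_closedBall] at hq
    have := dist_triangle q p p₀
    linarith
  have hsubO : Metric.ball p₀ (3 * R / 4) ⊆ Metric.ball p₀ R :=
    Metric.ball_subset_ball (by linarith)
  obtain ⟨ht1, ht2, -⟩ := Pool.Agent.Y431.SY.t_HT d (Metric.ball p₀ R)
    (Metric.ball p₀ (3 * R / 4)) s ε Bd (sc ρ ε) Metric.isOpen_ball Metric.isOpen_ball hs hcl hBd
    hε hMo hcb
  obtain ⟨b, hb⟩ : ∃ b : E d → Al d 1, b = fun p =>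
    if p ∈ Metric.ball p₀ (3 * R / 4) then χ p • hA (sc ρ ε) s p else 0 := ⟨_, rfl⟩
  have hbe : ∀ p ∈ Metric.ball p₀ (3 * R / 4),
      b =ᶠ[𝓝 p] fun p => χ p • hA (sc ρ ε) s p := by
    intro p hp
    filter_upwards [Metric.isOpen_ball.mem_nhds hp] with q hq
    rw [hb]
    exact if_pos hq
  have hbz : ∀ p ∈ Metric.ball p₀ R, p ∉ Metric.closedBall p₀ (R / 2) → b p = 0 := by
    intro p hp hp2
    rw [hb]
    dsimp only
    split_ifs with h1
    · rw [hχz p hp hp2, zero_smul]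
    · rfl
  refine ⟨b, ?_, hbz, ?_⟩
  · intro p hp
    refine ContDiffAt.contDiffWithinAt ?_
    by_cases h1 : p ∈ Metric.ball p₀ (3 * R / 4)
    · refine ContDiffAt.congr_of_eventuallyEq ?_ (hbe p h1)
      exact (hχs.contDiffAt (Metric.isOpen_ball.mem_nhds hp)).smul
        (ht1.contDiffAt (Metric.isOpen_ball.mem_nhds h1))
    · have h2 : b =ᶠ[𝓝 p] fun _ => 0 := by
        have h3 : (Metric.closedBall p₀ (R / 2))ᶜ ∩ Metric.ball p₀ R ∈ 𝓝 p := by
          refine (Metric.isClosed_closedBall.isOpen_compl.inter Metric.isOpen_ball).mem_nhds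
            ⟨?_, hp⟩
          intro h4
          apply h1
          rw [Metric.mem_closedBall] at h4
          rw [Metric.mem_ball]
          linarith
        filter_upwards [h3] with q hq
        exact hbz q hq.2 hq.1
      exact contDiffAt_const.congr_of_eventuallyEq h2
  · intro p hp v
    have hpR := hsubO hp
    obtain ⟨A, hA'⟩ : ∃ A, A = hA (sc ρ ε) s p := ⟨_, rfl⟩
    have hK0 : 0 ≤ K := (norm_nonneg _).trans (hK p hpR)
    have hM0 : 0 ≤ M := (norm_nonneg _).trans (hM p hp)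
    have e1 : extDeriv b p ![v, Js p v] = χ p * (mol (sc ρ ε) s p ![v, Js p v] -
        s p ![v, Js p v]) + (fderiv ℝ χ p v * A ![Js p v] - fderiv ℝ χ p (Js p v) * A ![v]) := by
      rw [(hbe p hp).extDeriv_eq, smul_ext
        ((hχs.contDiffAt (Metric.isOpen_ball.mem_nhds hpR)).differentiableAt (by simp))
        ((ht1.contDiffAt (Metric.isOpen_ball.mem_nhds hp)).differentiableAt (by simp)),
        ht2 p hp, ← hA']
      rfl
    have hcut : |fderiv ℝ χ p v * A ![Js p v] - fderiv ℝ χ p (Js p v) * A ![v]| ≤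
        (2 * M * K * ‖v‖ ^ 2) * ‖A‖ := by
      have hd1 : ∀ w : E d, |fderiv ℝ χ p w| ≤ M * ‖w‖ := fun w =>
        ((fderiv ℝ χ p).le_opNorm w).trans (mul_le_mul_of_nonneg_right (hM p hp) (norm_nonneg _))
      have hJv : ‖Js p v‖ ≤ K * ‖v‖ :=
        ((Js p).le_opNorm v).trans (mul_le_mul_of_nonneg_right (hK p hpR) (norm_nonneg _))
      refine (abs_sub _ _).trans ?_
      rw [abs_mul, abs_mul]
      have t1 : |fderiv ℝ χ p v| * |A ![Js p v]| ≤ M * K * ‖v‖ ^ 2 * ‖A‖ := by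
        calc _ ≤ (M * ‖v‖) * (‖A‖ * (K * ‖v‖)) := by
              refine mul_le_mul (hd1 v) ((one_app _ _).trans ?_) (abs_nonneg _) (by positivity)
              exact mul_le_mul_of_nonneg_left hJv (norm_nonneg _)
          _ = _ := by ring
      have t2 : |fderiv ℝ χ p (Js p v)| * |A ![v]| ≤ M * K * ‖v‖ ^ 2 * ‖A‖ := by
        calc _ ≤ (M * (K * ‖v‖)) * (‖A‖ * ‖v‖) := by
              refine mul_le_mul ((hd1 _).trans ?_) (one_app _ _) (abs_nonneg _) (by positivity)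
              exact mul_le_mul_of_nonneg_left hJv hM0
          _ = _ := by ring
      linarith
    have e2 : χ p * (c * ‖v‖ ^ 2) - (χ p * s p ![v, Js p v] + extDeriv b p ![v, Js p v]) ≤
        max (c * ‖v‖ ^ 2 - mol (sc ρ ε) s p ![v, Js p v]) 0 + (2 * M * K * ‖v‖ ^ 2) * ‖A‖ := by
      rw [e1]
      have h1 := neg_abs_le (fderiv ℝ χ p v * A ![Js p v] - fderiv ℝ χ p (Js p v) * A ![v])
      have h2 : χ p * (c * ‖v‖ ^ 2 - mol (sc ρ ε) s p ![v, Js p v]) ≤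
          max (c * ‖v‖ ^ 2 - mol (sc ρ ε) s p ![v, Js p v]) 0 := by
        have h3 := hχ0 p hpR
        have h4 := hχ1 p hpR
        rcases le_total (c * ‖v‖ ^ 2 - mol (sc ρ ε) s p ![v, Js p v]) 0 with h5 | h5
        · exact (mul_nonpos_of_nonneg_of_nonpos h3 h5).trans (le_max_right _ _)
        · refine le_trans ?_ (le_max_left _ _)
          exact mul_le_of_le_one_left h5 h4
      linarith
    refine (ENNReal.ofReal_le_ofReal e2).trans (ENNReal.ofReal_add_le.trans ?_)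
    unfold Ept
    refine add_le_add ?_ ?_
    · have e3 : ∀ x : ℝ, ENNReal.ofReal (max x 0) = ENNReal.ofReal x := by
        intro x
        rcases le_total x 0 with h5 | h5
        · rw [max_eq_right h5, ENNReal.ofReal_zero, ENNReal.ofReal_of_nonpos h5]
        · rw [max_eq_left h5]
      rw [e3]
      refine mol_le hρ hS hε Metric.isOpen_ball hs.continuousOn hf hh (hcb p hp)
        hw (fun q hq => hsh q (hcb p hp hq)) (fun q hq => ?_) v
        (fun q hq => hsf q (hcb p hp hq) v)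
      refine hol p hpR q (hcb p hp hq) ?_
      rw [Metric.mem_closedBall, dist_eq_norm] at hq
      rw [norm_sub_rev]
      exact hq
    · rw [ENNReal.ofReal_mul (by positivity), ofReal_norm, hA']
      exact mul_le_mul' (le_refl (ENNReal.ofReal (2 * M * K * ‖v‖ ^ 2)))
        (hA_le hρ hS hε hh (fun q hq => hsh q (hcb p hp hq)))

end Pool.Agent.V7H86.LP
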