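import Mathlib
import Pool.Agent.V7H86.SG.Gb

/-!
# A compact space of tangent vectors
-/

set_option autoImplicit false

open Set Filter Topology MeasureTheory
open scoped Manifold ContDiff

noncomputable section

namespace Pool.Agent.V7H86.LP

open Pool.Agent.Y501.SY
open Pool.Agent.Y455.SY (A B AB BA A_surj Q Q_eq)

variable {d : ℕ} {X : Type} [TopologicalSpace X] [ChartedSpace (E d) X]

/-- a finite atlas by balls -/
structure Atl (d : ℕ) (X : Type) [TopologicalSpace X] [ChartedSpace (E d) X] (k : ℕ) where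
  c : Fin k → X
  R : Fin k → ℝ
  Rpos : ∀ i, 0 < R i
  sub : ∀ i, Metric.closedBall (chartAt (E d) (c i) (c i)) (R i) ⊆ (chartAt (E d) (c i)).target
  cov : ∀ x : X, ∃ i, x ∈ (chartAt (E d) (c i)).source ∧
    chartAt (E d) (c i) x ∈ Metric.ball (chartAt (E d) (c i) (c i)) (R i / 2)

/-- A compact space with a map to the tangent bundle, such that the positivity of `w(v, J v)` can
be tested on it. -/
structure Sph (J : End d X) {m : ℕ} (F : X → E m) where
  Y : Type
  [top : TopologicalSpace Y]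
  [cpt : CompactSpace Y]
  [t2 : T2Space Y]
  x : Y → X
  hx : Continuous x
  u : ∀ y : Y, TangentSpace (𝓡 d) (x y)
  cont : ∀ w : Form d X 2, IsSmooth w → Continuous (fun y => w (x y) ![u y, J (x y) (u y)])
  lo : ℝ
  hi : ℝ
  lo_pos : 0 < lo
  hi_pos : 0 < hi
  lo_le : ∀ y, lo ≤ nm F (x y) (u y)
  le_hi : ∀ y, nm F (x y) (u y) ≤ hi
  tames : ∀ w : Form d X 2, (∀ y, 0 < w (x y) ![u y, J (x y) (u y)]) → ∀ z, TamesAt w J z

attribute [instance] Sph.top Sph.cpt Sph.t2

variable [IsManifold (𝓡 d) ∞ X]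

omit [IsManifold (𝓡 d) ∞ X] in
theorem w_smul (w : Form d X 2) (J : End d X) (z : X) (a : ℝ) (v : TangentSpace (𝓡 d) z) :
    w z ![a • v, J z (a • v)] = a ^ 2 * w z ![v, J z v] := by
  rw [map_smul]
  have h : (![a • v, a • J z v] : Fin 2 → TangentSpace (𝓡 d) z) =
      fun i => (fun _ : Fin 2 => a) i • (![v, J z v] : Fin 2 → TangentSpace (𝓡 d) z) i := by
    funext i
    fin_cases i <;> rfl
  rw [h, ContinuousAlternatingMap.map_smul_univ]
  simp

theorem exists_sph [Nonempty X] {J : End d X} (hJ : IsAlmostComplex J) {m : ℕ} {F : X → E m}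
    (hF : ContMDiff (𝓡 d) (𝓡 m) ∞ F)
    (hFi : ∀ x, Function.Injective (mfderiv (𝓡 d) (𝓡 m) F x)) {k : ℕ} (a : Atl d X k) :
    Nonempty (Sph J F) := by
  classical
  obtain ⟨S, hS⟩ : ∃ S : Set (Fin k × E d × E d), S = {y | y.2.1 ∈ Metric.closedBall
    (chartAt (E d) (a.c y.1) (a.c y.1)) (a.R y.1 / 2) ∧ ‖y.2.2‖ = 1} := ⟨_, rfl⟩
  have hScomp : IsCompact S := by
    have h1 : S = ⋃ i : Fin k, (({i} : Set (Fin k)) ×ˢ ((Metric.closedBall
        (chartAt (E d) (a.c i) (a.c i)) (a.R i / 2)) ×ˢ (Metric.sphere (0 : E d) 1))) := by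
      rw [hS]
      ext ⟨i, p, v⟩
      simp only [mem_iUnion, mem_prod, mem_singleton_iff, mem_sphere_zero_iff_norm]
      constructor
      · rintro ⟨h1, h2⟩
        exact ⟨i, rfl, h1, h2⟩
      · rintro ⟨j, h1, h2, h3⟩
        change i = j at h1
        subst h1
        exact ⟨h2, h3⟩
    rw [h1]
    exact isCompact_iUnion fun i => isCompact_singleton.prod
      ((isCompact_closedBall _ _).prod (isCompact_sphere _ _))
  have hsub : ∀ i : Fin k, Metric.closedBall (chartAt (E d) (a.c i) (a.c i)) (a.R i / 2) ⊆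
      (chartAt (E d) (a.c i)).target := fun i =>
    (Metric.closedBall_subset_closedBall (by linarith [a.Rpos i])).trans (a.sub i)
  choose ci Ci hci hCi hnm using fun i : Fin k => Pool.Agent.Y44.SY.t_IMM d m X F hF hFi (a.c i)
    (Metric.closedBall (chartAt (E d) (a.c i) (a.c i)) (a.R i / 2)) (isCompact_closedBall _ _)
    (hsub i)
  have hk : Nonempty (Fin k) := by
    obtain ⟨x⟩ := ‹Nonempty X›
    obtain ⟨i, -⟩ := a.cov x
    exact ⟨i⟩
  obtain ⟨lo, hlo, hlo2⟩ : ∃ lo : ℝ, 0 < lo ∧ ∀ i, lo ≤ ci i := by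
    obtain ⟨i₀, -, h⟩ := Finset.exists_min_image Finset.univ ci ⟨hk.some, Finset.mem_univ _⟩
    exact ⟨ci i₀, hci i₀, fun i => h i (Finset.mem_univ i)⟩
  obtain ⟨hi, hhi, hhi2⟩ : ∃ hi : ℝ, 0 < hi ∧ ∀ i, Ci i ≤ hi := by
    obtain ⟨i₀, -, h⟩ := Finset.exists_max_image Finset.univ Ci ⟨hk.some, Finset.mem_univ _⟩
    exact ⟨Ci i₀, hCi i₀, fun i => h i (Finset.mem_univ i)⟩
  have hcpt : CompactSpace S := isCompact_iff_compactSpace.1 hScomp
  have hmem : ∀ y : S, y.1.2.1 ∈ Metric.closedBall (chartAt (E d) (a.c y.1.1) (a.c y.1.1))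
      (a.R y.1.1 / 2) ∧ ‖y.1.2.2‖ = 1 := by
    have h1 : ∀ z ∈ S, z.2.1 ∈ Metric.closedBall (chartAt (E d) (a.c z.1) (a.c z.1))
        (a.R z.1 / 2) ∧ ‖z.2.2‖ = 1 := by
      intro z hz
      rw [hS] at hz
      exact hz
    exact fun y => h1 y.1 y.2
  -- local constancy of the first coordinate
  have hfst : ∀ y₀ : S, ∀ᶠ y in 𝓝 y₀, y.1.1 = y₀.1.1 := by
    intro y₀
    have h1 : Continuous (fun y : S => y.1.1) := continuous_fst.comp continuous_subtype_val
    exact h1.continuousAt (IsOpen.mem_nhds (isOpen_discrete {y₀.1.1}) rfl)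
  refine ⟨{
    Y := S
    x := fun y => (chartAt (E d) (a.c y.1.1)).symm y.1.2.1
    hx := ?_
    u := fun y => A (a.c y.1.1) y.1.2.1 y.1.2.2
    cont := ?_
    lo := lo
    hi := hi
    lo_pos := hlo
    hi_pos := hhi
    lo_le := ?_
    le_hi := ?_
    tames := ?_ }⟩
  · rw [continuous_iff_continuousAt]
    intro y₀
    have h2 : ContinuousAt (fun y : S => (chartAt (E d) (a.c y₀.1.1)).symm y.1.2.1) y₀ := by
      have h3 : ContinuousAt (chartAt (E d) (a.c y₀.1.1)).symm y₀.1.2.1 :=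
        (chartAt (E d) (a.c y₀.1.1)).continuousAt_symm (hsub _ (hmem y₀).1)
      exact ContinuousAt.comp (f := fun y : S => y.1.2.1) h3
        (by fun_prop : ContinuousAt (fun y : S => y.1.2.1) y₀)
    refine h2.congr ?_
    filter_upwards [hfst y₀] with y hy
    rw [hy]
  · intro w hw
    rw [continuous_iff_continuousAt]
    intro y₀
    have hpt := hsub _ (hmem y₀).1
    have h1 : ContinuousAt (pb (chartAt (E d) (a.c y₀.1.1)).symm w) y₀.1.2.1 :=
      (hw _ _ (chartAt (E d) (a.c y₀.1.1)).open_target contMDiffOn_chart_symm).continuousOn.continuousAt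
        ((chartAt (E d) (a.c y₀.1.1)).open_target.mem_nhds hpt)
    have h2 : ContinuousAt (inChart J (a.c y₀.1.1)) y₀.1.2.1 :=
      (hJ.cont (a.c y₀.1.1)).continuousAt
        ((chartAt (E d) (a.c y₀.1.1)).open_target.mem_nhds hpt)
    have hp : ContinuousAt (fun y : S => y.1.2.1) y₀ := by fun_prop
    have hv : ContinuousAt (fun y : S => y.1.2.2) y₀ := by fun_prop
    have h3 : ContinuousAt (fun y : S => pb (chartAt (E d) (a.c y₀.1.1)).symm w y.1.2.1
        ![y.1.2.2, inChart J (a.c y₀.1.1) y.1.2.1 y.1.2.2]) y₀ := by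
      have h4 : ContinuousAt (fun y : S => pb (chartAt (E d) (a.c y₀.1.1)).symm w y.1.2.1) y₀ :=
        ContinuousAt.comp (f := fun y : S => y.1.2.1) h1 hp
      have h5 : ContinuousAt (fun y : S => inChart J (a.c y₀.1.1) y.1.2.1 y.1.2.2) y₀ :=
        (ContinuousAt.comp (f := fun y : S => y.1.2.1) h2 hp).clm_apply hv
      have h6 : (fun y : S => pb (chartAt (E d) (a.c y₀.1.1)).symm w y.1.2.1
          ![y.1.2.2, inChart J (a.c y₀.1.1) y.1.2.1 y.1.2.2]) = fun y : S =>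
          ∑ i, ∑ j, y.1.2.2 i * (inChart J (a.c y₀.1.1) y.1.2.1 y.1.2.2) j *
            pb (chartAt (E d) (a.c y₀.1.1)).symm w y.1.2.1
              ![Pool.Agent.Y515.SY.bs i, Pool.Agent.Y515.SY.bs j] := by
        funext y
        exact Pool.Agent.Y515.SY.both_sum _ _ _
      rw [h6]
      refine tendsto_finsetSum _ fun i _ => tendsto_finsetSum _ fun j _ => ?_
      have h7 : ContinuousAt (fun y : S => y.1.2.2 i) y₀ :=
        ContinuousAt.comp (f := fun y : S => y.1.2.2)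
          (EuclideanSpace.proj (𝕜 := ℝ) i).continuous.continuousAt hv
      have h8 : ContinuousAt (fun y : S => (inChart J (a.c y₀.1.1) y.1.2.1 y.1.2.2) j) y₀ :=
        ContinuousAt.comp (f := fun y : S => inChart J (a.c y₀.1.1) y.1.2.1 y.1.2.2)
          (EuclideanSpace.proj (𝕜 := ℝ) j).continuous.continuousAt h5
      have h9 : ContinuousAt (fun y : S => pb (chartAt (E d) (a.c y₀.1.1)).symm w y.1.2.1
          ![Pool.Agent.Y515.SY.bs i, Pool.Agent.Y515.SY.bs j]) y₀ :=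
        ContinuousAt.comp (f := fun y : S => pb (chartAt (E d) (a.c y₀.1.1)).symm w y.1.2.1)
          (ContinuousAlternatingMap.apply ℝ (E d) ℝ
            ![Pool.Agent.Y515.SY.bs i, Pool.Agent.Y515.SY.bs j]).continuous.continuousAt h4
      exact (h7.mul h8).mul h9
    refine h3.congr ?_
    filter_upwards [hfst y₀] with y hy
    rw [← hy]
    exact Q_eq w J (a.c y.1.1) (hsub _ (hmem y).1) y.1.2.2
  · intro y
    have h1 := (hnm y.1.1 y.1.2.1 (hmem y).1 y.1.2.2).1
    rw [(hmem y).2, mul_one] at h1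
    exact (hlo2 _).trans h1
  · intro y
    have h1 := (hnm y.1.1 y.1.2.1 (hmem y).1 y.1.2.2).2
    rw [(hmem y).2, mul_one] at h1
    exact h1.trans (hhi2 _)
  · intro w hw z v hv
    obtain ⟨i, hi1, hi2⟩ := a.cov z
    obtain ⟨p, hp⟩ : ∃ p, p = chartAt (E d) (a.c i) z := ⟨_, rfl⟩
    have hpz : (chartAt (E d) (a.c i)).symm p = z := by
      rw [hp, (chartAt (E d) (a.c i)).left_inv hi1]
    rw [← hp] at hi2
    have hpt := hsub i (Metric.ball_subset_closedBall hi2)
    subst hpz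
    obtain ⟨v', hv'⟩ := A_surj (a.c i) hpt v
    have hne : v' ≠ 0 := by
      intro h
      apply hv
      rw [← hv', h, map_zero]
      rfl
    have hn : 0 < ‖v'‖ := norm_pos_iff.2 hne
    have hyS : ((i, p, ‖v'‖⁻¹ • v') : Fin k × E d × E d) ∈ S := by
      rw [hS]
      refine ⟨Metric.ball_subset_closedBall hi2, ?_⟩
      change ‖‖v'‖⁻¹ • v'‖ = 1
      rw [norm_smul, norm_inv, norm_norm, inv_mul_cancel₀ hn.ne']
    have h1 := hw ⟨_, hyS⟩
    change 0 < w ((chartAt (E d) (a.c i)).symm p) ![A (a.c i) p (‖v'‖⁻¹ • v'),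
      J ((chartAt (E d) (a.c i)).symm p) (A (a.c i) p (‖v'‖⁻¹ • v'))] at h1
    have h2 : A (a.c i) p (‖v'‖⁻¹ • v') = ‖v'‖⁻¹ • v := by
      rw [map_smul, hv']
      rfl
    rw [h2] at h1
    have h3 := w_smul w J ((chartAt (E d) (a.c i)).symm p) (‖v'‖⁻¹) v
    have h4 : 0 < (‖v'‖⁻¹) ^ 2 * w ((chartAt (E d) (a.c i)).symm p)
        ![v, J ((chartAt (E d) (a.c i)).symm p) v] := lt_of_lt_of_eq h1 h3
    exact pos_of_mul_pos_right h4 (by positivity)

end Pool.Agent.V7H86.LP
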