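import Mathlib
import Pool.Agent.V7H86.LP.Sph
import Pool.Agent.Y891.SY.PatchP

/-!
# Exact forms supported in a chart
-/

set_option autoImplicit false

open Set Filter Topology MeasureTheory
open scoped Manifold ContDiff

noncomputable section

namespace Pool.Agent.V7H86.LP

open Pool.Agent.Y501.SY
open Pool.Agent.Y455.SY (A B AB BA A_surj Q Q_eq)
open Pool.Agent.Y515.SY (Al)

variable {d : ℕ} {X : Type} [TopologicalSpace X] [ChartedSpace (E d) X] [IsManifold (𝓡 d) ∞ X]

/-- A one-form with compact support in a ball of a chart, extended by zero. -/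
theorem ext_form [T2Space X] (z : X) {p₀ : E d} {R r : ℝ} (hrR : r < R)
    (hsub : Metric.closedBall p₀ R ⊆ (chartAt (E d) z).target) {b : E d → Al d 1}
    (hb : ContDiffOn ℝ ∞ b (Metric.ball p₀ R))
    (hb0 : ∀ p ∈ Metric.ball p₀ R, p ∉ Metric.closedBall p₀ r → b p = 0) :
    ∃ (β : Form d X 1) (η : Form d X 2), IsSmooth β ∧ IsSmooth η ∧ IsD β η ∧
      (∀ x, (x ∉ (chartAt (E d) z).source ∨ chartAt (E d) z x ∉ Metric.closedBall p₀ r) →
        η x = 0) ∧
      ∀ p ∈ Metric.ball p₀ R, pb (chartAt (E d) z).symm η p = extDeriv b p := by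
  obtain ⟨e, he⟩ : ∃ e, e = chartAt (E d) z := ⟨_, rfl⟩
  rw [← he] at hsub ⊢
  have hV : Metric.ball p₀ R ⊆ e.target := Metric.ball_subset_closedBall.trans hsub
  obtain ⟨O, hOd⟩ : ∃ O, O = e.source ∩ e ⁻¹' Metric.ball p₀ R := ⟨_, rfl⟩
  have hO : IsOpen O := by rw [hOd]; exact e.isOpen_inter_preimage Metric.isOpen_ball
  have heO : e '' O = Metric.ball p₀ R := by
    apply Subset.antisymm
    · rintro _ ⟨x, hx, rfl⟩
      rw [hOd] at hx
      exact hx.2
    · intro p hp
      refine ⟨e.symm p, ?_, e.right_inv (hV hp)⟩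
      rw [hOd]
      refine ⟨e.map_target (hV hp), ?_⟩
      rw [mem_preimage, e.right_inv (hV hp)]
      exact hp
  have hOs : O ⊆ e.source := by rw [hOd]; exact inter_subset_left
  have hz0 : (0 : Form d X 2) - 0 = 0 := sub_zero _
  obtain ⟨β, η, h1, h2, h3, h4, h5, h6⟩ := Pool.Agent.Y891.SY.t_PATCHP d X z O ∅ ∅
    (Metric.closedBall p₀ r) b (0 : Form d X 1) (0 : Form d X 2) (0 : Form d X 2) hO
    (by rw [← he]; exact hOs) isClosed_empty Subset.rfl (isCompact_closedBall _ _)
    (by rw [← he, heO]; exact Metric.closedBall_subset_ball hrR)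
    (fun x hx => absurd hx (notMem_empty x))
    (by rw [← he, heO]; exact hb.mono sdiff_subset)
    (by
      rw [← he, heO]
      intro p hp
      rw [hb0 p hp.1 hp.2, pb_zero]
      rfl)
    IsSmooth.zero IsD.zero
    (fun U φ hU hφ _ => IsSmooth.zero U φ hU hφ)
    (fun U φ hU hφ _ => IsSmooth.zero U φ hU hφ)
    (by
      rw [hz0]
      exact fun U φ hU hφ _ => IsD.zero U φ hU hφ)
  rw [← he] at h4 h5 h6
  refine ⟨β, η, fun U φ hU hφ => h1 U φ hU hφ fun p _ => notMem_empty _,
    fun U φ hU hφ => h2 U φ hU hφ fun p _ => notMem_empty _, ?_, ?_, ?_⟩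
  · intro U φ hU hφ
    have h7 := h3 U φ hU hφ fun p _ => notMem_empty _
    rwa [sub_zero] at h7
  · intro x hx
    refine (h4 x ?_).2
    rcases hx with h | h
    · exact Or.inl fun h' => h (hOs h')
    · exact Or.inr h
  · intro p hp
    have h7 := h6 p (by
      rw [heO]
      refine ⟨hp, ?_⟩
      rw [empty_inter, image_empty]
      exact notMem_empty _)
    rw [h7, pb_zero]
    change (0 : Al d 2) + extDeriv b p = _
    rw [zero_add]

end Pool.Agent.V7H86.LP
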