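import Mathlib
import Pool.Agent.V7H86.LP.Ex

/-!
# The quadratic form of a two-form in a chart
-/

set_option autoImplicit false

open Set Filter Topology MeasureTheory
open scoped Manifold ContDiff

noncomputable section

namespace Pool.Agent.V7H86.LP

open Pool.Agent.Y501.SY
open Pool.Agent.Y455.SY (A B AB BA A_surj Q Q_eq)
open Pool.Agent.Y515.SY (Al)

variable {d : ℕ} {X : Type} [TopologicalSpace X] [ChartedSpace (E d) X]

/-- the vector `v` in the chart at `c` -/
def vec (c : X) {z : X} (v : TangentSpace (𝓡 d) z) : E d :=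
  mfderiv (𝓡 d) (𝓡 d) (chartAt (E d) c) z v

variable [IsManifold (𝓡 d) ∞ X]

theorem q_chart (w : Form d X 2) (J : End d X) (c : X) {z : X}
    (hz : z ∈ (chartAt (E d) c).source) (v : TangentSpace (𝓡 d) z) :
    w z ![v, J z v] = pb (chartAt (E d) c).symm w (chartAt (E d) c z)
      ![vec c v, inChart J c (chartAt (E d) c z) (vec c v)] := by
  obtain ⟨p, hp⟩ : ∃ p, p = chartAt (E d) c z := ⟨_, rfl⟩
  have hpt : p ∈ (chartAt (E d) c).target := by
    rw [hp]
    exact (chartAt (E d) c).map_source hz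
  have hpz : (chartAt (E d) c).symm p = z := by
    rw [hp, (chartAt (E d) c).left_inv hz]
  rw [← hp]
  subst hpz
  have h1 : A c p (B c p v) = v := AB c hpt v
  have h2 := Q_eq w J c hpt (B c p v)
  unfold Q at h2
  have h3 : vec c v = B c p v := rfl
  rw [h3, h2]
  rw [h1]

theorem nm_chart {m : ℕ} {F : X → E m} (hF : ContMDiff (𝓡 d) (𝓡 m) ∞ F)
    (hFi : ∀ x, Function.Injective (mfderiv (𝓡 d) (𝓡 m) F x)) (c : X) {N : Set (E d)}
    (hN : IsCompact N) (hNt : N ⊆ (chartAt (E d) c).target) :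
    ∃ k K : ℝ, 0 < k ∧ 0 < K ∧ ∀ z ∈ (chartAt (E d) c).source, chartAt (E d) c z ∈ N →
      ∀ v : TangentSpace (𝓡 d) z, k * ‖vec c v‖ ≤ nm F z v ∧ nm F z v ≤ K * ‖vec c v‖ := by
  obtain ⟨k, K, hk, hK, h⟩ := Pool.Agent.Y44.SY.t_IMM d m X F hF hFi c N hN hNt
  refine ⟨k, K, hk, hK, fun z hz hzN v => ?_⟩
  obtain ⟨p, hp⟩ : ∃ p, p = chartAt (E d) c z := ⟨_, rfl⟩
  have hpt : p ∈ (chartAt (E d) c).target := by
    rw [hp]
    exact (chartAt (E d) c).map_source hz
  have hpz : (chartAt (E d) c).symm p = z := by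
    rw [hp, (chartAt (E d) c).left_inv hz]
  rw [← hp] at hzN
  subst hpz
  have h1 : A c p (B c p v) = v := AB c hpt v
  have h2 := h p hzN (B c p v)
  have h3 : vec c v = B c p v := rfl
  rw [h3]
  change k * ‖B c p v‖ ≤ nm F ((chartAt (E d) c).symm p) (A c p (B c p v)) ∧
    nm F ((chartAt (E d) c).symm p) (A c p (B c p v)) ≤ K * ‖B c p v‖ at h2
  rw [h1] at h2
  exact h2

/-- the value of the quadratic form at a point of `Y` -/
def Qy {J : End d X} {m : ℕ} {F : X → E m} (S : Sph J F) (w : Form d X 2) (y : S.Y) : ℝ :=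
  w (S.x y) ![S.u y, J (S.x y) (S.u y)]

end Pool.Agent.V7H86.LP
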