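import Mathlib
import Pool.Agent.V7H86.LP.Cha

/-!
# The test forms
-/

set_option autoImplicit false

open Set Filter Topology MeasureTheory
open scoped Manifold ContDiff

noncomputable section

namespace Pool.Agent.V7H86.LP

open Pool.Agent.Y501.SY
open Pool.Agent.Y515.SY (Al)
open Pool.Agent.V7H86.SG

variable {d : ℕ}

/-- the test potential -/
def tst (Js : E d → (E d →L[ℝ] E d)) (φ : E d → ℝ) (z : E d) (κ s : ℝ) (x : E d) : Al d 1 :=
  φ (x - z) • lam (Js z) z 1 κ s x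

theorem tst_contDiff {Js : E d → (E d →L[ℝ] E d)} {φ : E d → ℝ} (hφ : ContDiff ℝ ∞ φ) (z : E d)
    (κ : ℝ) {s : ℝ} (hs : 0 < s) : ContDiff ℝ ∞ (tst Js φ z κ s) := by
  unfold tst
  exact (hφ.comp (contDiff_id.sub contDiff_const)).smul (lam_contDiff z 1 κ hs)

theorem LA_le {J₀ : E d →L[ℝ] E d} {K : ℝ} (h : ‖J₀‖ ≤ K) : LA J₀ ≤ 1 + K ^ 2 := by
  unfold LA
  have := pow_le_pow_left₀ (norm_nonneg J₀) h 2
  linarith

theorem tst_low {Js : E d → (E d →L[ℝ] E d)} {z : E d} {κ r₀ K M₀ : ℝ} {φ : E d → ℝ}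
    (hφ : ContDiff ℝ ∞ φ) (h1 : ∀ w, ‖w‖ ≤ r₀ / 2 → φ w = 1)
    (hnn : ∀ w, 0 ≤ φ w) (hM0 : 0 ≤ M₀) (hM : ∀ w, ‖fderiv ℝ φ w‖ ≤ M₀) (hκ0 : 0 < κ)
    (hκ1 : κ ≤ 1) (hr0 : 0 < r₀) (hr1 : r₀ ≤ 1) (hK : 1 ≤ K) (hJ0 : ∀ v, Js z (Js z v) = -v)
    (hJz : ‖Js z‖ ≤ K) {p : E d} (hJp : ‖Js p‖ ≤ K) (hc : 6 * LA (Js z) * ‖Js p - Js z‖ ≤ κ)
    (hp : ‖p - z‖ ≤ r₀) {s : ℝ} (hs : 0 < s) (hs2 : s ≤ r₀ / 2) (v : E d) :
    (if ‖p - z‖ ≤ s then κ * ((2 + K ^ 2) * s ^ 2) ^ (κ - 1) else 0) * ‖v‖ ^ 2 -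
      (2 * M₀ * (((r₀ / 2) ^ 2) ^ (κ - 1) * ((1 + K ^ 2) * K)) * K) * ‖v‖ ^ 2 ≤
      extDeriv (tst Js φ z κ s) p ![v, Js p v] := by
  have hlam : ContDiff ℝ ∞ (lam (Js z) z 1 κ s) := lam_contDiff z 1 κ hs
  have hχ : ContDiff ℝ ∞ (fun x : E d => φ (x - z)) := hφ.comp (contDiff_id.sub contDiff_const)
  have hK0 : 0 < K := by linarith
  obtain ⟨N₀, hN₀⟩ : ∃ N₀ : ℝ, N₀ = ((r₀ / 2) ^ 2) ^ (κ - 1) * ((1 + K ^ 2) * K) := ⟨_, rfl⟩
  have hN₀0 : 0 ≤ N₀ := by rw [hN₀]; positivity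
  rw [← hN₀]
  unfold tst
  rw [smul_ext (hχ.contDiffAt.differentiableAt (by simp))
    (hlam.contDiffAt.differentiableAt (by simp))]
  have e1 : fderiv ℝ (fun x : E d => φ (x - z)) p = fderiv ℝ φ (p - z) := by
    exact fderiv_comp_sub z
  rw [e1]
  have hpos := lam_pos' hJ0 z (A := 1) (κ := κ) (ε := s) zero_le_one hκ0.le hκ1 hs hc p v
  have hu := gg_nonneg (J₀ := Js z) (p - z)
  have hup := gg_upper_self (J₀ := Js z) (p - z)
  have hLA := LA_le hJz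
  have hLA1 := one_le_LA (Js z)
  have hP0 : 0 ≤ (gg (Js z) (p - z) (p - z) + s ^ 2) ^ (κ - 1) :=
    Real.rpow_nonneg (by positivity) _
  -- the cut-off terms
  have hcut : |fderiv ℝ φ (p - z) v * lam (Js z) z 1 κ s p ![Js p v] -
      fderiv ℝ φ (p - z) (Js p v) * lam (Js z) z 1 κ s p ![v]| ≤ 2 * M₀ * N₀ * K * ‖v‖ ^ 2 := by
    rcases lt_or_ge ‖p - z‖ (r₀ / 2) with h | h
    · have h2 : fderiv ℝ φ (p - z) = 0 := by
        have h3 : φ =ᶠ[𝓝 (p - z)] fun _ => (1 : ℝ) := by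
          have h4 : ∀ᶠ w in 𝓝 (p - z), ‖w‖ < r₀ / 2 :=
            continuous_norm.continuousAt.eventually_lt_const h
          filter_upwards [h4] with w hw using h1 w hw.le
        rw [h3.fderiv_eq]
        exact fderiv_const_apply _
      rw [h2]
      simp only [_root_.zero_apply, zero_mul, sub_zero, abs_zero]
      positivity
    · have hb : ∀ w : E d, |lam (Js z) z 1 κ s p ![w]| ≤ N₀ * ‖w‖ := by
        intro w
        have h3 := lam_shell (J₀ := Js z) z (A := 1) (κ := κ) (ε := s) (r := r₀ / 2) zero_le_one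
          hκ1 (by positivity) h (by linarith) w
        refine h3.trans (mul_le_mul_of_nonneg_right ?_ (norm_nonneg _))
        rw [one_mul, hN₀]
        refine mul_le_mul_of_nonneg_left ?_ (Real.rpow_nonneg (by positivity) _)
        exact mul_le_mul hLA hJz (norm_nonneg _) (by positivity)
      have hd1 : ∀ w : E d, |fderiv ℝ φ (p - z) w| ≤ M₀ * ‖w‖ := fun w =>
        ((fderiv ℝ φ (p - z)).le_opNorm w).trans
          (mul_le_mul_of_nonneg_right (hM _) (norm_nonneg _))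
      have hJv : ‖Js p v‖ ≤ K * ‖v‖ :=
        ((Js p).le_opNorm v).trans (mul_le_mul_of_nonneg_right hJp (norm_nonneg _))
      refine (abs_sub _ _).trans ?_
      rw [abs_mul, abs_mul]
      have t1 : |fderiv ℝ φ (p - z) v| * |lam (Js z) z 1 κ s p ![Js p v]| ≤
          M₀ * N₀ * K * ‖v‖ ^ 2 := by
        calc _ ≤ (M₀ * ‖v‖) * (N₀ * (K * ‖v‖)) := by
              refine mul_le_mul (hd1 v) ((hb _).trans ?_) (abs_nonneg _) (by positivity)
              exact mul_le_mul_of_nonneg_left hJv hN₀0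
          _ = _ := by ring
      have t2 : |fderiv ℝ φ (p - z) (Js p v)| * |lam (Js z) z 1 κ s p ![v]| ≤
          M₀ * N₀ * K * ‖v‖ ^ 2 := by
        calc _ ≤ (M₀ * (K * ‖v‖)) * (N₀ * ‖v‖) := by
              refine mul_le_mul ((hd1 _).trans ?_) (hb _) (abs_nonneg _) (by positivity)
              exact mul_le_mul_of_nonneg_left hJv hM0
          _ = _ := by ring
      linarith
  have hcut2 := neg_abs_le (fderiv ℝ φ (p - z) v * lam (Js z) z 1 κ s p ![Js p v] -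
      fderiv ℝ φ (p - z) (Js p v) * lam (Js z) z 1 κ s p ![v])
  have hmain : (if ‖p - z‖ ≤ s then κ * ((2 + K ^ 2) * s ^ 2) ^ (κ - 1) else 0) * ‖v‖ ^ 2 ≤
      φ (p - z) * extDeriv (lam (Js z) z 1 κ s) p ![v, Js p v] := by
    have hE : 0 ≤ extDeriv (lam (Js z) z 1 κ s) p ![v, Js p v] := by
      refine le_trans ?_ hpos
      positivity
    split_ifs with h
    · rw [h1 _ (h.trans hs2), one_mul]
      refine le_trans ?_ hpos
      rw [one_mul]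
      refine mul_le_mul_of_nonneg_right (mul_le_mul_of_nonneg_left ?_ hκ0.le) (sq_nonneg _)
      refine Real.rpow_le_rpow_of_nonpos (by positivity) ?_ (by linarith)
      have h5 : ‖p - z‖ ^ 2 ≤ s ^ 2 := pow_le_pow_left₀ (norm_nonneg _) h 2
      have h6 : LA (Js z) * ‖p - z‖ ^ 2 ≤ (1 + K ^ 2) * s ^ 2 :=
        mul_le_mul hLA h5 (sq_nonneg _) (by positivity)
      linarith
    · rw [zero_mul]
      exact mul_nonneg (hnn _) hE
  have e2 : 2 * M₀ * N₀ * K * ‖v‖ ^ 2 = (2 * M₀ * N₀ * K) * ‖v‖ ^ 2 := rfl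
  linarith

end Pool.Agent.V7H86.LP
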