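import Mathlib
import Pool.Agent.V7H86.LP.Tst

/-!
# The mass of the annihilating measures in small balls
-/

set_option autoImplicit false

open Set Filter Topology MeasureTheory
open scoped Manifold ContDiff

noncomputable section

namespace Pool.Agent.V7H86.LP

open Pool.Agent.Y501.SY
open Pool.Agent.Y515.SY (Al)
open Pool.Agent.V7H86.SG

variable {d : ℕ} {X : Type} [TopologicalSpace X] [ChartedSpace (E d) X]

/-- the points of the chart with number `i` with coordinates in `P` -/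
def reg {k : ℕ} (a : Atl d X k) (i : Fin k) (P : Set (E d)) : Set X :=
  {x | x ∈ (chartAt (E d) (a.c i)).source ∧ chartAt (E d) (a.c i) x ∈ P}

/-- the centre of the ball with number `i` -/
def cen {k : ℕ} (a : Atl d X k) (i : Fin k) : E d := chartAt (E d) (a.c i) (a.c i)

/-- `M` annihilates the exact forms -/
def Ann {J : End d X} {m : ℕ} {F : X → E m} (S : Sph J F) [MeasurableSpace S.Y]
    (M : Measure S.Y) : Prop :=
  ∀ (α : Form d X 1) (η : Form d X 2), IsSmooth α → IsSmooth η → IsD α η →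
    ∫ y, Qy S η y ∂M = 0

theorem closed_reg [T2Space X] {k : ℕ} (a : Atl d X k) (i : Fin k) {P : Set (E d)}
    (hP : IsCompact P) (hPt : P ⊆ (chartAt (E d) (a.c i)).target) : IsClosed (reg a i P) := by
  have h1 : reg a i P = (chartAt (E d) (a.c i)).symm '' P := by
    ext x
    constructor
    · rintro ⟨h1, h2⟩
      exact ⟨_, h2, (chartAt (E d) (a.c i)).left_inv h1⟩
    · rintro ⟨p, hp, rfl⟩
      exact ⟨(chartAt (E d) (a.c i)).map_target (hPt hp), by
        rw [(chartAt (E d) (a.c i)).right_inv (hPt hp)]; exact hp⟩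
  rw [h1]
  exact (hP.image_of_continuousOn
    ((chartAt (E d) (a.c i)).continuousOn_symm.mono hPt)).isClosed

variable [IsManifold (𝓡 d) ∞ X]

theorem mass_bound [T2Space X] {J : End d X} (hJ : IsAlmostComplex J) {m : ℕ} {F : X → E m}
    (hF : ContMDiff (𝓡 d) (𝓡 m) ∞ F)
    (hFi : ∀ x, Function.Injective (mfderiv (𝓡 d) (𝓡 m) F x)) (S : Sph J F) {k : ℕ}
    (a : Atl d X k) (i : Fin k) {κ : ℝ} (hκ0 : 0 < κ) (hκ1 : κ ≤ 1) :
    ∃ C s₀ : ℝ, 0 < C ∧ 0 < s₀ ∧ ∀ [MeasurableSpace S.Y] [BorelSpace S.Y] (M : Measure S.Y)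
      [IsProbabilityMeasure M], Ann S M → ∀ z ∈ Metric.closedBall (cen a i) (a.R i / 2),
      ∀ s : ℝ, 0 < s → s ≤ s₀ →
        M {y | S.x y ∈ reg a i (Metric.closedBall (cen a i) (a.R i / 2) ∩
          Metric.closedBall z s)} ≤ ENNReal.ofReal (C * s ^ (2 - 2 * κ)) := by
  classical
  have hR := a.Rpos i
  obtain ⟨N, hN⟩ : ∃ N, N = Metric.closedBall (cen a i) (a.R i) := ⟨_, rfl⟩
  have hNc : IsCompact N := by rw [hN]; exact isCompact_closedBall _ _
  have hNt : N ⊆ (chartAt (E d) (a.c i)).target := by rw [hN]; exact a.sub i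
  obtain ⟨js, hjs⟩ : ∃ js, js = inChart J (a.c i) := ⟨_, rfl⟩
  have hjc : ContinuousOn js N := by rw [hjs]; exact (hJ.cont (a.c i)).mono hNt
  obtain ⟨K₀, hK₀⟩ := hNc.exists_bound_of_continuousOn hjc
  obtain ⟨K, hK1, hK⟩ : ∃ K : ℝ, 1 ≤ K ∧ ∀ p ∈ N, ‖js p‖ ≤ K :=
    ⟨max K₀ 1, le_max_right _ _, fun p hp => (hK₀ p hp).trans (le_max_left _ _)⟩
  have hK0 : 0 < K := by linarith
  have huc := hNc.uniformContinuousOn_of_continuous hjc
  rw [Metric.uniformContinuousOn_iff] at huc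
  obtain ⟨r₁, hr₁, hr₁c⟩ := huc (κ / (6 * (1 + K ^ 2))) (by positivity)
  obtain ⟨r₀, hr₀, hr₀1, hr₀R, hr₀r⟩ : ∃ r₀ : ℝ, 0 < r₀ ∧ r₀ ≤ 1 ∧ r₀ ≤ a.R i / 4 ∧ r₀ < r₁ :=
    ⟨min (min 1 (a.R i / 4)) (r₁ / 2), by positivity,
      (min_le_left _ _).trans (min_le_left _ _), (min_le_left _ _).trans (min_le_right _ _),
      lt_of_le_of_lt (min_le_right _ _) (by linarith)⟩
  -- the bump function
  obtain ⟨χ, hχi, hχo⟩ : ∃ χ : ContDiffBump (0 : E d), χ.rIn = r₀ / 2 ∧ χ.rOut = r₀ :=
    ⟨⟨r₀ / 2, r₀, by positivity, by linarith⟩, rfl, rfl⟩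
  have hχs : ContDiff ℝ ∞ (χ : E d → ℝ) := χ.contDiff
  obtain ⟨M₀, hM₀⟩ := (hχs.continuous_fderiv (by simp)).bounded_above_of_compact_support
    (χ.hasCompactSupport.fderiv ℝ)
  have hM₀0 : 0 ≤ M₀ := (norm_nonneg _).trans (hM₀ 0)
  have hχ1 : ∀ w : E d, ‖w‖ ≤ r₀ / 2 → χ w = 1 := by
    intro w hw
    apply χ.one_of_mem_closedBall
    rw [Metric.mem_closedBall, dist_zero_right, hχi]
    exact hw
  have hχ0 : ∀ w : E d, r₀ ≤ ‖w‖ → χ w = 0 := by
    intro w hw
    apply χ.zero_of_le_dist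
    rw [dist_zero_right, hχo]
    exact hw
  obtain ⟨k₁, K₁, hk₁, hK₁, hnm⟩ := nm_chart hF hFi (a.c i) hNc hNt
  obtain ⟨W, hW⟩ : ∃ W : ℝ, W = (2 * M₀ * (((r₀ / 2) ^ 2) ^ (κ - 1) * ((1 + K ^ 2) * K)) * K) :=
    ⟨_, rfl⟩
  have hW0 : 0 ≤ W := by rw [hW]; positivity
  -- bounds for the vectors
  obtain ⟨lo, hlo⟩ : ∃ lo : ℝ, lo = S.lo / K₁ := ⟨_, rfl⟩
  obtain ⟨hi, hhi⟩ : ∃ hi : ℝ, hi = S.hi / k₁ := ⟨_, rfl⟩
  have hSlo := S.lo_pos
  have hShi := S.hi_pos
  have hlo0 : 0 < lo := by rw [hlo]; positivity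
  have hvec : ∀ y : S.Y, S.x y ∈ reg a i N → lo ≤ ‖vec (a.c i) (S.u y)‖ ∧
      ‖vec (a.c i) (S.u y)‖ ≤ hi := by
    intro y hy
    obtain ⟨h1, h2⟩ := hnm (S.x y) hy.1 hy.2 (S.u y)
    have h3 := S.lo_le y
    have h4 := S.le_hi y
    rw [hlo, hhi, div_le_iff₀ hK₁, le_div_iff₀ hk₁]
    constructor <;> linarith
  obtain ⟨c₁, hc₁⟩ : ∃ c₁ : ℝ, c₁ = κ * (2 + K ^ 2) ^ (κ - 1) * lo ^ 2 := ⟨_, rfl⟩
  have hc₁0 : 0 < c₁ := by rw [hc₁]; positivity
  refine ⟨W * hi ^ 2 / c₁ + 1, r₀ / 2, by positivity, by positivity, ?_⟩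
  intro _ _ M _ hM z hz s hs hs₀
  have hzN : z ∈ N := by
    rw [hN]
    exact Metric.closedBall_subset_closedBall (by linarith) hz
  have hzd : dist z (cen a i) ≤ a.R i / 2 := by rwa [Metric.mem_closedBall] at hz
  have hball : Metric.closedBall z r₀ ⊆ Metric.closedBall (cen a i) (3 * a.R i / 4) := by
    intro p hp
    rw [Metric.mem_closedBall] at hp ⊢
    have := dist_triangle p z (cen a i)
    linarith
  have hballN : Metric.closedBall z r₀ ⊆ N := by
    rw [hN]
    exact hball.trans (Metric.closedBall_subset_closedBall (by linarith))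
  have hJ0 : ∀ v, js z (js z v) = -v := by
    intro v
    rw [hjs]
    exact inChart_sq hJ (a.c i) (hNt hzN) v
  have hclose : ∀ p ∈ Metric.closedBall z r₀, 6 * LA (js z) * ‖js p - js z‖ ≤ κ := by
    intro p hp
    have h1 := (hr₁c p (hballN hp) z hzN (lt_of_le_of_lt (by rwa [Metric.mem_closedBall] at hp)
      hr₀r)).le
    rw [dist_eq_norm, le_div_iff₀ (by positivity)] at h1
    have h2 := LA_le (hK z hzN)
    have h3 := norm_nonneg (js p - js z)
    nlinarith
  -- the exact form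
  have hb := tst_contDiff (Js := js) hχs z κ hs
  have hb0 : ∀ p, p ∉ Metric.closedBall z r₀ → tst js χ z κ s p = 0 := by
    intro p hp
    rw [Metric.mem_closedBall, dist_eq_norm, not_le] at hp
    unfold tst
    rw [hχ0 _ hp.le, zero_smul]
  obtain ⟨β, η, hβ, hη, hβη, hη0, hηp⟩ := ext_form (X := X) (a.c i) (p₀ := cen a i)
    (R := a.R i) (r := 3 * a.R i / 4) (by linarith) (a.sub i)
    (b := tst js χ z κ s) hb.contDiffOn (fun p _ hp => hb0 p fun h => hp (hball h))
  have hint := hM β η hβ hη hβη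
  -- the lower bound
  obtain ⟨T, hT⟩ : ∃ T : Set S.Y, T = {y | S.x y ∈ reg a i (Metric.closedBall (cen a i)
    (a.R i / 2) ∩ Metric.closedBall z s)} := ⟨_, rfl⟩
  rw [← hT]
  have hTm : MeasurableSet T := by
    rw [hT]
    have h1 : IsClosed (reg a i (Metric.closedBall (cen a i) (a.R i / 2) ∩
        Metric.closedBall z s)) :=
      closed_reg a i ((isCompact_closedBall _ _).inter (isCompact_closedBall _ _))
        (inter_subset_left.trans ((Metric.closedBall_subset_closedBall (by linarith)).trans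
          (a.sub i)))
    exact (h1.preimage S.hx).measurableSet
  have hpt : ∀ y, T.indicator (fun _ => c₁ * s ^ (2 * κ - 2)) y - W * hi ^ 2 ≤ Qy S η y := by
    intro y
    by_cases hy : S.x y ∈ reg a i (Metric.closedBall z r₀)
    · obtain ⟨p, hp⟩ : ∃ p, p = chartAt (E d) (a.c i) (S.x y) := ⟨_, rfl⟩
      obtain ⟨v, hv⟩ : ∃ v, v = vec (a.c i) (S.u y) := ⟨_, rfl⟩
      have hyp : p ∈ Metric.closedBall z r₀ := by rw [hp]; exact hy.2
      have hpR : p ∈ Metric.ball (cen a i) (a.R i) := by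
        have h1 := hball hyp
        rw [Metric.mem_closedBall] at h1
        rw [Metric.mem_ball]
        linarith
      have e1 : Qy S η y = extDeriv (tst js χ z κ s) p ![v, js p v] := by
        unfold Qy
        rw [q_chart η J (a.c i) hy.1 (S.u y), ← hp, ← hv, hηp p hpR, hjs]
      have hvb := hvec y ⟨hy.1, hballN hy.2⟩
      rw [← hv] at hvb
      have hpz : ‖p - z‖ ≤ r₀ := by rwa [Metric.mem_closedBall, dist_eq_norm] at hyp
      have key := tst_low hχs hχ1 (fun w => χ.nonneg) hM₀0 hM₀ hκ0 hκ1 hr₀ hr₀1 hK1 hJ0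
        (hK z hzN) (hK p (hballN hyp)) (hclose p hyp) hpz hs hs₀ v
      rw [← hW] at key
      rw [e1]
      refine le_trans ?_ key
      have h5 : W * ‖v‖ ^ 2 ≤ W * hi ^ 2 :=
        mul_le_mul_of_nonneg_left (pow_le_pow_left₀ (norm_nonneg _) hvb.2 2) hW0
      have h6 : T.indicator (fun _ => c₁ * s ^ (2 * κ - 2)) y ≤
          (if ‖p - z‖ ≤ s then κ * ((2 + K ^ 2) * s ^ 2) ^ (κ - 1) else 0) * ‖v‖ ^ 2 := by
        by_cases hyT : y ∈ T
        · rw [indicator_of_mem hyT]
          have h7 : ‖p - z‖ ≤ s := by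
            rw [hT] at hyT
            have := hyT.2.2
            rwa [Metric.mem_closedBall, dist_eq_norm, ← hp] at this
          rw [if_pos h7, hc₁, Real.mul_rpow (by positivity) (by positivity)]
          have h8 : (s ^ 2) ^ (κ - 1) = s ^ (2 * κ - 2) := by
            rw [← Real.rpow_natCast, ← Real.rpow_mul hs.le]
            congr 1
            push_cast
            ring
          rw [h8]
          have h9 : lo ^ 2 ≤ ‖v‖ ^ 2 := pow_le_pow_left₀ hlo0.le hvb.1 2
          have h10 : 0 ≤ κ * (2 + K ^ 2) ^ (κ - 1) * s ^ (2 * κ - 2) := by positivity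
          have h11 := mul_le_mul_of_nonneg_left h9 h10
          calc κ * (2 + K ^ 2) ^ (κ - 1) * lo ^ 2 * s ^ (2 * κ - 2) =
              κ * (2 + K ^ 2) ^ (κ - 1) * s ^ (2 * κ - 2) * lo ^ 2 := by ring
            _ ≤ _ := h11
            _ = _ := by ring
        · rw [indicator_of_notMem hyT]
          split_ifs
          · positivity
          · rw [zero_mul]
      linarith
    · have hyT : y ∉ T := by
        intro h
        apply hy
        rw [hT] at h
        exact ⟨h.1, Metric.closedBall_subset_closedBall (by linarith) h.2.2⟩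
      rw [indicator_of_notMem hyT]
      have e1 : Qy S η y = 0 := by
        by_cases hsrc : S.x y ∈ reg a i (Metric.ball (cen a i) (a.R i))
        · obtain ⟨p, hp⟩ : ∃ p, p = chartAt (E d) (a.c i) (S.x y) := ⟨_, rfl⟩
          have hpz : p ∉ Metric.closedBall z r₀ := fun h => hy ⟨hsrc.1, by rw [← hp]; exact h⟩
          unfold Qy
          rw [q_chart η J (a.c i) hsrc.1 (S.u y), ← hp, hηp p (by rw [hp]; exact hsrc.2)]
          have h1 : tst js χ z κ s =ᶠ[𝓝 p] fun _ => 0 := by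
            filter_upwards [Metric.isClosed_closedBall.isOpen_compl.mem_nhds hpz] with q hq
            exact hb0 q hq
          rw [h1.extDeriv_eq]
          unfold extDeriv
          rw [fderiv_fun_const]
          exact congrFun (congrArg DFunLike.coe (map_zero
            (ContinuousAlternatingMap.alternatizeUncurryFinCLM ℝ (E d) ℝ))) _
        · have h1 : η (S.x y) = 0 := by
            apply hη0
            by_contra hcon
            rw [not_or, not_not, not_not] at hcon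
            apply hsrc
            refine ⟨hcon.1, Metric.closedBall_subset_ball (by linarith) hcon.2⟩
          unfold Qy
          rw [h1]
          rfl
      rw [e1]
      have : 0 ≤ W * hi ^ 2 := by positivity
      linarith
  -- integration
  have hcont : Continuous (fun y => Qy S η y) := S.cont η hη
  have hi1 : Integrable (fun y => Qy S η y) M :=
    (BoundedContinuousFunction.mkOfCompact ⟨_, hcont⟩).integrable M
  have hi2 : Integrable (T.indicator (fun _ : S.Y => c₁ * s ^ (2 * κ - 2))) M :=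
    (integrable_const _).indicator hTm
  have h3 := integral_mono (hi2.sub (integrable_const (W * hi ^ 2))) hi1 hpt
  have h4 : ∫ y, (T.indicator (fun _ : S.Y => c₁ * s ^ (2 * κ - 2)) y - W * hi ^ 2) ∂M =
      M.real T * (c₁ * s ^ (2 * κ - 2)) - W * hi ^ 2 := by
    have e1 := integral_sub hi2 (integrable_const (μ := M) (W * hi ^ 2))
    rw [integral_indicator_const _ hTm, integral_const, smul_eq_mul, smul_eq_mul,
      probReal_univ, one_mul] at e1
    exact e1
  have h5 : M.real T * (c₁ * s ^ (2 * κ - 2)) - W * hi ^ 2 ≤ 0 := by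
    rw [← h4]
    exact h3.trans hint.le
  have h6 : M.real T ≤ (W * hi ^ 2 / c₁ + 1) * s ^ (2 - 2 * κ) := by
    have e1 : s ^ (2 - 2 * κ) * s ^ (2 * κ - 2) = 1 := by
      rw [← Real.rpow_add hs]
      have : 2 - 2 * κ + (2 * κ - 2) = 0 := by ring
      rw [this, Real.rpow_zero]
    have hsp : 0 < s ^ (2 - 2 * κ) := Real.rpow_pos_of_pos hs _
    have h7 : M.real T * c₁ ≤ W * hi ^ 2 * s ^ (2 - 2 * κ) := by
      have h8 := mul_le_mul_of_nonneg_right (sub_nonpos.1 h5) hsp.le
      calc M.real T * c₁ = M.real T * c₁ * (s ^ (2 - 2 * κ) * s ^ (2 * κ - 2)) := by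
            rw [e1, mul_one]
        _ = M.real T * (c₁ * s ^ (2 * κ - 2)) * s ^ (2 - 2 * κ) := by ring
        _ ≤ _ := h8
    have h8 : M.real T ≤ W * hi ^ 2 / c₁ * s ^ (2 - 2 * κ) := by
      rw [div_mul_eq_mul_div, le_div_iff₀ hc₁0]
      exact h7
    linarith
  rw [← ofReal_measureReal]
  exact ENNReal.ofReal_le_ofReal h6

end Pool.Agent.V7H86.LP
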