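import Mathlib
import Pool.Agent.V7H86.LP.Lcl
import Pool.Agent.V7H86.LP.Mass

/-!
# The error in a chart
-/

set_option autoImplicit false

open Set Filter Topology MeasureTheory
open scoped Manifold ContDiff ENNReal

noncomputable section

namespace Pool.Agent.V7H86.LP

open Pool.Agent.Y501.SY
open Pool.Agent.Y515.SY (Al moll_cs moll_exists)
open Pool.Agent.V7H86.SG

variable {d : ℕ} {X : Type} [TopologicalSpace X] [ChartedSpace (E d) X]

/-- the oscillation of `J` in the chart at `c` -/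
def Osc (J : End d X) (c : X) (N : Set (E d)) (b : ℝ) : Prop :=
  ∀ η : ℝ, 0 < η → ∃ r : ℝ, 0 < r ∧ ∀ p ∈ N, ∀ q ∈ N, ‖p - q‖ ≤ r →
    ‖inChart J c p - inChart J c q‖ ≤ η * ‖p - q‖ ^ b

/-- the local hypotheses on `J` in the chart at `c` -/
structure LG (J : End d X) (c : X) (N : Set (E d)) (a b B c₁ : ℝ) : Prop where
  a2 : a < 2
  b0 : 0 ≤ b
  b1 : b < 1
  c0 : 0 < c₁
  B0 : 0 ≤ B
  osc : Osc J c N b

/-- the local hypotheses on the form in the chart at `c` -/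
structure LF (τ : Form d X 2) (J : End d X) (c : X) (N : Set (E d)) (a b B c₁ : ℝ)
    (f : E d → ℝ≥0∞) : Prop where
  mor : MorC d N (fun q => ‖pb (chartAt (E d) c).symm τ q‖ₑ) a b B
  fm : Measurable f
  pos : ∀ p ∈ N, ∀ v : E d, ENNReal.ofReal (c₁ * ‖v‖ ^ 2 -
    pb (chartAt (E d) c).symm τ p ![v, inChart J c p v]) ≤ f p * ENNReal.ofReal (‖v‖ ^ 2)

theorem indicator_cont {N : Set (E d)} (hN : MeasurableSet N) {g : E d → ℝ≥0∞}
    (hg : ContinuousOn g N) : Measurable (N.indicator g) := by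
  classical
  have h1 := hg.measurable_piecewise (g := fun _ => (0 : ℝ≥0∞)) continuousOn_const hN
  have h2 : N.piecewise g (fun _ => (0 : ℝ≥0∞)) = N.indicator g := piecewise_eq_indicator
  rwa [h2] at h1

variable [IsManifold (𝓡 d) ∞ X]

theorem chart_err [T2Space X] {J : End d X} (hJ : IsAlmostComplex J) {m : ℕ} {F : X → E m}
    (hF : ContMDiff (𝓡 d) (𝓡 m) ∞ F)
    (hFi : ∀ x, Function.Injective (mfderiv (𝓡 d) (𝓡 m) F x)) (S : Sph J F) {k : ℕ}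
    (a : Atl d X k) (i : Fin k) {a' b B c₁ : ℝ}
    (H : LG J (a.c i) (Metric.closedBall (cen a i) (a.R i)) a' b B c₁) {χ : X → ℝ}
    (hχs : ContMDiff (𝓡 d) 𝓘(ℝ, ℝ) ∞ χ) (hχ0 : ∀ x, 0 ≤ χ x) (hχ1 : ∀ x, χ x ≤ 1)
    (hχz : ∀ x, x ∉ reg a i (Metric.closedBall (cen a i) (a.R i / 2)) → χ x = 0) :
    ∃ c₀ : ℝ, 0 < c₀ ∧ ∀ η₀ : ℝ≥0∞, 0 < η₀ → ∃ Kf : ℝ≥0∞, Kf ≠ ⊤ ∧ ∀ τ : Form d X 2,
      IsSmooth τ → IsClosedForm τ → ∀ f : E d → ℝ≥0∞,
      LF τ J (a.c i) (Metric.closedBall (cen a i) (a.R i)) a' b B c₁ f →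
      ∃ (β : Form d X 1) (η : Form d X 2), IsSmooth β ∧ IsSmooth η ∧
        IsD β η ∧ ∀ [MeasurableSpace S.Y] [BorelSpace S.Y] (M : Measure S.Y)
          [IsProbabilityMeasure M], Ann S M →
          ∫⁻ y, ENNReal.ofReal (χ (S.x y) * c₀ - (χ (S.x y) * Qy S τ y + Qy S η y)) ∂M ≤
            η₀ + Kf * ∫⁻ q in Metric.closedBall (cen a i) (a.R i), f q := by
  classical
  have hR := a.Rpos i
  obtain ⟨R, hRd⟩ : ∃ R, R = a.R i := ⟨_, rfl⟩
  obtain ⟨p₀, hp₀⟩ : ∃ p₀, p₀ = cen a i := ⟨_, rfl⟩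
  have hNt : Metric.closedBall p₀ R ⊆ (chartAt (E d) (a.c i)).target := by
    rw [hp₀, hRd]
    exact a.sub i
  obtain ⟨C, s₀, hC, hs₀, hmass⟩ := mass_bound hJ hF hFi S a i (κ := min 1 ((2 - a') / 2))
    (lt_min one_pos (by have := H.a2; linarith)) (min_le_left _ _)
  rw [← hRd] at hR H hmass hχz ⊢
  rw [← hp₀] at H hmass hχz ⊢
  obtain ⟨N, hN⟩ : ∃ N, N = Metric.closedBall p₀ R := ⟨_, rfl⟩
  rw [← hN] at H hNt ⊢
  have hNc : IsCompact N := by rw [hN]; exact isCompact_closedBall _ _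
  have hNm : MeasurableSet N := hNc.isClosed.measurableSet
  have hbN : Metric.ball p₀ R ⊆ N := by rw [hN]; exact Metric.ball_subset_closedBall
  obtain ⟨e, he⟩ : ∃ e, e = chartAt (E d) (a.c i) := ⟨_, rfl⟩
  obtain ⟨js, hjs⟩ : ∃ js, js = inChart J (a.c i) := ⟨_, rfl⟩
  have hjc : ContinuousOn js N := by rw [hjs]; exact (hJ.cont (a.c i)).mono hNt
  obtain ⟨K, hK⟩ := hNc.exists_bound_of_continuousOn hjc
  have hsymm : ContMDiffOn (𝓡 d) (𝓡 d) ∞ e.symm e.target := by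
    rw [he]
    exact contMDiffOn_chart_symm
  rw [← he] at hNt
  -- the cut-off function in the chart
  obtain ⟨χh, hχh⟩ : ∃ χh : E d → ℝ, χh = fun p => χ (e.symm p) := ⟨_, rfl⟩
  have hχhs : ContDiffOn ℝ ∞ χh e.target := by
    rw [← contMDiffOn_iff_contDiffOn, hχh]
    exact hχs.comp_contMDiffOn hsymm
  have hfc : ContinuousOn (fderiv ℝ χh) N :=
    ((hχhs.continuousOn_fderiv_of_isOpen e.open_target (by simp))).mono hNt
  obtain ⟨Mχ, hMχ⟩ := hNc.exists_bound_of_continuousOn hfc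
  -- the mollifier
  obtain ⟨ρ, hρ⟩ := moll_exists (d := d) one_pos
  obtain ⟨Sρ, hSρ⟩ := hρ.smooth.continuous.bounded_above_of_compact_support (moll_cs hρ)
  have hS0 : 0 ≤ Sρ := (norm_nonneg _).trans (hSρ 0)
  have hp₀N : p₀ ∈ N := by rw [hN]; exact Metric.mem_closedBall_self hR.le
  have hK0 : 0 ≤ K := (norm_nonneg _).trans (hK p₀ hp₀N)
  have hM0 : 0 ≤ Mχ := (norm_nonneg _).trans (hMχ p₀ hp₀N)
  -- the vectors
  obtain ⟨k₁, K₁, hk₁, hK₁, hnm⟩ := nm_chart hF hFi (a.c i) hNc (by rw [← he]; exact hNt)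
  obtain ⟨lo, hlo⟩ : ∃ lo : ℝ, lo = S.lo / K₁ := ⟨_, rfl⟩
  obtain ⟨hi, hhi⟩ : ∃ hi : ℝ, hi = S.hi / k₁ := ⟨_, rfl⟩
  have hSlo := S.lo_pos
  have hShi := S.hi_pos
  have hlo0 : 0 < lo := by rw [hlo]; positivity
  have hvec : ∀ y : S.Y, S.x y ∈ reg a i N → lo ≤ ‖vec (a.c i) (S.u y)‖ ∧
      ‖vec (a.c i) (S.u y)‖ ≤ hi := by
    intro y hy
    obtain ⟨h1, h2⟩ := hnm (S.x y) hy.1 hy.2 (S.u y)
    have h3 := S.lo_le y
    have h4 := S.le_hi y
    constructor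
    · rw [hlo, div_le_iff₀ hK₁, mul_comm]
      exact h3.trans h2
    · rw [hhi, le_div_iff₀ hk₁, mul_comm]
      exact h1.trans h4
  obtain ⟨Λ, hΛ⟩ : ∃ Λ : ℝ, Λ = C * 2 ^ (2 - 2 * min 1 ((2 - a') / 2)) + 1 + (s₀ / 2) ^ (-a') :=
    ⟨_, rfl⟩
  have hΛ0 : 0 < Λ := by rw [hΛ]; positivity
  have hB0 := H.B0
  have hc0 := H.c0
  refine ⟨c₁ * lo ^ 2, by positivity, fun η₀ hη₀ => ?_⟩
  obtain ⟨δ, ε₀, hδ, hε₀, hErr⟩ := Err_small (V := hi ^ 2) (S := Sρ) (A := Λ * B)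
    (W := 2 * Mχ * K * hi ^ 2) (b := b) (by positivity) H.b1 hη₀
  obtain ⟨r₁, hr₁, hosc⟩ := H.osc δ hδ
  obtain ⟨ε, hε0, hε1, hεR, hεε, hεr⟩ : ∃ ε : ℝ, 0 < ε ∧ ε ≤ 1 ∧ ε < R / 4 ∧ ε ≤ ε₀ ∧ ε ≤ r₁ :=
    ⟨min (min 1 (R / 8)) (min ε₀ r₁), by positivity, (min_le_left _ _).trans (min_le_left _ _),
      lt_of_le_of_lt ((min_le_left _ _).trans (min_le_right _ _)) (by linarith),
      (min_le_right _ _).trans (min_le_left _ _), (min_le_right _ _).trans (min_le_right _ _)⟩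
  obtain ⟨w, hw⟩ : ∃ w : ℝ, w = δ * ε ^ b := ⟨_, rfl⟩
  have hw0 : 0 ≤ w := by rw [hw]; positivity
  have hErr' := hErr ε hε0 hεε w hw0 hw.le
  refine ⟨ENNReal.ofReal (hi ^ 2 * (Sρ * (ε ^ d)⁻¹)), ENNReal.ofReal_ne_top, ?_⟩
  intro τ hτs hτc f HF
  -- the form in the chart
  obtain ⟨s, hs⟩ : ∃ s : E d → Al d 2, s = pb e.symm τ := ⟨_, rfl⟩
  have hss : ContDiffOn ℝ ∞ s e.target := by
    rw [hs]
    exact hτs _ _ e.open_target hsymm
  have hsc : ∀ p ∈ e.target, extDeriv s p = 0 := by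
    intro p hp
    rw [hs]
    refine (hτc _ _ e.open_target hsymm p hp).trans ?_
    rw [pb_zero]
    rfl
  obtain ⟨Bd, hBd⟩ := hNc.exists_bound_of_continuousOn (hss.continuousOn.mono hNt)
  obtain ⟨h, hh⟩ : ∃ h : E d → ℝ≥0∞, h = N.indicator (fun q => ‖s q‖ₑ) := ⟨_, rfl⟩
  obtain ⟨g, hg⟩ : ∃ g : E d → ℝ≥0∞, g = N.indicator f := ⟨_, rfl⟩
  have hhm : Measurable h := by
    rw [hh]
    exact indicator_cont hNm (hss.continuousOn.mono hNt).enorm
  have hgm : Measurable g := by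
    rw [hg]
    exact HF.fm.indicator hNm
  have hbt : Metric.ball p₀ R ⊆ e.target := hbN.trans hNt
  have hχhz : ∀ p ∈ Metric.ball p₀ R, p ∉ Metric.closedBall p₀ (R / 2) → χh p = 0 := by
    intro p hp hp2
    rw [hχh]
    refine hχz _ fun h1 => hp2 ?_
    have h2 := h1.2
    rw [← he, e.right_inv (hbt hp)] at h2
    exact h2
  obtain ⟨bb, hb1, hb2, hb3⟩ := loc_pt hρ hSρ hε0 hεR (hss.mono hbt)
    (fun p hp => hsc p (hbt hp)) (fun p hp => hBd p (hbN hp)) (fun p hp => hK p (hbN hp)) hw0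
    (fun p hp q hq hpq => by
      rw [hjs, hw]
      refine (hosc p (hbN hp) q (hbN hq) (hpq.trans hεr)).trans
        (mul_le_mul_of_nonneg_left ?_ hδ.le)
      exact Real.rpow_le_rpow (norm_nonneg _) hpq H.b0) (hχhs.mono hbt)
    (fun p _ => by rw [hχh]; exact hχ0 _) (fun p _ => by rw [hχh]; exact hχ1 _)
    (fun p hp => hMχ p (hbN (Metric.ball_subset_ball (by linarith) hp))) hχhz hgm hhm
    (fun q hq => by rw [hh, indicator_of_mem (hbN hq)])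
    (c := c₁) (fun q hq v => by
      rw [hg, indicator_of_mem (hbN hq), hs, hjs, he]
      exact HF.pos q (hbN hq) v)
  obtain ⟨β, η, hβs, hηs, hβη, hη0, hηb⟩ := ext_form (a.c i) (p₀ := p₀) (R := R) (r := R / 2)
    (by linarith) (by rw [← hN, ← he]; exact hNt) hb1 hb2
  refine ⟨β, η, hβs, hηs, hβη, ?_⟩
  intro _ _ M _ hM
  -- the region
  obtain ⟨D, hD⟩ : ∃ D, D = Metric.closedBall p₀ (R / 2) := ⟨_, rfl⟩
  have hDN : D ⊆ N := by
    rw [hD, hN]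
    exact Metric.closedBall_subset_closedBall (by linarith)
  have hDc : IsCompact D := by rw [hD]; exact isCompact_closedBall _ _
  obtain ⟨Si, hSi⟩ : ∃ Si : Set S.Y, Si = {y | S.x y ∈ reg a i D} := ⟨_, rfl⟩
  have hSic : IsClosed Si := by
    rw [hSi]
    exact (closed_reg a i hDc (by rw [← he]; exact hDN.trans hNt)).preimage S.hx
  have hSim : MeasurableSet Si := hSic.measurableSet
  have hmemSi : ∀ y, y ∈ Si ↔ S.x y ∈ reg a i D := by
    intro y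
    rw [hSi]
    rfl
  have hpc : ContinuousOn (fun y => e (S.x y)) Si := by
    refine e.continuousOn.comp S.hx.continuousOn fun y hy => ?_
    have := ((hmemSi y).1 hy).1
    rwa [← he] at this
  have hpm : AEMeasurable (fun y => e (S.x y)) (M.restrict Si) := hpc.aemeasurable hSim
  obtain ⟨mm, hmm⟩ : ∃ mm : Measure (E d), mm = (M.restrict Si).map (fun y => e (S.x y)) :=
    ⟨_, rfl⟩
  have hmap : ∀ A : Set (E d), MeasurableSet A → mm A = M {y | S.x y ∈ reg a i (D ∩ A)} := by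
    intro A hA
    rw [hmm, Measure.map_apply_of_aemeasurable hpm hA, Measure.restrict_apply' hSim]
    congr 1
    ext y
    simp only [mem_inter_iff, mem_preimage, mem_ofPred_eq, hmemSi, reg]
    rw [← he]
    tauto
  have hmu : mm univ ≤ 1 := by
    rw [hmap _ MeasurableSet.univ]
    exact prob_le_one
  have hmfin : IsFiniteMeasure mm := ⟨lt_of_le_of_lt hmu ENNReal.one_lt_top⟩
  have hmD : mm Dᶜ = 0 := by
    rw [hmap _ hDc.isClosed.measurableSet.compl, inter_compl_self]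
    have : {y | S.x y ∈ reg a i (∅ : Set (E d))} = ∅ := by
      ext y
      simp [reg]
    rw [this, measure_empty]
  have hball : ∀ z ∈ D, ∀ s' : ℝ, 0 < s' → s' ≤ s₀ → mm (D ∩ Metric.closedBall z s') ≤
      ENNReal.ofReal (C * s' ^ (2 - 2 * min 1 ((2 - a') / 2))) := by
    intro z hz s' hs' hs's
    rw [hmap _ (hDc.isClosed.measurableSet.inter Metric.isClosed_closedBall.measurableSet),
      ← inter_assoc, inter_self]
    have h1 := hmass M hM z (by rw [← hD]; exact hz) s' hs' hs's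
    rw [← hD] at h1
    exact h1
  have hmor : ∀ r : ℝ, 0 < r → r ≤ 1 → ∫⁻ p, Av r h p ∂mm ≤
      ENNReal.ofReal (Λ * B * r ^ ((d : ℝ) - b)) := by
    intro r hr hr1
    rw [hh]
    refine mor_scale hmu hNm hDN hmD (h := fun q => ‖s q‖ₑ) ?_ hC hs₀ ?_ hball hΛ r hr hr1
    · rw [hs, he]
      exact HF.mor
    · have := min_le_right 1 ((2 - a') / 2)
      linarith
  have hint := int_err hmu hgm hhm (V := hi ^ 2) (S := Sρ) (A := Λ * B)
    (W := 2 * Mχ * K * hi ^ 2) (w := w) (b := b) (by positivity) hS0 hw0 (by positivity)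
    (by positivity) hmor hε0 hε1
  have hgint : ∫⁻ q, g q = ∫⁻ q in N, f q := by
    rw [hg, lintegral_indicator hNm]
  rw [hgint] at hint
  refine le_trans ?_ (hint.trans (add_le_add hErr' (le_refl _)))
  have hEm : Measurable (Ept (hi ^ 2) (2 * Mχ * K * hi ^ 2) Sρ w g h ε) :=
    Ept_measurable hgm hhm
  have hL1 : ∫⁻ p, Ept (hi ^ 2) (2 * Mχ * K * hi ^ 2) Sρ w g h ε p ∂mm =
      ∫⁻ y in Si, Ept (hi ^ 2) (2 * Mχ * K * hi ^ 2) Sρ w g h ε (e (S.x y)) ∂M := by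
    rw [hmm, lintegral_map' hEm.aemeasurable hpm]
  change _ ≤ ∫⁻ p, Ept (hi ^ 2) (2 * Mχ * K * hi ^ 2) Sρ w g h ε p ∂mm
  rw [hL1, ← lintegral_indicator hSim]
  refine lintegral_mono fun y => ?_
  by_cases hy : y ∈ Si
  · rw [indicator_of_mem hy]
    have hyr := (hmemSi y).1 hy
    have hys : S.x y ∈ (chartAt (E d) (a.c i)).source := hyr.1
    have hyN : S.x y ∈ reg a i N := ⟨hyr.1, hDN hyr.2⟩
    obtain ⟨hv1, hv2⟩ := hvec y hyN
    obtain ⟨v, hv⟩ : ∃ v, v = vec (a.c i) (S.u y) := ⟨_, rfl⟩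
    obtain ⟨p, hp⟩ : ∃ p, p = e (S.x y) := ⟨_, rfl⟩
    have hpD : p ∈ D := by
      rw [hp, he]
      exact hyr.2
    have hpb : p ∈ Metric.ball p₀ (3 * R / 4) := by
      rw [hD, Metric.mem_closedBall] at hpD
      rw [Metric.mem_ball]
      linarith
    have hpR : p ∈ Metric.ball p₀ R := Metric.ball_subset_ball (by linarith) hpb
    rw [← hv] at hv1 hv2
    have q1 : Qy S τ y = s p ![v, js p v] := by
      unfold Qy
      rw [q_chart τ J (a.c i) hys (S.u y), ← hv, ← he, ← hp, ← hs, ← hjs]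
    have q2 : Qy S η y = extDeriv bb p ![v, js p v] := by
      unfold Qy
      rw [q_chart η J (a.c i) hys (S.u y), ← hv, ← he, ← hp, ← hjs, he, hηb p hpR]
    have q3 : χ (S.x y) = χh p := by
      rw [hχh, hp]
      dsimp only
      rw [e.left_inv (by rw [he]; exact hys)]
    rw [q1, q2, q3, ← hp]
    have hχ0' : 0 ≤ χh p := by rw [hχh]; exact hχ0 _
    have hn0 := norm_nonneg v
    have hsq1 : lo ^ 2 ≤ ‖v‖ ^ 2 := pow_le_pow_left₀ hlo0.le hv1 2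
    have hsq2 : ‖v‖ ^ 2 ≤ hi ^ 2 := pow_le_pow_left₀ hn0 hv2 2
    refine (ENNReal.ofReal_le_ofReal ?_).trans ((hb3 p hpb v).trans (Ept_mono hsq2 ?_))
    · have h5 : c₁ * lo ^ 2 ≤ c₁ * ‖v‖ ^ 2 := mul_le_mul_of_nonneg_left hsq1 hc0.le
      have h6 := mul_le_mul_of_nonneg_left h5 hχ0'
      linarith
    · exact mul_le_mul_of_nonneg_left hsq2 (by positivity)
  · rw [indicator_of_notMem hy]
    have h1 : S.x y ∉ reg a i D := fun h2 => hy ((hmemSi y).2 h2)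
    have h2 : χ (S.x y) = 0 := hχz _ (by rw [← hD]; exact h1)
    have h3 : η (S.x y) = 0 := by
      refine hη0 _ ?_
      by_contra hcon
      push Not at hcon
      exact h1 ⟨hcon.1, by rw [hD]; exact hcon.2⟩
    have h4 : Qy S η y = 0 := by
      unfold Qy
      rw [h3]
      rfl
    rw [h2, h4]
    simp

end Pool.Agent.V7H86.LP
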