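import Mathlib

/-!
# Separation: a probability measure annihilating a subspace of `C(Y, ℝ)`
-/

set_option autoImplicit false

open Set Filter Topology MeasureTheory
open scoped CompactlySupported

noncomputable section

namespace Pool.Agent.V7H86.LP

variable {Y : Type} [TopologicalSpace Y] [CompactSpace Y] [T2Space Y] [MeasurableSpace Y]
  [BorelSpace Y]

/-- the strictly positive functions -/
def PosF (Y : Type) [TopologicalSpace Y] : Set C(Y, ℝ) := {f | ∀ y, 0 < f y}

omit [T2Space Y] [MeasurableSpace Y] [BorelSpace Y] in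
theorem posF_open : IsOpen (PosF Y) := by
  rcases isEmpty_or_nonempty Y with hY | hY
  · have : PosF Y = univ := by
      ext f
      simp only [PosF, mem_univ, iff_true]
      exact fun y => (IsEmpty.false y).elim
    rw [this]
    exact isOpen_univ
  rw [Metric.isOpen_iff]
  intro f hf
  obtain ⟨y₀, -, hy₀⟩ := isCompact_univ.exists_isMinOn (univ_nonempty (α := Y))
    f.continuous.continuousOn
  refine ⟨f y₀, hf y₀, fun g hg y => ?_⟩
  rw [Metric.mem_ball] at hg
  have h1 := ContinuousMap.dist_apply_le_dist (f := g) (g := f) y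
  rw [Real.dist_eq] at h1
  have h2 : f y₀ ≤ f y := hy₀ (mem_univ y)
  have h3 := (abs_lt.1 (lt_of_le_of_lt h1 hg)).1
  linarith

omit [CompactSpace Y] [T2Space Y] [MeasurableSpace Y] [BorelSpace Y] in
theorem posF_convex : Convex ℝ (PosF Y) := by
  intro f hf g hg a b ha hb hab y
  change 0 < a * f y + b * g y
  have h1 := hf y
  have h2 := hg y
  rcases ha.eq_or_lt with h | h
  · have : b = 1 := by linarith
    rw [← h, this]
    linarith
  · nlinarith [mul_nonneg hb h2.le, mul_pos h h1]

/-- If no function of the affine space `q + V₀` is positive, then there is a probability measure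
annihilating `V₀` for which the mean of `q` is not positive. -/
theorem separation [Nonempty Y] (V₀ : Submodule ℝ C(Y, ℝ)) (q : C(Y, ℝ))
    (h : ∀ v ∈ V₀, ∃ y, (q + v) y ≤ 0) :
    ∃ M : Measure Y, IsProbabilityMeasure M ∧ (∀ v ∈ V₀, ∫ y, v y ∂M = 0) ∧
      ∫ y, q y ∂M ≤ 0 := by
  obtain ⟨A, hA⟩ : ∃ A : Set C(Y, ℝ), A = {f | ∃ v ∈ V₀, f = q + v} := ⟨_, rfl⟩
  have hAc : Convex ℝ A := by
    rw [hA]
    rintro _ ⟨v, hv, rfl⟩ _ ⟨w, hw, rfl⟩ a b ha hb hab
    refine ⟨a • v + b • w, V₀.add_mem (V₀.smul_mem a hv) (V₀.smul_mem b hw), ?_⟩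
    have : a • (q + v) + b • (q + w) = (a + b) • q + (a • v + b • w) := by
      module
    rw [this, hab, one_smul]
  have hdisj : Disjoint (PosF Y) A := by
    rw [Set.disjoint_left]
    intro f hf hfA
    rw [hA] at hfA
    obtain ⟨v, hv, rfl⟩ := hfA
    obtain ⟨y, hy⟩ := h v hv
    exact absurd (hf y) (not_lt.2 hy)
  obtain ⟨ℓ, t, h1, h2⟩ := geometric_hahn_banach_open posF_convex posF_open hAc hdisj
  -- the constant function
  have hone : (1 : C(Y, ℝ)) ∈ PosF Y := fun y => by simp
  have hcone : ∀ f ∈ PosF Y, ∀ c : ℝ, 0 < c → c • f ∈ PosF Y := fun f hf c hc y =>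
    mul_pos hc (hf y)
  have hq : q ∈ A := by
    rw [hA]
    exact ⟨0, V₀.zero_mem, by rw [add_zero]⟩
  have ht0 : 0 ≤ t := by
    by_contra hcon
    rw [not_le] at hcon
    have h3 : ∀ c : ℝ, 0 < c → c * ℓ 1 < t := by
      intro c hc
      have := h1 _ (hcone 1 hone c hc)
      rwa [map_smul, smul_eq_mul] at this
    have h4 : ℓ 1 < 0 := by
      have := h3 1 one_pos
      linarith
    have h5 := h3 (t / (2 * ℓ 1)) (div_pos_of_neg_of_neg hcon (by linarith))
    have h40 : ℓ 1 ≠ 0 := h4.ne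
    have h6 : t / (2 * ℓ 1) * ℓ 1 = t / 2 := by
      field_simp
    rw [h6] at h5
    linarith
  have hneg : ∀ f ∈ PosF Y, ℓ f ≤ 0 := by
    intro f hf
    by_contra hcon
    rw [not_le] at hcon
    have h3 := h1 _ (hcone f hf ((t + 1) / ℓ f) (by positivity))
    rw [map_smul, smul_eq_mul, div_mul_cancel₀ _ hcon.ne'] at h3
    linarith
  have hnonpos : ∀ f : C(Y, ℝ), (∀ y, 0 ≤ f y) → ℓ f ≤ 0 := by
    intro f hf
    have h3 : ∀ n : ℕ, ℓ f + ((n : ℝ) + 1)⁻¹ * ℓ 1 ≤ 0 := by
      intro n
      have h4 : f + ((n : ℝ) + 1)⁻¹ • (1 : C(Y, ℝ)) ∈ PosF Y := by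
        intro y
        change 0 < f y + ((n : ℝ) + 1)⁻¹ * 1
        have := hf y
        positivity
      have h5 := hneg _ h4
      rwa [map_add, map_smul, smul_eq_mul] at h5
    have h6 : Tendsto (fun n : ℕ => ℓ f + ((n : ℝ) + 1)⁻¹ * ℓ 1) atTop (𝓝 (ℓ f + 0 * ℓ 1)) := by
      refine tendsto_const_nhds.add (Tendsto.mul_const _ ?_)
      exact tendsto_one_div_add_atTop_nhds_zero_nat.congr fun n => by rw [one_div]
    rw [zero_mul, add_zero] at h6
    exact le_of_tendsto h6 (Eventually.of_forall h3)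
  have hV : ∀ v ∈ V₀, ℓ v = 0 := by
    intro v hv
    have h3 : ∀ c : ℝ, t ≤ ℓ q + c * ℓ v := by
      intro c
      have h4 : q + c • v ∈ A := by
        rw [hA]
        exact ⟨c • v, V₀.smul_mem c hv, rfl⟩
      have h5 := h2 _ h4
      rwa [map_add, map_smul, smul_eq_mul] at h5
    by_contra hne
    have h4 := h3 ((t - 1 - ℓ q) / ℓ v)
    rw [div_mul_cancel₀ _ hne] at h4
    linarith
  have hqt : 0 ≤ ℓ q := ht0.trans (h2 q hq)
  have h1neg : ℓ 1 < 0 := by
    rcases (hneg 1 hone).lt_or_eq with h3 | h3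
    · exact h3
    · exfalso
      have h4 := h1 1 hone
      rw [h3] at h4
      have h5 := h2 q hq
      -- `ℓ` vanishes identically
      have h6 : ℓ q ≤ 0 := by
        have h7 := hnonpos (q + (‖q‖ : ℝ) • (1 : C(Y, ℝ))) (fun y => by
          change 0 ≤ q y + ‖q‖ * 1
          have := (abs_le.1 (q.norm_coe_le_norm y)).1
          linarith)
        rw [map_add, map_smul, smul_eq_mul, h3, mul_zero, add_zero] at h7
        exact h7
      linarith
  -- the positive functional
  obtain ⟨c, hc⟩ : ∃ c : ℝ, c = -(ℓ 1)⁻¹ := ⟨_, rfl⟩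
  have hc0 : 0 < c := by
    rw [hc]
    have := inv_lt_zero.2 h1neg
    linarith
  let Λ : C_c(Y, ℝ) →ₚ[ℝ] ℝ :=
    { toFun := fun f => -(c * ℓ f.toContinuousMap)
      map_add' := fun f g => by
        have : (f + g).toContinuousMap = f.toContinuousMap + g.toContinuousMap := rfl
        rw [this, map_add]
        ring
      map_smul' := fun a f => by
        have : (a • f).toContinuousMap = a • f.toContinuousMap := rfl
        rw [this, map_smul]
        simp only [smul_eq_mul, RingHom.id_apply]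
        ring
      monotone' := fun f g hfg => by
        have h3 : ℓ (g.toContinuousMap - f.toContinuousMap) ≤ 0 :=
          hnonpos _ (fun y => by
            change 0 ≤ g y - f y
            have := hfg y
            linarith)
        rw [map_sub] at h3
        change -(c * ℓ f.toContinuousMap) ≤ -(c * ℓ g.toContinuousMap)
        have h4 := mul_le_mul_of_nonneg_left h3 hc0.le
        rw [mul_zero] at h4
        linarith }
  have hΛ : ∀ f : C(Y, ℝ), ∫ y, f y ∂(RealRMK.rieszMeasure Λ) = -(c * ℓ f) := by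
    intro f
    have h3 := RealRMK.integral_rieszMeasure Λ ⟨f, HasCompactSupport.of_compactSpace _⟩
    exact h3
  have hfin : IsFiniteMeasure (RealRMK.rieszMeasure Λ) := inferInstance
  have hone' : ∫ _y : Y, (1 : ℝ) ∂(RealRMK.rieszMeasure Λ) = 1 := by
    have h3 := hΛ 1
    have h4 : -(c * ℓ 1) = 1 := by
      rw [hc, neg_mul, neg_neg, inv_mul_cancel₀ h1neg.ne]
    rw [h4] at h3
    exact h3
  refine ⟨RealRMK.rieszMeasure Λ, ⟨?_⟩, fun v hv => ?_, ?_⟩
  · rw [integral_const, smul_eq_mul, mul_one] at hone'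
    rw [Measure.real, ENNReal.toReal_eq_one_iff] at hone'
    exact hone'
  · rw [hΛ, hV v hv]
    simp
  · rw [hΛ]
    have := mul_nonneg hc0.le hqt
    linarith

end Pool.Agent.V7H86.LP
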