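import Mathlib
import Pool.Agent.V7H86.LP.Chr
import Pool.Agent.V7H86.LP.Sep

/-!
# Almost taming sequences
-/

set_option autoImplicit false

open Set Filter Topology MeasureTheory
open scoped Manifold ContDiff ENNReal

noncomputable section

namespace Pool.Agent.V7H86.LP

open Pool.Agent.Y501.SY
open Pool.Agent.Y515.SY (Al)
open Pool.Agent.V7H86.SG

variable {d : ℕ}

theorem MorC.mono {N N' : Set (E d)} (h : N' ⊆ N) {g : E d → ℝ≥0∞} {a b B : ℝ}
    (H : MorC d N g a b B) : MorC d N' g a b B := by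
  intro m hm r hr hr1
  refine le_trans ?_ (H m hm r hr hr1)
  refine (lintegral_mono fun p => ?_).trans (lintegral_mono_set h)
  exact lintegral_mono_set (inter_subset_inter_left _ h)

variable {X : Type} [TopologicalSpace X] [ChartedSpace (E d) X]

theorem Osc.mono {J : End d X} {c : X} {N N' : Set (E d)} (h : N' ⊆ N) {b : ℝ}
    (H : Osc J c N b) : Osc J c N' b := by
  intro η hη
  obtain ⟨r, hr, h1⟩ := H η hη
  exact ⟨r, hr, fun p hp q hq => h1 p (h hp) q (h hq)⟩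

theorem LG.mono {J : End d X} {c : X} {N N' : Set (E d)} (h : N' ⊆ N)
    {a b B c₁ : ℝ} (H : LG J c N a b B c₁) : LG J c N' a b B c₁ :=
  ⟨H.a2, H.b0, H.b1, H.c0, H.B0, H.osc.mono h⟩

theorem LF.mono {τ : Form d X 2} {J : End d X} {c : X} {N N' : Set (E d)} (h : N' ⊆ N)
    {a b B c₁ : ℝ} {f : E d → ℝ≥0∞} (H : LF τ J c N a b B c₁ f) : LF τ J c N' a b B c₁ f :=
  ⟨H.mor.mono h, H.fm, fun p hp => H.pos p (h hp)⟩

/-- a finite atlas by balls contained in given neighbourhoods -/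
theorem exists_atl [CompactSpace X] {N : X → Set (E d)} (H : ∀ x, N x ∈ 𝓝 (chartAt (E d) x x)) :
    ∃ R : X → ℝ, (∀ x, 0 < R x ∧ R x ≤ 1 ∧ Metric.closedBall (chartAt (E d) x x) (R x) ⊆ N x ∧
      Metric.closedBall (chartAt (E d) x x) (R x) ⊆ (chartAt (E d) x).target) ∧
    ∃ (t : Finset X) (k : ℕ) (a : Atl d X k), ∀ i, a.c i ∈ t ∧ a.R i = R (a.c i) := by
  have h1 : ∀ x : X, ∃ R : ℝ, 0 < R ∧ R ≤ 1 ∧ Metric.closedBall (chartAt (E d) x x) R ⊆ N x ∧
      Metric.closedBall (chartAt (E d) x x) R ⊆ (chartAt (E d) x).target := by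
    intro x
    have h3 : N x ∩ (chartAt (E d) x).target ∈ 𝓝 (chartAt (E d) x x) :=
      inter_mem (H x) ((chartAt (E d) x).open_target.mem_nhds
        ((chartAt (E d) x).map_source (mem_chart_source (E d) x)))
    obtain ⟨R, hR, hR2⟩ := Metric.nhds_basis_closedBall.mem_iff.1 h3
    have h4 : Metric.closedBall (chartAt (E d) x x) (min R 1) ⊆ N x ∩ (chartAt (E d) x).target :=
      (Metric.closedBall_subset_closedBall (min_le_left _ _)).trans hR2
    exact ⟨min R 1, lt_min hR one_pos, min_le_right _ _, h4.trans inter_subset_left,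
      h4.trans inter_subset_right⟩
  choose R hR0 hR1 hRH hRt using h1
  have h2 : ∀ x : X, (chartAt (E d) x).source ∩ chartAt (E d) x ⁻¹'
      Metric.ball (chartAt (E d) x x) (R x / 2) ∈ 𝓝 x := by
    intro x
    exact ((chartAt (E d) x).isOpen_inter_preimage Metric.isOpen_ball).mem_nhds
      ⟨mem_chart_source (E d) x, Metric.mem_ball_self (by have := hR0 x; linarith)⟩
  obtain ⟨t, ht⟩ := isCompact_univ.elim_nhds_subcover _ fun x _ => h2 x
  obtain ⟨-, ht⟩ := ht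
  refine ⟨R, fun x => ⟨hR0 x, hR1 x, hRH x, hRt x⟩, t, t.card,
    ⟨fun i => (t.equivFin.symm i : X), fun i => R (t.equivFin.symm i : X),
    fun i => hR0 _, fun i => hRt _, ?_⟩, fun i => ⟨(t.equivFin.symm i).2, rfl⟩⟩
  intro x
  obtain ⟨z, hz, hxz⟩ := mem_iUnion₂.1 (ht (mem_univ x))
  refine ⟨t.equivFin ⟨z, hz⟩, ?_⟩
  rw [Equiv.symm_apply_apply]
  exact hxz

variable [IsManifold (𝓡 d) ∞ X]

/-- the exact forms as functions -/
def Vex {J : End d X} {m : ℕ} {F : X → E m} (S : Sph J F) : Submodule ℝ C(S.Y, ℝ) where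
  carrier := {v | ∃ (α : Form d X 1) (η : Form d X 2), IsSmooth α ∧ IsSmooth η ∧ IsD α η ∧
    ∀ y, v y = Qy S η y}
  add_mem' := by
    rintro v w ⟨α, η, h1, h2, h3, h4⟩ ⟨α', η', h1', h2', h3', h4'⟩
    refine ⟨α + α', η + η', h1.add h1', h2.add h2', IsD.add h3 h3' h1 h1', fun y => ?_⟩
    change v y + w y = _
    rw [h4, h4']
    rfl
  zero_mem' := ⟨0, 0, IsSmooth.zero, IsSmooth.zero, IsD.zero, fun y => rfl⟩
  smul_mem' := by
    rintro c v ⟨α, η, h1, h2, h3, h4⟩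
    refine ⟨c • α, c • η, h1.smul c, h2.smul c, IsD.smul h3 c, fun y => ?_⟩
    change c * v y = _
    rw [h4]
    rfl

theorem main_atl [CompactSpace X] [T2Space X] [Nonempty X] {J : End d X}
    (hJ : IsAlmostComplex J) {k : ℕ} (a : Atl d X k) {a' b B c₁ : Fin k → ℝ}
    (HG : ∀ i, LG J (a.c i) (Metric.closedBall (cen a i) (a.R i)) (a' i) (b i) (B i) (c₁ i)) :
    ∃ δ : ℝ≥0∞, 0 < δ ∧ ∀ τ : Form d X 2, IsSmooth τ → IsClosedForm τ →
      (∀ i, ∃ f : E d → ℝ≥0∞, LF τ J (a.c i) (Metric.closedBall (cen a i) (a.R i))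
        (a' i) (b i) (B i) (c₁ i) f ∧ ∫⁻ q in Metric.closedBall (cen a i) (a.R i), f q ≤ δ) →
      ∃ (α : Form d X 1) (η : Form d X 2), IsSmooth α ∧ IsSmooth η ∧ IsD α η ∧
        ∀ z, TamesAt (τ + η) J z := by
  classical
  -- an immersion
  obtain ⟨m, F, hF, -, hFi⟩ := exists_embedding_euclidean_of_compact (I := 𝓡 d) (M := X)
  obtain ⟨S⟩ := exists_sph hJ hF hFi a
  -- a partition of unity
  have hopen : ∀ i, IsOpen (reg a i (Metric.ball (cen a i) (a.R i / 2))) := fun i =>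
    (chartAt (E d) (a.c i)).isOpen_inter_preimage Metric.isOpen_ball
  obtain ⟨φ, hφ⟩ := SmoothPartitionOfUnity.exists_isSubordinate (𝓡 d) (isClosed_univ (X := X))
    (fun i => reg a i (Metric.ball (cen a i) (a.R i / 2))) hopen (fun x _ => by
      obtain ⟨i, hi⟩ := a.cov x
      exact mem_iUnion.2 ⟨i, hi⟩)
  have hφsum : ∀ x, ∑ i, φ i x = 1 := by
    intro x
    rw [← finsum_eq_sum_of_fintype]
    exact φ.sum_eq_one (mem_univ x)
  have hφz : ∀ i x, x ∉ reg a i (Metric.closedBall (cen a i) (a.R i / 2)) → φ i x = 0 := by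
    intro i x hx
    by_contra hne
    have h1 : x ∈ tsupport (φ i) := subset_tsupport _ hne
    have h2 := hφ i h1
    exact hx ⟨h2.1, Metric.ball_subset_closedBall h2.2⟩
  have herr := fun i => chart_err hJ hF hFi S a i (HG i) (φ i).contMDiff
    (fun x => φ.nonneg i x) (fun x => φ.le_one i x) (hφz i)
  choose c₀ hc₀ herr using herr
  have hk : Nonempty (Fin k) := by
    obtain ⟨x⟩ := ‹Nonempty X›
    obtain ⟨i, -⟩ := a.cov x
    exact ⟨i⟩
  obtain ⟨cs, hcs, hcs2⟩ : ∃ cs : ℝ, 0 < cs ∧ ∀ i, cs ≤ c₀ i := by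
    obtain ⟨i₀, -, h⟩ := Finset.exists_min_image Finset.univ c₀ ⟨hk.some, Finset.mem_univ _⟩
    exact ⟨c₀ i₀, hc₀ i₀, fun i => h i (Finset.mem_univ i)⟩
  -- the choice of the errors
  obtain ⟨g₀, hg₀⟩ : ∃ g₀ : ℝ≥0∞, g₀ = ENNReal.ofReal (cs / 4) := ⟨_, rfl⟩
  have hg₀0 : 0 < g₀ := by
    rw [hg₀, ENNReal.ofReal_pos]
    positivity
  have hg₀t : g₀ ≠ ⊤ := by
    rw [hg₀]
    exact ENNReal.ofReal_ne_top
  have hk0 : (k : ℝ≥0∞) ≠ ⊤ := ENNReal.natCast_ne_top k
  choose Kf hKf hloc using fun i => herr i (g₀ / k) (ENNReal.div_pos hg₀0.ne' hk0)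
  obtain ⟨Ks, hKs⟩ : ∃ Ks : ℝ≥0∞, Ks = ∑ i, Kf i := ⟨_, rfl⟩
  have hKst : Ks ≠ ⊤ := by
    rw [hKs]
    exact ENNReal.sum_ne_top.2 fun i _ => hKf i
  refine ⟨g₀ / (1 + Ks), ENNReal.div_pos hg₀0.ne'
    (ENNReal.add_ne_top.2 ⟨ENNReal.one_ne_top, hKst⟩), fun τ hτs hτc hτ => ?_⟩
  choose f hLF hf using hτ
  choose β η hβ hη hβη hint using fun i => hloc i τ hτs hτc (f i) (hLF i)
  -- the functions
  rcases isEmpty_or_nonempty S.Y with hY | hY
  · refine ⟨0, 0, IsSmooth.zero, IsSmooth.zero, IsD.zero, S.tames _ fun y => (hY.false y).elim⟩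
  let : MeasurableSpace S.Y := borel S.Y
  have : BorelSpace S.Y := ⟨rfl⟩
  have hcont : ∀ w : Form d X 2, IsSmooth w → Continuous (Qy S w) := fun w hw => S.cont w hw
  obtain ⟨q, hq⟩ : ∃ q : C(S.Y, ℝ), ∀ y, q y = Qy S τ y :=
    ⟨⟨Qy S τ, hcont _ hτs⟩, fun y => rfl⟩
  by_contra hcon
  obtain ⟨M, hMp, hM1, hM2⟩ := separation (Vex S) q (by
    rintro v ⟨α, ζ, h1, h2, h3, h4⟩
    by_contra hcon2
    push Not at hcon2
    refine hcon ⟨α, ζ, h1, h2, h3, S.tames _ fun y => ?_⟩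
    have h5 := hcon2 y
    change 0 < q y + v y at h5
    rw [hq, h4] at h5
    exact h5)
  have hAnn : Ann S M := by
    intro α ζ h1 h2 h3
    exact hM1 ⟨Qy S ζ, hcont _ h2⟩ ⟨α, ζ, h1, h2, h3, fun y => rfl⟩
  -- the integrals
  have hci : ∀ g : S.Y → ℝ, Continuous g → Integrable g M := fun g hg =>
    hg.integrable_of_hasCompactSupport (HasCompactSupport.of_compactSpace _)
  have hφc : ∀ i, Continuous (fun y => φ i (S.x y)) := fun i =>
    (φ i).contMDiff.continuous.comp S.hx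
  obtain ⟨G, hG⟩ : ∃ G : Fin k → S.Y → ℝ, G = fun i y => φ i (S.x y) * c₀ i -
    (φ i (S.x y) * Qy S τ y + Qy S (η i) y) := ⟨_, rfl⟩
  have hGc : ∀ i, Continuous (G i) := by
    intro i
    rw [hG]
    exact ((hφc i).mul continuous_const).sub (((hφc i).mul (hcont _ hτs)).add
      (hcont _ (hη i)))
  have hGi : ∀ i, ENNReal.ofReal (∫ y, G i y ∂M) ≤ g₀ / k + Kf i * (g₀ / (1 + Ks)) := by
    intro i
    refine (ofReal_int_le (hci _ (hGc i))).trans ?_
    rw [hG]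
    refine (hint i M hAnn).trans (add_le_add (le_refl _) (mul_le_mul' (le_refl _) ?_))
    exact hf i
  have hsum1 : ENNReal.ofReal (∑ i, ∫ y, G i y ∂M) ≤ ∑ i, ENNReal.ofReal (∫ y, G i y ∂M) := by
    have h1 : ∀ s : Finset (Fin k), ENNReal.ofReal (∑ i ∈ s, ∫ y, G i y ∂M) ≤
        ∑ i ∈ s, ENNReal.ofReal (∫ y, G i y ∂M) := by
      intro s
      induction s using Finset.induction_on with
      | empty => simp
      | insert j s hj ih =>
        rw [Finset.sum_insert hj, Finset.sum_insert hj]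
        exact ENNReal.ofReal_add_le.trans (add_le_add (le_refl _) ih)
    exact h1 Finset.univ
  have hsum2 : cs ≤ ∑ i, ∫ y, G i y ∂M := by
    rw [← integral_finsetSum _ fun i _ => hci _ (hGc i)]
    have h1 : ∀ y, cs - Qy S τ y - ∑ i, Qy S (η i) y ≤ ∑ i, G i y := by
      intro y
      rw [hG]
      simp only [Finset.sum_sub_distrib, Finset.sum_add_distrib, ← Finset.sum_mul]
      rw [hφsum, one_mul]
      have h2 : cs ≤ ∑ i, φ i (S.x y) * c₀ i := by
        calc cs = ∑ i, φ i (S.x y) * cs := by rw [← Finset.sum_mul, hφsum, one_mul]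
          _ ≤ _ := Finset.sum_le_sum fun i _ => mul_le_mul_of_nonneg_left (hcs2 i) (φ.nonneg i _)
      linarith
    have h3 : Integrable (fun y => cs - Qy S τ y) M :=
      (integrable_const _).sub (hci _ (hcont _ hτs))
    have h4 : Integrable (fun y => ∑ i, Qy S (η i) y) M :=
      integrable_finsetSum _ fun i _ => hci _ (hcont _ (hη i))
    have h5 : ∫ y, (cs - Qy S τ y - ∑ i, Qy S (η i) y) ∂M = cs - ∫ y, Qy S τ y ∂M := by
      rw [integral_sub h3 h4, integral_sub (integrable_const _) (hci _ (hcont _ hτs)),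
        integral_finsetSum _ fun i _ => hci _ (hcont _ (hη i))]
      have h6 : ∀ i, ∫ y, Qy S (η i) y ∂M = 0 := fun i => hAnn (β i) (η i) (hβ i) (hη i) (hβη i)
      simp [h6]
    have h7 : ∫ y, Qy S τ y ∂M ≤ 0 := by
      have h8 : (fun y => q y) = Qy S τ := funext hq
      rw [← h8]
      exact hM2
    have h9 := integral_mono (h3.sub h4) (integrable_finsetSum Finset.univ fun i _ =>
      hci _ (hGc i)) h1
    have h10 : ∫ y, ((fun y => cs - Qy S τ y) - fun y => ∑ i, Qy S (η i) y) y ∂M =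
      cs - ∫ y, Qy S τ y ∂M := h5
    rw [h10] at h9
    linarith
  have hb1 : ∑ _i : Fin k, g₀ / k ≤ g₀ := by
    rw [Finset.sum_const, Finset.card_univ, Fintype.card_fin, nsmul_eq_mul]
    exact ENNReal.mul_div_le
  have hb2 : ∑ i, Kf i * (g₀ / (1 + Ks)) ≤ g₀ := by
    rw [← Finset.sum_mul, ← hKs]
    calc Ks * (g₀ / (1 + Ks)) ≤ (1 + Ks) * (g₀ / (1 + Ks)) :=
          mul_le_mul' (le_add_self) (le_refl _)
      _ ≤ g₀ := ENNReal.mul_div_le
  have hfin : ENNReal.ofReal cs < ENNReal.ofReal cs := by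
    calc ENNReal.ofReal cs ≤ ∑ i, ENNReal.ofReal (∫ y, G i y ∂M) :=
          (ENNReal.ofReal_le_ofReal hsum2).trans hsum1
      _ ≤ ∑ i, (g₀ / k + Kf i * (g₀ / (1 + Ks))) := Finset.sum_le_sum fun i _ => hGi i
      _ = (∑ _i : Fin k, g₀ / k) + ∑ i, Kf i * (g₀ / (1 + Ks)) := Finset.sum_add_distrib
      _ ≤ g₀ + g₀ := add_le_add hb1 hb2
      _ = ENNReal.ofReal (cs / 2) := by
          rw [hg₀, ← ENNReal.ofReal_add (by positivity) (by positivity)]
          congr 1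
          ring
      _ < ENNReal.ofReal cs := (ENNReal.ofReal_lt_ofReal_iff hcs).2 (by linarith)
  exact lt_irrefl _ hfin

end Pool.Agent.V7H86.LP
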