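import Mathlib
import Pool.Agent.V7H86.LP.Int

/-!
# Criteria for the Morrey condition along measures
-/

set_option autoImplicit false

open Set Filter Topology MeasureTheory
open scoped Manifold ContDiff ENNReal

noncomputable section

namespace Pool.Agent.V7H86.LP

open Pool.Agent.Y501.SY
open Pool.Agent.V7H86.SG

variable {d : ℕ}

/-- the volume of the unit ball -/
def om (d : ℕ) : ℝ := (volume (Metric.ball (0 : E d) 1)).toReal

theorem om_nonneg : 0 ≤ om d := ENNReal.toReal_nonneg

theorem om_eq : ENNReal.ofReal (om d) = volume (Metric.ball (0 : E d) 1) :=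
  ENNReal.ofReal_toReal Metric.isBounded_ball.measure_lt_top.ne

theorem vol_ball (z : E d) {r : ℝ} (hr : 0 ≤ r) :
    volume (Metric.closedBall z r) = ENNReal.ofReal (om d * r ^ d) := by
  have h1 := Measure.addHaar_closedBall (volume : Measure (E d)) z hr
  have hfr : Module.finrank ℝ (E d) = d := by simp
  rw [h1, hfr, ← om_eq, ← ENNReal.ofReal_mul (by positivity), mul_comm]

theorem tonelli {m : Measure (E d)} [SFinite m] (r : ℝ) {G : E d → ℝ≥0∞} (hG : Measurable G) :
    ∫⁻ p, Av r G p ∂m = ∫⁻ q, G q * m (Metric.closedBall q r) := by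
  have h1 : ∀ p, Av r G p = ∫⁻ q, {x : E d × E d | dist x.2 x.1 ≤ r}.indicator
      (fun x => G x.2) (p, q) := by
    intro p
    unfold Av
    rw [← lintegral_indicator Metric.isClosed_closedBall.measurableSet]
    rfl
  have hm : Measurable ({x : E d × E d | dist x.2 x.1 ≤ r}.indicator (fun x => G x.2)) := by
    refine (hG.comp measurable_snd).indicator ?_
    exact (isClosed_le (by fun_prop) (by fun_prop)).measurableSet
  simp_rw [h1]
  have hsw := lintegral_lintegral_swap (μ := m) (ν := (volume : Measure (E d)))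
    (f := fun p q => {x : E d × E d | dist x.2 x.1 ≤ r}.indicator (fun x => G x.2) (p, q))
    hm.aemeasurable
  rw [hsw]
  refine lintegral_congr fun q => ?_
  have h2 : ∀ p, {x : E d × E d | dist x.2 x.1 ≤ r}.indicator (fun x => G x.2) (p, q) =
      (Metric.closedBall q r).indicator (fun _ => G q) p := by
    intro p
    by_cases h : dist q p ≤ r
    · rw [indicator_of_mem (show ((p, q) : E d × E d) ∈ {x : E d × E d | dist x.2 x.1 ≤ r} from h),
        indicator_of_mem (show p ∈ Metric.closedBall q r by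
          rw [Metric.mem_closedBall, dist_comm]; exact h)]
    · rw [indicator_of_notMem (show ((p, q) : E d × E d) ∉ {x : E d × E d | dist x.2 x.1 ≤ r}
        from h), indicator_of_notMem (show p ∉ Metric.closedBall q r by
          rw [Metric.mem_closedBall, dist_comm]; exact h)]
  simp_rw [h2]
  rw [lintegral_indicator Metric.isClosed_closedBall.measurableSet, setLIntegral_const]

theorem pow_split {p lam : ℝ} (hp : 1 ≤ p) (hlam : 0 < lam) (t : ℝ≥0∞) :
    t ≤ ENNReal.ofReal lam + ENNReal.ofReal (lam ^ (1 - p)) * t ^ p := by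
  rcases le_total t (ENNReal.ofReal lam) with h | h
  · exact h.trans le_self_add
  refine le_trans ?_ le_add_self
  rcases eq_or_ne t ⊤ with ht | ht
  · rw [ht, ENNReal.top_rpow_of_pos (by linarith), ENNReal.mul_top]
    rw [Ne, ENNReal.ofReal_eq_zero, not_le]
    positivity
  · lift t to NNReal using ht
    have h1 : lam ≤ (t : ℝ) := by
      rw [ENNReal.ofReal_le_iff_le_toReal ENNReal.coe_ne_top] at h
      exact h
    have ht0 : (0 : ℝ) < t := hlam.trans_le h1
    rw [← ENNReal.coe_rpow_of_nonneg _ (by linarith), ← ENNReal.ofReal_coe_nnreal,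
      ← ENNReal.ofReal_coe_nnreal, ← ENNReal.ofReal_mul (by positivity)]
    refine ENNReal.ofReal_le_ofReal ?_
    rw [NNReal.coe_rpow]
    calc (t : ℝ) = (t : ℝ) ^ (1 - p) * (t : ℝ) ^ p := by
          rw [← Real.rpow_add ht0]
          norm_num
      _ ≤ lam ^ (1 - p) * (t : ℝ) ^ p := by
          refine mul_le_mul_of_nonneg_right ?_ (by positivity)
          exact Real.rpow_le_rpow_of_nonpos hlam h1 (by linarith)

/-- forms in `L^p` -/
theorem mor_lp {p b B : ℝ} (hp : 1 ≤ p) {N : Set (E d)} (hN : MeasurableSet N) {z₀ : E d}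
    (hNz : N ⊆ Metric.closedBall z₀ 1) {h : E d → ℝ≥0∞} (hh : Measurable (N.indicator h))
    (hB0 : 0 ≤ B) (hB : ∫⁻ q in N, h q ^ p ≤ ENNReal.ofReal B) :
    MorC d N h (d - p * b) b (om d + B) := by
  intro m hm r hr hr1
  have hp0 : 0 < p := by linarith
  have hmN : m.restrict N univ ≤ 1 := by
    rw [Measure.restrict_apply_univ]
    refine (measure_mono hNz).trans ((hm z₀ 1 one_pos le_rfl).trans (le_of_eq ?_))
    rw [Real.one_rpow, ENNReal.ofReal_one]
  have hfin : IsFiniteMeasure (m.restrict N) := ⟨lt_of_le_of_lt hmN ENNReal.one_lt_top⟩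
  obtain ⟨g, hg⟩ : ∃ g, g = N.indicator h := ⟨_, rfl⟩
  have hgm : Measurable g := by rw [hg]; exact hh
  obtain ⟨lam, hlam⟩ : ∃ lam : ℝ, lam = r ^ (-b) := ⟨_, rfl⟩
  have hlam0 : 0 < lam := by rw [hlam]; positivity
  have h1 : ∀ p', ∫⁻ q in N ∩ Metric.closedBall p' r, h q = Av r g p' := by
    intro p'
    unfold Av
    rw [hg, lintegral_indicator hN, Measure.restrict_restrict hN]
  simp_rw [h1]
  have h2 : ∀ p', Av r g p' ≤ ENNReal.ofReal (lam * (om d * r ^ d)) +
      ENNReal.ofReal (lam ^ (1 - p)) * Av r (fun q => g q ^ p) p' := by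
    intro p'
    refine (Av_mono_right (g := fun q => ENNReal.ofReal lam +
      ENNReal.ofReal (lam ^ (1 - p)) * g q ^ p) fun q _ => pow_split hp hlam0 (g q)).trans ?_
    unfold Av
    rw [lintegral_add_left measurable_const, lintegral_const_mul _ (hgm.pow_const p),
      setLIntegral_const, vol_ball p' hr.le, ← ENNReal.ofReal_mul hlam0.le]
  have h3 : ∫⁻ p', Av r (fun q => g q ^ p) p' ∂(m.restrict N) ≤
      ENNReal.ofReal (B * r ^ ((d : ℝ) - p * b)) := by
    rw [tonelli r (hgm.pow_const p)]
    have h4 : ∫⁻ q, g q ^ p = ∫⁻ q in N, h q ^ p := by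
      rw [← lintegral_indicator hN]
      refine lintegral_congr fun q => ?_
      rw [hg]
      by_cases hq : q ∈ N
      · rw [indicator_of_mem hq, indicator_of_mem hq]
      · rw [indicator_of_notMem hq, indicator_of_notMem hq, ENNReal.zero_rpow_of_pos hp0]
    calc ∫⁻ q, g q ^ p * m.restrict N (Metric.closedBall q r) ≤
        ∫⁻ q, g q ^ p * ENNReal.ofReal (r ^ ((d : ℝ) - p * b)) :=
          lintegral_mono fun q => mul_le_mul' (le_refl _)
            ((Measure.restrict_apply_le _ _).trans (hm q r hr hr1))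
      _ = (∫⁻ q, g q ^ p) * ENNReal.ofReal (r ^ ((d : ℝ) - p * b)) :=
          lintegral_mul_const _ (hgm.pow_const p)
      _ ≤ ENNReal.ofReal B * ENNReal.ofReal (r ^ ((d : ℝ) - p * b)) := by
          rw [h4]
          exact mul_le_mul' hB (le_refl _)
      _ = _ := (ENNReal.ofReal_mul hB0).symm
  have hAvm : Measurable (fun p' => Av r (fun q => g q ^ p) p') :=
    Av_measurable' r (hgm.pow_const p)
  calc ∫⁻ p', Av r g p' ∂(m.restrict N) ≤ ∫⁻ p', (ENNReal.ofReal (lam * (om d * r ^ d)) +
      ENNReal.ofReal (lam ^ (1 - p)) * Av r (fun q => g q ^ p) p') ∂(m.restrict N) :=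
        lintegral_mono h2
    _ = ENNReal.ofReal (lam * (om d * r ^ d)) * m.restrict N univ +
      ENNReal.ofReal (lam ^ (1 - p)) * ∫⁻ p', Av r (fun q => g q ^ p) p' ∂(m.restrict N) := by
        rw [lintegral_add_left measurable_const, lintegral_const, lintegral_const_mul _ hAvm]
    _ ≤ ENNReal.ofReal (lam * (om d * r ^ d)) * 1 +
      ENNReal.ofReal (lam ^ (1 - p)) * ENNReal.ofReal (B * r ^ ((d : ℝ) - p * b)) :=
        add_le_add (mul_le_mul' (le_refl _) hmN) (mul_le_mul' (le_refl _) h3)
    _ = ENNReal.ofReal ((om d + B) * r ^ ((d : ℝ) - b)) := by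
        have ho := om_nonneg (d := d)
        rw [mul_one, ← ENNReal.ofReal_mul (by positivity), ← ENNReal.ofReal_add
          (by positivity) (by positivity)]
        congr 1
        have e1 : r ^ ((d : ℝ) - b) = lam * r ^ d := by
          rw [hlam, ← Real.rpow_natCast r d, ← Real.rpow_add hr]
          ring_nf
        have e2 : lam ^ (1 - p) * r ^ ((d : ℝ) - p * b) = r ^ ((d : ℝ) - b) := by
          rw [hlam, ← Real.rpow_mul hr.le, ← Real.rpow_add hr]
          congr 1
          ring
        calc lam * (om d * r ^ d) + lam ^ (1 - p) * (B * r ^ ((d : ℝ) - p * b)) =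
            om d * (lam * r ^ d) + B * (lam ^ (1 - p) * r ^ ((d : ℝ) - p * b)) := by ring
          _ = _ := by
            rw [e2, ← e1]
            ring

end Pool.Agent.V7H86.LP
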