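import Mathlib
import Pool.Agent.V7H86.LP.Main
import Pool.Agent.V7H86.LP.Mor

/-!
# Almost taming forms with a degenerate lower bound on a small set
-/

set_option autoImplicit false

open Set Filter Topology MeasureTheory
open scoped Manifold ContDiff ENNReal

noncomputable section

namespace Pool.Agent.V7H86.LP

open Pool.Agent.Y501.SY
open Pool.Agent.Y515.SY (Al two_bound lR_apply)
open Pool.Agent.V7H86.SG

variable {d : ℕ}

theorem bil_pos {s₀ : Al d 2} {J₀ : E d →L[ℝ] E d} (h : ∀ v, v ≠ 0 → 0 < s₀ ![v, J₀ v]) :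
    ∃ c : ℝ, 0 < c ∧ ∀ v, c * ‖v‖ ^ 2 ≤ s₀ ![v, J₀ v] := by
  have hc : Continuous (fun v : E d => s₀ ![v, J₀ v]) := by
    refine s₀.cont.comp ?_
    refine continuous_pi fun i => ?_
    fin_cases i
    · exact continuous_id
    · exact J₀.continuous
  have hsm : ∀ (t : ℝ) (v : E d), s₀ ![t • v, J₀ (t • v)] = t ^ 2 * s₀ ![v, J₀ v] := by
    intro t v
    rw [map_smul]
    have h1 : (![t • v, t • J₀ v] : Fin 2 → E d) =
        fun i => (fun _ : Fin 2 => t) i • (![v, J₀ v] : Fin 2 → E d) i := by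
      funext i
      fin_cases i <;> rfl
    rw [h1, ContinuousAlternatingMap.map_smul_univ]
    simp
  rcases (Metric.sphere (0 : E d) 1).eq_empty_or_nonempty with hS | hS
  · have h0 : ∀ v : E d, v = 0 := by
      intro v
      by_contra hv
      have h1 : ‖v‖⁻¹ • v ∈ Metric.sphere (0 : E d) 1 := by
        rw [mem_sphere_zero_iff_norm, norm_smul, norm_inv, norm_norm,
          inv_mul_cancel₀ (norm_ne_zero_iff.2 hv)]
      rw [hS] at h1
      exact h1
    refine ⟨1, one_pos, fun v => ?_⟩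
    have h1 := hsm 0 v
    rw [h0 v, smul_zero] at h1
    rw [h0 v, h1]
    simp
  · obtain ⟨v₀, hv₀, hmin⟩ := (isCompact_sphere (0 : E d) 1).exists_isMinOn hS hc.continuousOn
    have hv₀1 : v₀ ≠ 0 := by
      intro h1
      rw [h1, mem_sphere_zero_iff_norm, norm_zero] at hv₀
      exact zero_ne_one hv₀
    refine ⟨s₀ ![v₀, J₀ v₀], h v₀ hv₀1, fun v => ?_⟩
    rcases eq_or_ne v 0 with hv | hv
    · have h1 := hsm 0 v
      rw [hv, smul_zero] at h1
      rw [hv, h1]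
      simp
    · have hn : 0 < ‖v‖ := norm_pos_iff.2 hv
      have h1 : ‖v‖⁻¹ • v ∈ Metric.sphere (0 : E d) 1 := by
        rw [mem_sphere_zero_iff_norm, norm_smul, norm_inv, norm_norm,
          inv_mul_cancel₀ hn.ne']
      have h2 : s₀ ![v₀, J₀ v₀] ≤ s₀ ![‖v‖⁻¹ • v, J₀ (‖v‖⁻¹ • v)] := hmin h1
      rw [hsm] at h2
      have h3 := mul_le_mul_of_nonneg_right h2 (sq_nonneg ‖v‖)
      refine h3.trans (le_of_eq ?_)
      field_simp

theorem diff_bound (s s₀ : Al d 2) (J J₀ : E d →L[ℝ] E d) (v : E d) :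
    |s ![v, J v] - s₀ ![v, J₀ v]| ≤ (‖s - s₀‖ * ‖J‖ + ‖s₀‖ * ‖J - J₀‖) * ‖v‖ ^ 2 := by
  have e1 : s ![v, J v] - s₀ ![v, J₀ v] = (s - s₀) ![v, J v] + s₀ ![v, (J - J₀) v] := by
    have e2 : s₀ ![v, (J - J₀) v] = s₀ ![v, J v] - s₀ ![v, J₀ v] := by
      rw [_root_.sub_apply, ← lR_apply, ← lR_apply, ← lR_apply, ← map_sub]
    rw [e2]
    change _ = (s ![v, J v] - s₀ ![v, J v]) + _
    ring
  rw [e1]
  refine (abs_add_le _ _).trans ?_
  have h1 := two_bound (s - s₀) v (J v)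
  have h2 := two_bound s₀ v ((J - J₀) v)
  have h3 : ‖J v‖ ≤ ‖J‖ * ‖v‖ := J.le_opNorm v
  have h4 : ‖(J - J₀) v‖ ≤ ‖J - J₀‖ * ‖v‖ := (J - J₀).le_opNorm v
  have h5 : ‖s - s₀‖ * (‖v‖ * ‖J v‖) ≤ ‖s - s₀‖ * ‖J‖ * ‖v‖ ^ 2 := by
    calc _ ≤ ‖s - s₀‖ * (‖v‖ * (‖J‖ * ‖v‖)) := by gcongr
      _ = _ := by ring
  have h6 : ‖s₀‖ * (‖v‖ * ‖(J - J₀) v‖) ≤ ‖s₀‖ * ‖J - J₀‖ * ‖v‖ ^ 2 := by
    calc _ ≤ ‖s₀‖ * (‖v‖ * (‖J - J₀‖ * ‖v‖)) := by gcongr
      _ = _ := by ring
  linarith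

theorem pos_nbd {s : E d → Al d 2} {Js : E d → (E d →L[ℝ] E d)} {p₀ : E d}
    (hs : ContinuousAt s p₀) (hJ : ContinuousAt Js p₀)
    (h : ∀ v, v ≠ 0 → 0 < s p₀ ![v, Js p₀ v]) :
    ∃ c : ℝ, 0 < c ∧ ∀ᶠ p in 𝓝 p₀, ∀ v, c * ‖v‖ ^ 2 ≤ s p ![v, Js p v] := by
  obtain ⟨c, hc, h1⟩ := bil_pos h
  refine ⟨c / 2, half_pos hc, ?_⟩
  have h2 : ContinuousAt (fun p => ‖s p - s p₀‖ * ‖Js p‖ + ‖s p₀‖ * ‖Js p - Js p₀‖) p₀ :=
    (((hs.sub continuousAt_const).norm).mul hJ.norm).add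
      (continuousAt_const.mul (hJ.sub continuousAt_const).norm)
  have h3 : (fun p => ‖s p - s p₀‖ * ‖Js p‖ + ‖s p₀‖ * ‖Js p - Js p₀‖) p₀ < c / 2 := by
    simp only [sub_self, norm_zero, zero_mul, mul_zero, add_zero]
    exact half_pos hc
  filter_upwards [h2.eventually_lt_const h3] with p hp v
  have h4 := (abs_le.1 (diff_bound (s p) (s p₀) (Js p) (Js p₀) v)).1
  have h5 := h1 v
  have h6 := mul_le_mul_of_nonneg_right hp.le (sq_nonneg ‖v‖)
  linarith

/-- adding a bounded form -/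
theorem MorC.add_bdd {N : Set (E d)} {z₀ : E d} (hNz : N ⊆ Metric.closedBall z₀ 1)
    {h h' : E d → ℝ≥0∞} {a b B e : ℝ} (hb0 : 0 ≤ b) (hB : 0 ≤ B) (he : 0 ≤ e)
    (hN : MeasurableSet N) (hh : ∀ q ∈ N, h' q ≤ h q + ENNReal.ofReal e) (H : MorC d N h a b B) :
    MorC d N h' a b (B + e * om d) := by
  intro m hm r hr hr1
  have ho := om_nonneg (d := d)
  have hmN : m N ≤ 1 := by
    refine (measure_mono hNz).trans ((hm z₀ 1 one_pos le_rfl).trans (le_of_eq ?_))
    rw [Real.one_rpow, ENNReal.ofReal_one]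
  have h1 : ∀ p, ∫⁻ q in N ∩ Metric.closedBall p r, h' q ≤
      (∫⁻ q in N ∩ Metric.closedBall p r, h q) + ENNReal.ofReal (e * (om d * r ^ d)) := by
    intro p
    refine (setLIntegral_mono' (hN.inter Metric.isClosed_closedBall.measurableSet)
      fun q hq => hh q hq.1).trans ?_
    rw [lintegral_add_right _ measurable_const, setLIntegral_const, ENNReal.ofReal_mul he]
    refine add_le_add (le_refl _) (mul_le_mul' (le_refl _) ?_)
    rw [← vol_ball p hr.le]
    exact measure_mono inter_subset_right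
  refine (lintegral_mono h1).trans ?_
  rw [lintegral_add_right _ measurable_const, setLIntegral_const]
  have hrr : r ^ d ≤ r ^ ((d : ℝ) - b) := by
    rw [← Real.rpow_natCast r d]
    exact Real.rpow_le_rpow_of_exponent_ge hr hr1 (by linarith)
  calc _ ≤ ENNReal.ofReal (B * r ^ ((d : ℝ) - b)) + ENNReal.ofReal (e * (om d * r ^ d)) * 1 :=
        add_le_add (H m hm r hr hr1) (mul_le_mul' (le_refl _) hmN)
    _ ≤ _ := by
        rw [mul_one, ← ENNReal.ofReal_add (by positivity) (by positivity)]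
        refine ENNReal.ofReal_le_ofReal ?_
        have := mul_le_mul_of_nonneg_left hrr (mul_nonneg he ho)
        linarith

variable {X : Type} [TopologicalSpace X] [ChartedSpace (E d) X] [IsManifold (𝓡 d) ∞ X]

theorem pos_chart {J : End d X} (hJ : IsAlmostComplex J) {η₀ : Form d X 2}
    (hη₀ : IsSmooth η₀) {x : X} (hp : ∀ v : TangentSpace (𝓡 d) x, v ≠ 0 → 0 < η₀ x ![v, J x v]) :
    ∃ c : ℝ, 0 < c ∧ ∀ᶠ p in 𝓝 (chartAt (E d) x x), ∀ v : E d, c * ‖v‖ ^ 2 ≤
      pb (chartAt (E d) x).symm η₀ p ![v, inChart J x p v] := by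
  have ht : chartAt (E d) x x ∈ (chartAt (E d) x).target := mem_chart_target (E d) x
  have hnb := (chartAt (E d) x).open_target.mem_nhds ht
  refine pos_nbd (s := pb (chartAt (E d) x).symm η₀) (Js := inChart J x)
    ((hη₀ _ _ (chartAt (E d) x).open_target contMDiffOn_chart_symm).continuousOn.continuousAt hnb)
    ((hJ.cont x).continuousAt hnb) fun v hv => ?_
  have h1 := Pool.Agent.Y455.SY.Q_eq η₀ J x ht v
  unfold Pool.Agent.Y455.SY.Q at h1
  rw [h1]
  have h2 : (chartAt (E d) x).symm (chartAt (E d) x x) = x :=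
    (chartAt (E d) x).left_inv (mem_chart_source (E d) x)
  have h3 : Pool.Agent.Y455.SY.A x (chartAt (E d) x x) v ≠ 0 := by
    intro h4
    apply hv
    rw [← Pool.Agent.Y455.SY.BA x ht v, h4, map_zero]
  obtain ⟨u, hu⟩ : ∃ u, u = Pool.Agent.Y455.SY.A x (chartAt (E d) x x) v := ⟨_, rfl⟩
  rw [← hu] at h3 ⊢
  obtain ⟨z, hz⟩ : ∃ z, z = (chartAt (E d) x).symm (chartAt (E d) x x) := ⟨_, rfl⟩
  rw [← hz] at h2 ⊢
  subst h2
  exact hp u h3

theorem main_deg [CompactSpace X] [T2Space X] [Nonempty X] {J : End d X}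
    (hJ : IsAlmostComplex J) {C : Set X} {α₀ : Form d X 1} {η₀ : Form d X 2}
    (hα₀ : IsSmooth α₀) (hη₀ : IsSmooth η₀) (hαη₀ : IsD α₀ η₀) (hηc₀ : IsClosedForm η₀)
    (hηp : ∀ x ∈ C, ∀ v : TangentSpace (𝓡 d) x, v ≠ 0 → 0 < η₀ x ![v, J x v])
    {N : X → Set (E d)} (HN : ∀ x, N x ∈ 𝓝 (chartAt (E d) x x)) {a' b B c₁ : X → ℝ}
    (ha : ∀ x, a' x < 2) (hb0 : ∀ x, 0 ≤ b x) (hb1 : ∀ x, b x < 1) (hB : ∀ x, 0 ≤ B x)
    (hc0 : ∀ x, 0 ≤ c₁ x) (hcC : ∀ x, x ∉ C → 0 < c₁ x) (hosc : ∀ x, Osc J x (N x) (b x)) :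
    ∃ (t : Finset X) (δ : ℝ≥0∞) (R : X → ℝ), 0 < δ ∧
      (∀ x, 0 < R x ∧ R x ≤ 1 ∧ Metric.closedBall (chartAt (E d) x x) (R x) ⊆ N x ∧
        Metric.closedBall (chartAt (E d) x x) (R x) ⊆ (chartAt (E d) x).target) ∧
      ∀ τ : Form d X 2, IsSmooth τ → IsClosedForm τ →
      (∀ x ∈ t, ∃ f : E d → ℝ≥0∞, LF τ J x (Metric.closedBall (chartAt (E d) x x) (R x))
        (a' x) (b x) (B x) (c₁ x) f ∧
        ∫⁻ q in Metric.closedBall (chartAt (E d) x x) (R x), f q ≤ δ) →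
      ∃ (α : Form d X 1) (η : Form d X 2), IsSmooth α ∧ IsSmooth η ∧ IsD α η ∧
        ∀ z, TamesAt (τ + η) J z := by
  classical
  have hce : ∀ x, ∃ (c : ℝ) (G : Set (E d)), 0 < c ∧ G ∈ 𝓝 (chartAt (E d) x x) ∧
      (x ∈ C → ∀ p ∈ G, ∀ v : E d, c * ‖v‖ ^ 2 ≤
        pb (chartAt (E d) x).symm η₀ p ![v, inChart J x p v]) := by
    intro x
    by_cases hx : x ∈ C
    · obtain ⟨c, hc, h1⟩ := pos_chart hJ hη₀ (hηp x hx)
      exact ⟨c, _, hc, h1, fun _ p hp => hp⟩
    · exact ⟨1, univ, one_pos, univ_mem, fun h => absurd h hx⟩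
  choose ce G hce0 hG hGp using hce
  obtain ⟨R, hR, t, k, a, hat⟩ := exists_atl (N := fun x => N x ∩ G x)
    fun x => inter_mem (HN x) (hG x)
  have hball : ∀ i, Metric.closedBall (cen a i) (a.R i) =
      Metric.closedBall (chartAt (E d) (a.c i) (a.c i)) (R (a.c i)) := by
    intro i
    rw [(hat i).2]
    rfl
  have hbN : ∀ i, Metric.closedBall (cen a i) (a.R i) ⊆ N (a.c i) := fun i => by
    rw [hball]
    exact (hR (a.c i)).2.2.1.trans inter_subset_left
  have hbG : ∀ i, Metric.closedBall (cen a i) (a.R i) ⊆ G (a.c i) := fun i => by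
    rw [hball]
    exact (hR (a.c i)).2.2.1.trans inter_subset_right
  have hbt : ∀ i, Metric.closedBall (cen a i) (a.R i) ⊆ (chartAt (E d) (a.c i)).target :=
    fun i => a.sub i
  have hb1' : ∀ i, Metric.closedBall (cen a i) (a.R i) ⊆ Metric.closedBall (cen a i) 1 :=
    fun i => Metric.closedBall_subset_closedBall (by rw [(hat i).2]; exact (hR _).2.1)
  have hpc : ∀ (w : Form d X 2), IsSmooth w → ∀ i, ContinuousOn (pb (chartAt (E d) (a.c i)).symm w)
      (Metric.closedBall (cen a i) (a.R i)) := fun w hw i =>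
    (hw _ _ (chartAt (E d) (a.c i)).open_target contMDiffOn_chart_symm).continuousOn.mono (hbt i)
  choose Eb hEb using fun i => (isCompact_closedBall (cen a i) (a.R i)).exists_bound_of_continuousOn
    (hpc η₀ hη₀ i)
  choose K hK using fun i => (isCompact_closedBall (cen a i) (a.R i)).exists_bound_of_continuousOn
    ((hJ.cont (a.c i)).mono (hbt i))
  have hcen : ∀ i, cen a i ∈ Metric.closedBall (cen a i) (a.R i) := fun i =>
    Metric.mem_closedBall_self (a.Rpos i).le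
  have hEb0 : ∀ i, 0 ≤ Eb i := fun i => (norm_nonneg _).trans (hEb i _ (hcen i))
  have hK0 : ∀ i, 0 ≤ K i := fun i => (norm_nonneg _).trans (hK i _ (hcen i))
  -- the choice of `s`
  obtain ⟨s, hs0, hs⟩ : ∃ s : ℝ, 0 < s ∧ ∀ i, a.c i ∉ C → s * (Eb i * K i) ≤ c₁ (a.c i) / 2 := by
    rcases isEmpty_or_nonempty (Fin k) with hk | hk
    · exact ⟨1, one_pos, fun i => (hk.false i).elim⟩
    obtain ⟨i₀, -, h⟩ := Finset.exists_min_image Finset.univ
      (fun i => if a.c i ∈ C then (1 : ℝ) else c₁ (a.c i) / (2 * (Eb i * K i + 1)))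
      ⟨hk.some, Finset.mem_univ _⟩
    have hpos : ∀ i, 0 < (if a.c i ∈ C then (1 : ℝ) else c₁ (a.c i) / (2 * (Eb i * K i + 1))) := by
      intro i
      split_ifs with h1
      · exact one_pos
      · have h2 := hcC _ h1
        have h3 := hEb0 i
        have h4 := hK0 i
        positivity
    refine ⟨_, hpos i₀, fun i hi => ?_⟩
    have h1 := h i (Finset.mem_univ i)
    rw [if_neg (show ¬ a.c i ∈ C from hi)] at h1
    have h2 := hcC _ hi
    have h3 := hEb0 i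
    have h4 := hK0 i
    have h5 : 0 ≤ Eb i * K i := by positivity
    refine (mul_le_mul_of_nonneg_right h1 h5).trans ?_
    rw [div_mul_eq_mul_div, div_le_div_iff₀ (by positivity) (by norm_num)]
    nlinarith
  obtain ⟨δ, hδ, hmain⟩ := main_atl hJ a (a' := fun i => a' (a.c i)) (b := fun i => b (a.c i))
    (B := fun i => B (a.c i) + s * Eb i * om d)
    (c₁ := fun i => if a.c i ∈ C then s * ce (a.c i) else c₁ (a.c i) / 2) (fun i => by
      refine ⟨ha _, hb0 _, hb1 _, ?_, ?_, (hosc _).mono (hbN i)⟩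
      · split_ifs with h1
        · exact mul_pos hs0 (hce0 _)
        · exact half_pos (hcC _ h1)
      · have h1 := hB (a.c i)
        have h2 := hEb0 i
        have h3 := om_nonneg (d := d)
        positivity)
  refine ⟨t, δ, R, hδ, fun x => ⟨(hR x).1, (hR x).2.1, (hR x).2.2.1.trans inter_subset_left,
    (hR x).2.2.2⟩, fun τ hτs hτc hτ => ?_⟩
  obtain ⟨α, η, h1, h2, h3, h4⟩ := hmain (τ + s • η₀) (hτs.add (hη₀.smul s)) (by
    have h5 : (0 : Form d X 3) = 0 + s • 0 := by rw [smul_zero, add_zero]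
    unfold IsClosedForm
    rw [h5]
    exact IsD.add hτc (IsD.smul hηc₀ s) hτs (hη₀.smul s)) (by
    intro i
    obtain ⟨f, hf1, hf2⟩ := hτ (a.c i) (hat i).1
    rw [← hball] at hf1 hf2
    refine ⟨f, ⟨?_, hf1.fm, ?_⟩, hf2⟩
    · refine hf1.mor.add_bdd (hb1' i) (hb0 _) (hB _) (mul_nonneg hs0.le (hEb0 i))
        Metric.isClosed_closedBall.measurableSet fun q hq => ?_
      rw [pb_add, pb_smul]
      have e5 := enorm_add_le (pb (chartAt (E d) (a.c i)).symm τ q)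
        (s • pb (chartAt (E d) (a.c i)).symm η₀ q)
      refine e5.trans (add_le_add (le_refl _) ?_)
      rw [enorm_smul, ← ofReal_norm, ← ofReal_norm, Real.norm_of_nonneg hs0.le,
        ← ENNReal.ofReal_mul hs0.le]
      exact ENNReal.ofReal_le_ofReal (mul_le_mul_of_nonneg_left (hEb i q hq) hs0.le)
    · intro p hp v
      refine le_trans (ENNReal.ofReal_le_ofReal ?_) (hf1.pos p hp v)
      have e1 : pb (chartAt (E d) (a.c i)).symm (τ + s • η₀) p ![v, inChart J (a.c i) p v] =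
          pb (chartAt (E d) (a.c i)).symm τ p ![v, inChart J (a.c i) p v] +
          s * pb (chartAt (E d) (a.c i)).symm η₀ p ![v, inChart J (a.c i) p v] := by
        rw [pb_add, pb_smul]
        rfl
      rw [e1]
      have hv0 := sq_nonneg ‖v‖
      split_ifs with h5
      · have h6 := hGp (a.c i) h5 p (hbG i hp) v
        have h7 := mul_le_mul_of_nonneg_left h6 hs0.le
        have h8 := mul_nonneg (hc0 (a.c i)) hv0
        linarith
      · have h6 : |pb (chartAt (E d) (a.c i)).symm η₀ p ![v, inChart J (a.c i) p v]| ≤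
            Eb i * K i * ‖v‖ ^ 2 := by
          refine (two_bound _ _ _).trans ?_
          calc _ ≤ Eb i * (‖v‖ * (K i * ‖v‖)) := by
                refine mul_le_mul (hEb i p hp) (mul_le_mul_of_nonneg_left ?_ (norm_nonneg _))
                  (by positivity) (hEb0 i)
                exact ((inChart J (a.c i) p).le_opNorm v).trans
                  (mul_le_mul_of_nonneg_right (hK i p hp) (norm_nonneg _))
            _ = _ := by ring
        have h7 := (abs_le.1 h6).1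
        have h8 := mul_le_mul_of_nonneg_left h7 hs0.le
        have h9 := mul_le_mul_of_nonneg_right (hs i h5) hv0
        linarith)
  refine ⟨s • α₀ + α, s • η₀ + η, (hα₀.smul s).add h1, (hη₀.smul s).add h2,
    IsD.add (IsD.smul hαη₀ s) h3 (hα₀.smul s) h1, fun z => ?_⟩
  have h5 := h4 z
  rwa [add_assoc] at h5

end Pool.Agent.V7H86.LP
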