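import Mathlib
import Pool.Agent.V7H86.LP.Mor

/-!
# The Morrey condition for functions growing near a small set
-/

set_option autoImplicit false

open Set Filter Topology MeasureTheory
open scoped Manifold ContDiff ENNReal

noncomputable section

namespace Pool.Agent.V7H86.LP

open Pool.Agent.Y501.SY
open Pool.Agent.V7H86.SG

variable {d : ℕ}

/-- the covering numbers of `K` are at most `A * s ^ (-k)` -/
def Cov (K : Set (E d)) (A k : ℝ) : Prop :=
  ∀ s : ℝ, 0 < s → s ≤ 1 → ∃ T : Finset (E d), (T.card : ℝ) ≤ A * s ^ (-k) ∧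
    K ⊆ ⋃ z ∈ T, Metric.closedBall z s

/-- the neighbourhoods of `K` -/
def Nb (K : Set (E d)) (s : ℝ) : Set (E d) := {q | Metric.infEDist q K ≤ ENNReal.ofReal s}

theorem Nb_closed (K : Set (E d)) (s : ℝ) : IsClosed (Nb K s) :=
  isClosed_le Metric.continuous_infEDist continuous_const

theorem Nb_sub {K : Set (E d)} {T : Finset (E d)} {s : ℝ} (hs : 0 < s)
    (hT : K ⊆ ⋃ z ∈ T, Metric.closedBall z s) {q : E d} (hq : q ∈ Nb K s) :
    ∃ z ∈ T, dist q z ≤ 3 * s := by
  have h1 : Metric.infEDist q K < ENNReal.ofReal (2 * s) := by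
    refine lt_of_le_of_lt hq ?_
    exact (ENNReal.ofReal_lt_ofReal_iff (by positivity)).2 (by linarith)
  obtain ⟨y, hy, hqy⟩ := Metric.infEDist_lt_iff.1 h1
  obtain ⟨z, hz, hyz⟩ := mem_iUnion₂.1 (hT hy)
  rw [Metric.mem_closedBall] at hyz
  rw [edist_dist, ENNReal.ofReal_lt_ofReal_iff (by positivity)] at hqy
  have := dist_triangle q y z
  exact ⟨z, hz, by linarith⟩

theorem measure_cov {m : Measure (E d)} (T : Finset (E d)) {r : ℝ} {c : ℝ≥0∞}
    (h : ∀ z ∈ T, m (Metric.closedBall z r) ≤ c) :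
    m (⋃ z ∈ T, Metric.closedBall z r) ≤ (T.card : ℝ≥0∞) * c := by
  refine (measure_biUnion_finset_le T _).trans ((Finset.sum_le_sum h).trans (le_of_eq ?_))
  rw [Finset.sum_const, nsmul_eq_mul]

theorem phi_le {K : Set (E d)} {A k a b σ : ℝ} (hA : 0 ≤ A) (hcov : Cov K A k) (ha : 0 ≤ a)
    (hb0 : 0 ≤ b) (hσ1 : σ ≤ a + b - k) (hσ2 : σ ≤ d - k) {m : Measure (E d)} (hm1 : m univ ≤ 1)
    (hm : ∀ (z : E d) (s : ℝ), 0 < s → s ≤ 1 → m (Metric.closedBall z s) ≤ ENNReal.ofReal (s ^ a))
    {r s : ℝ} (hr : 0 < r) (hr1 : r ≤ 1) (hs : 0 < s) (hs1 : s ≤ 1) :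
    ∫⁻ p, Av r ((Nb K s).indicator fun _ => 1) p ∂m ≤
      ENNReal.ofReal (A * (3 ^ d + 4 ^ a) * om d * (r ^ ((d : ℝ) - b) * s ^ σ)) := by
  have hfin : IsFiniteMeasure m := ⟨lt_of_le_of_lt hm1 ENNReal.one_lt_top⟩
  have ho := om_nonneg (d := d)
  obtain ⟨T, hTc, hT⟩ := hcov s hs hs1
  have hTc' : (T.card : ℝ≥0∞) ≤ ENNReal.ofReal (A * s ^ (-k)) := by
    rw [← ENNReal.ofReal_natCast]
    exact ENNReal.ofReal_le_ofReal hTc
  have hNm : MeasurableSet (Nb K s) := (Nb_closed K s).measurableSet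
  rcases le_or_gt s r with hsr | hsr
  · -- small shells
    rw [tonelli r (measurable_const.indicator hNm)]
    have h1 : volume (Nb K s) ≤ ENNReal.ofReal (A * s ^ (-k)) *
        ENNReal.ofReal (om d * (3 * s) ^ d) := by
      have h2 : Nb K s ⊆ ⋃ z ∈ T, Metric.closedBall z (3 * s) := by
        intro q hq
        obtain ⟨z, hz, hqz⟩ := Nb_sub hs hT hq
        exact mem_iUnion₂.2 ⟨z, hz, hqz⟩
      refine (measure_mono h2).trans ((measure_cov T (c := ENNReal.ofReal (om d * (3 * s) ^ d))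
        fun z _ => (vol_ball z (by positivity)).le).trans ?_)
      exact mul_le_mul' hTc' (le_refl _)
    calc ∫⁻ q, (Nb K s).indicator (fun _ => 1) q * m (Metric.closedBall q r) ≤
        ∫⁻ q, (Nb K s).indicator (fun _ => 1) q * ENNReal.ofReal (r ^ a) :=
          lintegral_mono fun q => mul_le_mul' (le_refl _) (hm q r hr hr1)
      _ = volume (Nb K s) * ENNReal.ofReal (r ^ a) := by
          rw [lintegral_mul_const _ (measurable_const.indicator hNm), lintegral_indicator hNm,
            setLIntegral_const, one_mul]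
      _ ≤ (ENNReal.ofReal (A * s ^ (-k)) * ENNReal.ofReal (om d * (3 * s) ^ d)) *
          ENNReal.ofReal (r ^ a) := mul_le_mul' h1 (le_refl _)
      _ ≤ _ := by
          rw [← ENNReal.ofReal_mul (by positivity), ← ENNReal.ofReal_mul (by positivity)]
          refine ENNReal.ofReal_le_ofReal ?_
          have key : r ^ a * s ^ ((d : ℝ) - k) ≤ r ^ ((d : ℝ) - b) * s ^ σ := by
            rcases le_total 0 ((d : ℝ) - a - b) with h | h
            · have e1 : r ^ a = r ^ ((d : ℝ) - b) * r ^ (-((d : ℝ) - a - b)) := by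
                rw [← Real.rpow_add hr]
                ring_nf
              have e2 : r ^ (-((d : ℝ) - a - b)) ≤ s ^ (-((d : ℝ) - a - b)) :=
                Real.rpow_le_rpow_of_nonpos hs hsr (by linarith)
              have e3 : s ^ (-((d : ℝ) - a - b)) * s ^ ((d : ℝ) - k) = s ^ (a + b - k) := by
                rw [← Real.rpow_add hs]
                ring_nf
              have e4 : s ^ (a + b - k) ≤ s ^ σ :=
                Real.rpow_le_rpow_of_exponent_ge hs hs1 hσ1
              calc r ^ a * s ^ ((d : ℝ) - k) = r ^ ((d : ℝ) - b) *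
                  (r ^ (-((d : ℝ) - a - b)) * s ^ ((d : ℝ) - k)) := by rw [e1]; ring
                _ ≤ r ^ ((d : ℝ) - b) * (s ^ (-((d : ℝ) - a - b)) * s ^ ((d : ℝ) - k)) := by
                    gcongr
                _ ≤ _ := by
                    rw [e3]
                    gcongr
            · have e1 : r ^ a ≤ r ^ ((d : ℝ) - b) :=
                Real.rpow_le_rpow_of_exponent_ge hr hr1 (by linarith)
              have e2 : s ^ ((d : ℝ) - k) ≤ s ^ σ :=
                Real.rpow_le_rpow_of_exponent_ge hs hs1 hσ2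
              exact mul_le_mul e1 e2 (by positivity) (by positivity)
          have e5 : s ^ (-k) * s ^ d = s ^ ((d : ℝ) - k) := by
            rw [← Real.rpow_natCast s d, ← Real.rpow_add hs]
            ring_nf
          calc A * s ^ (-k) * (om d * (3 * s) ^ d) * r ^ a =
              A * 3 ^ d * om d * (r ^ a * (s ^ (-k) * s ^ d)) := by
                rw [mul_pow]
                ring
            _ ≤ A * 3 ^ d * om d * (r ^ ((d : ℝ) - b) * s ^ σ) := by
                rw [e5]
                exact mul_le_mul_of_nonneg_left key (by positivity)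
            _ ≤ _ := by
                refine mul_le_mul_of_nonneg_right ?_ (by positivity)
                refine mul_le_mul_of_nonneg_right (mul_le_mul_of_nonneg_left ?_ hA) ho
                have : (0 : ℝ) ≤ 4 ^ a := by positivity
                linarith
  · -- large shells
    obtain ⟨U, hU⟩ : ∃ U, U = ⋃ z ∈ T, Metric.closedBall z (4 * s) := ⟨_, rfl⟩
    have hUm : MeasurableSet U := by
      rw [hU]
      exact Finset.measurableSet_biUnion _ fun z _ => Metric.isClosed_closedBall.measurableSet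
    have h1 : ∀ p, Av r ((Nb K s).indicator fun _ => 1) p ≤
        U.indicator (fun _ => ENNReal.ofReal (om d * r ^ d)) p := by
      intro p
      by_cases hp : p ∈ U
      · rw [indicator_of_mem hp]
        unfold Av
        calc ∫⁻ q in Metric.closedBall p r, (Nb K s).indicator (fun _ => 1) q ≤
            ∫⁻ _q in Metric.closedBall p r, 1 := lintegral_mono fun q =>
              indicator_le_self _ _ q
          _ = _ := by rw [setLIntegral_const, one_mul, vol_ball p hr.le]
      · rw [indicator_of_notMem hp]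
        unfold Av
        refine le_of_eq ?_
        rw [setLIntegral_congr_fun (g := fun _ => 0) Metric.isClosed_closedBall.measurableSet
          (fun q hq => ?_), lintegral_zero]
        refine indicator_of_notMem (fun hqN => hp ?_) _
        obtain ⟨z, hz, hqz⟩ := Nb_sub hs hT hqN
        rw [hU]
        refine mem_iUnion₂.2 ⟨z, hz, ?_⟩
        rw [Metric.mem_closedBall] at hq ⊢
        have := dist_triangle p q z
        rw [dist_comm p q] at this
        linarith
    have h2 : m U ≤ ENNReal.ofReal (A * s ^ (-k)) * ENNReal.ofReal ((4 * s) ^ a) := by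
      rw [hU]
      refine (measure_cov T (c := ENNReal.ofReal ((4 * s) ^ a)) fun z _ => ?_).trans
        (mul_le_mul' hTc' (le_refl _))
      rcases le_or_gt (4 * s) 1 with h | h
      · exact hm z (4 * s) (by positivity) h
      · refine (measure_mono (subset_univ _)).trans (hm1.trans ?_)
        rw [← ENNReal.ofReal_one]
        exact ENNReal.ofReal_le_ofReal (Real.one_le_rpow h.le ha)
    calc ∫⁻ p, Av r ((Nb K s).indicator fun _ => 1) p ∂m ≤
        ∫⁻ p, U.indicator (fun _ => ENNReal.ofReal (om d * r ^ d)) p ∂m := lintegral_mono h1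
      _ = ENNReal.ofReal (om d * r ^ d) * m U := by
          rw [lintegral_indicator hUm, setLIntegral_const]
      _ ≤ ENNReal.ofReal (om d * r ^ d) *
          (ENNReal.ofReal (A * s ^ (-k)) * ENNReal.ofReal ((4 * s) ^ a)) :=
          mul_le_mul' (le_refl _) h2
      _ ≤ _ := by
          rw [← ENNReal.ofReal_mul (by positivity), ← ENNReal.ofReal_mul (by positivity)]
          refine ENNReal.ofReal_le_ofReal ?_
          have key : r ^ d * (s ^ (-k) * s ^ a) ≤ r ^ ((d : ℝ) - b) * s ^ σ := by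
            have e1 : r ^ d = r ^ ((d : ℝ) - b) * r ^ b := by
              rw [← Real.rpow_natCast r d, ← Real.rpow_add hr]
              ring_nf
            have e2 : r ^ b ≤ s ^ b := Real.rpow_le_rpow hr.le hsr.le hb0
            have e3 : s ^ b * (s ^ (-k) * s ^ a) = s ^ (a + b - k) := by
              rw [← Real.rpow_add hs, ← Real.rpow_add hs]
              ring_nf
            calc r ^ d * (s ^ (-k) * s ^ a) = r ^ ((d : ℝ) - b) * (r ^ b * (s ^ (-k) * s ^ a)) := by
                  rw [e1]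
                  ring
              _ ≤ r ^ ((d : ℝ) - b) * (s ^ b * (s ^ (-k) * s ^ a)) := by gcongr
              _ ≤ _ := by
                  rw [e3]
                  exact mul_le_mul_of_nonneg_left
                    (Real.rpow_le_rpow_of_exponent_ge hs hs1 hσ1) (by positivity)
          calc om d * r ^ d * (A * s ^ (-k) * (4 * s) ^ a) =
              A * 4 ^ a * om d * (r ^ d * (s ^ (-k) * s ^ a)) := by
                rw [Real.mul_rpow (by norm_num) hs.le]
                ring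
            _ ≤ A * 4 ^ a * om d * (r ^ ((d : ℝ) - b) * s ^ σ) :=
                mul_le_mul_of_nonneg_left key (by positivity)
            _ ≤ _ := by
                refine mul_le_mul_of_nonneg_right ?_ (by positivity)
                refine mul_le_mul_of_nonneg_right (mul_le_mul_of_nonneg_left ?_ hA) ho
                have : (0 : ℝ) ≤ 3 ^ d := by positivity
                linarith

/-- the coefficients of the dyadic sum -/
def cf (γ : ℝ) (n : ℕ) : ℝ := ((1 / 2 : ℝ) ^ (n + 1)) ^ (-γ)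

theorem cf_nonneg (γ : ℝ) (n : ℕ) : 0 ≤ cf γ n := by
  unfold cf
  positivity

theorem one_le_cf {γ : ℝ} (hγ : 0 ≤ γ) (n : ℕ) : 1 ≤ cf γ n := by
  unfold cf
  refine Real.one_le_rpow_of_pos_of_le_one_of_nonpos (by positivity) ?_ (by linarith)
  exact pow_le_one₀ (by norm_num) (by norm_num)

theorem dist_le {γ : ℝ} (hγ : 0 ≤ γ) (K : Set (E d)) (q : E d) :
    (Metric.infEDist q K) ^ (-γ) ≤ 1 + ∑' n : ℕ, ENNReal.ofReal (cf γ n) *
      (Nb K ((1 / 2 : ℝ) ^ n)).indicator (fun _ => 1) q := by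
  obtain ⟨D, hD⟩ : ∃ D, D = Metric.infEDist q K := ⟨_, rfl⟩
  have hNb : ∀ s : ℝ, q ∈ Nb K s ↔ D ≤ ENNReal.ofReal s := by
    intro s
    rw [hD]
    rfl
  rw [← hD]
  rcases le_or_gt 1 D with h1 | h1
  · refine le_trans ?_ le_self_add
    rcases hγ.eq_or_lt with h | h
    · rw [← h, neg_zero, ENNReal.rpow_zero]
    · exact ENNReal.rpow_le_one_of_one_le_of_neg h1 (by linarith)
  refine le_trans ?_ le_add_self
  rcases eq_or_ne D 0 with h0 | h0
  · have h2 : ∑' n : ℕ, ENNReal.ofReal (cf γ n) *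
        (Nb K ((1 / 2 : ℝ) ^ n)).indicator (fun _ => 1) q = ⊤ := by
      rw [eq_top_iff]
      have h3 : ∑' _n : ℕ, (1 : ℝ≥0∞) = ⊤ := ENNReal.tsum_const_eq_top_of_ne_zero one_ne_zero
      rw [← h3]
      refine ENNReal.tsum_le_tsum fun n => ?_
      rw [indicator_of_mem ((hNb _).2 (by rw [h0]; exact zero_le)), mul_one]
      rw [← ENNReal.ofReal_one]
      exact ENNReal.ofReal_le_ofReal (one_le_cf hγ n)
    rw [h2]
    exact le_top
  · have hDt : D ≠ ⊤ := (h1.trans ENNReal.one_lt_top).ne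
    obtain ⟨t, ht0, ht⟩ : ∃ t : ℝ, 0 < t ∧ D = ENNReal.ofReal t :=
      ⟨D.toReal, ENNReal.toReal_pos h0 hDt, (ENNReal.ofReal_toReal hDt).symm⟩
    have ht1 : t ≤ 1 := by
      rw [ht, ← ENNReal.ofReal_one, ENNReal.ofReal_lt_ofReal_iff one_pos] at h1
      exact h1.le
    obtain ⟨n, hn1, hn2⟩ := exists_nat_pow_near_of_lt_one ht0 ht1
      (by norm_num : (0 : ℝ) < 1 / 2) (by norm_num)
    refine le_trans ?_ (ENNReal.le_tsum n)
    rw [indicator_of_mem ((hNb _).2 (by rw [ht]; exact ENNReal.ofReal_le_ofReal hn2)), mul_one,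
      ht, ENNReal.ofReal_rpow_of_pos ht0]
    refine ENNReal.ofReal_le_ofReal ?_
    unfold cf
    exact Real.rpow_le_rpow_of_nonpos (by positivity) hn1.le (by linarith)

/-- forms with growth near a small set -/
theorem mor_gro {K : Set (E d)} {A k γ b B : ℝ} (hA : 0 ≤ A) (hcov : Cov K A k) (hγ0 : 0 ≤ γ)
    (hk0 : 0 ≤ k) (hb0 : 0 ≤ b) (hb1 : b < 1) (hγ1 : γ + k < 2 + b) (hγ2 : γ + k < d)
    (hB0 : 0 ≤ B) :
    ∃ a B' : ℝ, a < 2 ∧ 0 ≤ B' ∧ ∀ (N : Set (E d)) (z₀ : E d), MeasurableSet N →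
      N ⊆ Metric.closedBall z₀ 1 → ∀ h : E d → ℝ≥0∞,
      (∀ q ∈ N, h q ≤ ENNReal.ofReal B * (1 + (Metric.infEDist q K) ^ (-γ))) →
      MorC d N h a b B' := by
  have ho := om_nonneg (d := d)
  obtain ⟨a, ha⟩ : ∃ a : ℝ, a = (γ + k - b + 2) / 2 := ⟨_, rfl⟩
  have ha0 : 0 ≤ a := by rw [ha]; linarith
  have ha2 : a < 2 := by rw [ha]; linarith
  obtain ⟨σ, hσ⟩ : ∃ σ : ℝ, σ = min (a + b - k) (d - k) := ⟨_, rfl⟩
  have hσγ : γ < σ := by
    rw [hσ]
    refine lt_min ?_ (by linarith)
    rw [ha]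
    linarith
  obtain ⟨C, hC⟩ : ∃ C : ℝ, C = A * (3 ^ d + 4 ^ a) * om d := ⟨_, rfl⟩
  have hC0 : 0 ≤ C := by rw [hC]; positivity
  obtain ⟨ϱ, hϱ⟩ : ∃ ϱ : ℝ, ϱ = (1 / 2 : ℝ) ^ (σ - γ) := ⟨_, rfl⟩
  have hϱ0 : 0 ≤ ϱ := by rw [hϱ]; positivity
  have hϱ1 : ϱ < 1 := by
    rw [hϱ]
    exact Real.rpow_lt_one (by norm_num) (by norm_num) (by linarith)
  have hcfσ : ∀ n : ℕ, cf γ n * ((1 / 2 : ℝ) ^ n) ^ σ = 2 ^ γ * ϱ ^ n := by
    intro n
    have h2 : (0 : ℝ) < 1 / 2 := by norm_num
    have e1 : cf γ n = (1 / 2 : ℝ) ^ (-γ) * ((1 / 2 : ℝ) ^ n) ^ (-γ) := by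
      unfold cf
      rw [pow_succ, Real.mul_rpow (by positivity) (by positivity), mul_comm]
    have e2 : (1 / 2 : ℝ) ^ (-γ) = 2 ^ γ := by
      rw [Real.rpow_neg h2.le, one_div, Real.inv_rpow (by norm_num), inv_inv]
    have e3 : ϱ ^ n = ((1 / 2 : ℝ) ^ n) ^ (-γ) * ((1 / 2 : ℝ) ^ n) ^ σ := by
      rw [← Real.rpow_add (by positivity), hϱ, ← Real.rpow_natCast, ← Real.rpow_natCast,
        ← Real.rpow_mul h2.le, ← Real.rpow_mul h2.le]
      congr 1
      ring
    rw [e1, e2, e3]
    ring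
  refine ⟨a, B * (2 * om d + C * 2 ^ γ * (1 - ϱ)⁻¹), ha2, by
    have : 0 < 1 - ϱ := by linarith
    positivity, fun N z₀ hN hNz h hh m hm r hr hr1 => ?_⟩
  have hmN : m.restrict N univ ≤ 1 := by
    rw [Measure.restrict_apply_univ]
    refine (measure_mono hNz).trans ((hm z₀ 1 one_pos le_rfl).trans (le_of_eq ?_))
    rw [Real.one_rpow, ENNReal.ofReal_one]
  have hm' : ∀ (z : E d) (s : ℝ), 0 < s → s ≤ 1 →
      m.restrict N (Metric.closedBall z s) ≤ ENNReal.ofReal (s ^ a) := fun z s hs hs1 =>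
    (Measure.restrict_apply_le _ _).trans (hm z s hs hs1)
  obtain ⟨ind, hind⟩ : ∃ ind : ℕ → E d → ℝ≥0∞, ind = fun n =>
    (Nb K ((1 / 2 : ℝ) ^ n)).indicator fun _ => 1 := ⟨_, rfl⟩
  have hindm : ∀ n, Measurable (ind n) := by
    intro n
    rw [hind]
    exact measurable_const.indicator (Nb_closed K _).measurableSet
  have hdist : ∀ q, (Metric.infEDist q K) ^ (-γ) ≤ 1 + ∑' n : ℕ, ENNReal.ofReal (cf γ n) *
      ind n q := by
    intro q
    rw [hind]
    exact dist_le hγ0 K q
  have hAv : ∀ p, ∫⁻ q in N ∩ Metric.closedBall p r, h q ≤ ENNReal.ofReal B *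
      (ENNReal.ofReal (2 * om d * r ^ d) + ∑' n : ℕ, ENNReal.ofReal (cf γ n) *
        Av r (ind n) p) := by
    intro p
    have h1 : ∫⁻ q in N ∩ Metric.closedBall p r, h q ≤
        ∫⁻ q in N ∩ Metric.closedBall p r, ENNReal.ofReal B *
          (2 + ∑' n : ℕ, ENNReal.ofReal (cf γ n) * ind n q) := by
      refine setLIntegral_mono' (hN.inter Metric.isClosed_closedBall.measurableSet)
        fun q hq => (hh q hq.1).trans (mul_le_mul' (le_refl _) ?_)
      refine (add_le_add (le_refl (1 : ℝ≥0∞)) (hdist q)).trans (le_of_eq ?_)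
      rw [← add_assoc, one_add_one_eq_two]
    refine h1.trans ((lintegral_mono_set inter_subset_right).trans (le_of_eq ?_))
    have hsm : Measurable (fun q => ∑' n : ℕ, ENNReal.ofReal (cf γ n) * ind n q) :=
      Measurable.tsum fun n => (hindm n).const_mul _
    have hsm2 : Measurable (fun q => 2 + ∑' n : ℕ, ENNReal.ofReal (cf γ n) * ind n q) :=
      measurable_const.add hsm
    rw [lintegral_const_mul _ hsm2, lintegral_add_left measurable_const,
      setLIntegral_const, vol_ball p hr.le, lintegral_tsum fun n =>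
        ((hindm n).const_mul _).aemeasurable]
    congr 2
    · have : (2 : ℝ≥0∞) = ENNReal.ofReal 2 := by simp
      rw [this, ← ENNReal.ofReal_mul (by norm_num), mul_assoc]
    · exact tsum_congr fun n => lintegral_const_mul _ (hindm n)
  have hAvm : ∀ n, Measurable (fun p => Av r (ind n) p) := fun n => Av_measurable' r (hindm n)
  have hphi : ∀ n : ℕ, ∫⁻ p, Av r (ind n) p ∂(m.restrict N) ≤
      ENNReal.ofReal (C * (r ^ ((d : ℝ) - b) * ((1 / 2 : ℝ) ^ n) ^ σ)) := by
    intro n
    rw [hind, hC]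
    exact phi_le hA hcov ha0 hb0 (by rw [hσ]; exact min_le_left _ _)
      (by rw [hσ]; exact min_le_right _ _) hmN hm' hr hr1 (by positivity)
      (pow_le_one₀ (by norm_num) (by norm_num))
  have hrr : r ^ d ≤ r ^ ((d : ℝ) - b) := by
    rw [← Real.rpow_natCast r d]
    exact Real.rpow_le_rpow_of_exponent_ge hr hr1 (by linarith)
  have hsum : ∑' n : ℕ, ENNReal.ofReal (cf γ n) * ∫⁻ p, Av r (ind n) p ∂(m.restrict N) ≤
      ENNReal.ofReal (C * 2 ^ γ * (1 - ϱ)⁻¹ * r ^ ((d : ℝ) - b)) := by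
    calc ∑' n : ℕ, ENNReal.ofReal (cf γ n) * ∫⁻ p, Av r (ind n) p ∂(m.restrict N) ≤
        ∑' n : ℕ, ENNReal.ofReal (C * 2 ^ γ * r ^ ((d : ℝ) - b) * ϱ ^ n) := by
          refine ENNReal.tsum_le_tsum fun n => (mul_le_mul' (le_refl _) (hphi n)).trans
            (le_of_eq ?_)
          rw [← ENNReal.ofReal_mul (cf_nonneg γ n)]
          congr 1
          calc cf γ n * (C * (r ^ ((d : ℝ) - b) * ((1 / 2 : ℝ) ^ n) ^ σ)) =
              C * r ^ ((d : ℝ) - b) * (cf γ n * ((1 / 2 : ℝ) ^ n) ^ σ) := by ring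
            _ = _ := by
              rw [hcfσ n]
              ring
      _ = ENNReal.ofReal (∑' n : ℕ, C * 2 ^ γ * r ^ ((d : ℝ) - b) * ϱ ^ n) :=
          (ENNReal.ofReal_tsum_of_nonneg (fun n => by positivity)
            ((summable_geometric_of_lt_one hϱ0 hϱ1).mul_left _)).symm
      _ = _ := by
          rw [tsum_mul_left, tsum_geometric_of_lt_one hϱ0 hϱ1]
          congr 1
          ring
  have h1ϱ : 0 < 1 - ϱ := by linarith
  calc ∫⁻ p in N, (∫⁻ q in N ∩ Metric.closedBall p r, h q) ∂m ≤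
      ∫⁻ p in N, (ENNReal.ofReal B * (ENNReal.ofReal (2 * om d * r ^ d) +
        ∑' n : ℕ, ENNReal.ofReal (cf γ n) * Av r (ind n) p)) ∂m := lintegral_mono hAv
    _ = ENNReal.ofReal B * (ENNReal.ofReal (2 * om d * r ^ d) * m.restrict N univ +
        ∑' n : ℕ, ENNReal.ofReal (cf γ n) * ∫⁻ p, Av r (ind n) p ∂(m.restrict N)) := by
        have hsm : Measurable (fun p => ∑' n : ℕ, ENNReal.ofReal (cf γ n) * Av r (ind n) p) :=
          Measurable.tsum fun n => (hAvm n).const_mul _
        have hsm2 : Measurable (fun p => ENNReal.ofReal (2 * om d * r ^ d) +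
          ∑' n : ℕ, ENNReal.ofReal (cf γ n) * Av r (ind n) p) := measurable_const.add hsm
        rw [lintegral_const_mul _ hsm2, lintegral_add_left measurable_const,
          lintegral_const, lintegral_tsum fun n => ((hAvm n).const_mul _).aemeasurable]
        congr 2
        exact tsum_congr fun n => lintegral_const_mul _ (hAvm n)
    _ ≤ ENNReal.ofReal B * (ENNReal.ofReal (2 * om d * r ^ d) * 1 +
        ENNReal.ofReal (C * 2 ^ γ * (1 - ϱ)⁻¹ * r ^ ((d : ℝ) - b))) :=
        mul_le_mul' (le_refl _) (add_le_add (mul_le_mul' (le_refl _) hmN) hsum)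
    _ ≤ _ := by
        rw [mul_one, ← ENNReal.ofReal_add (by positivity) (by positivity),
          ← ENNReal.ofReal_mul hB0]
        refine ENNReal.ofReal_le_ofReal ?_
        have h5 : 2 * om d * r ^ d ≤ 2 * om d * r ^ ((d : ℝ) - b) :=
          mul_le_mul_of_nonneg_left hrr (by positivity)
        calc B * (2 * om d * r ^ d + C * 2 ^ γ * (1 - ϱ)⁻¹ * r ^ ((d : ℝ) - b)) ≤
            B * (2 * om d * r ^ ((d : ℝ) - b) + C * 2 ^ γ * (1 - ϱ)⁻¹ * r ^ ((d : ℝ) - b)) :=
              mul_le_mul_of_nonneg_left (by linarith) hB0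
          _ = _ := by ring

end Pool.Agent.V7H86.LP
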