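import Mathlib
import Pool.Agent.V7H86.LP.Deg
import Pool.Agent.V7H86.LP.Gro

/-!
# Almost taming forms are cohomologous to taming symplectic forms

The definitions used in the statement, and the final statement.
-/

set_option autoImplicit false

open Set Filter Topology MeasureTheory
open scoped Manifold ContDiff ENNReal

noncomputable section

namespace Pool.Agent.V7H86.LP

section defs

open Pool.Agent.Y501.SYP

/-- the Lebesgue measure of the Euclidean space `ES d` -/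
def vol (d : ℕ) : Measure (ES d) := (volume : Measure (EuclideanSpace ℝ (Fin d)))

variable {d : ℕ} {X : Type} [TopologicalSpace X] [ChartedSpace (ES d) X]

/-- In the chart at `x`, the oscillation of `J` over the set `N` is uniformly of smaller order
than the power `b` of the distance (for `b = 0`: `J` is uniformly continuous on `N`). -/
def LittleHolder (J : End (ES d) X) (x : X) (N : Set (ES d)) (b : ℝ) : Prop :=
  ∀ ε : ℝ, 0 < ε → ∃ r : ℝ, 0 < r ∧ ∀ p ∈ N, ∀ q ∈ N, ‖p - q‖ ≤ r → ∀ v : ES d,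
    ‖inChart J x p v - inChart J x q v‖ ≤ ε * ‖p - q‖ ^ b * ‖v‖

/-- the norm of the two-form `τ` in the chart at `x` -/
def nrm (τ : Form (ES d) X 2) (x : X) (p : ES d) : ℝ≥0∞ := ‖pb (chartAt (ES d) x).symm τ p‖ₑ

/-- In the chart at `x`, on the set `N`, one has `τ(v, J v) ≥ (c - f) |v| ^ 2` with a function
`f ≥ 0` whose integral over `N` is at most `δ`. -/
def AlmostTames (τ : Form (ES d) X 2) (J : End (ES d) X) (x : X) (N : Set (ES d)) (c : ℝ)
    (δ : ℝ≥0∞) : Prop :=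
  ∃ f : ES d → ℝ≥0∞, Measurable f ∧ ∫⁻ p in N, f p ∂(vol d) ≤ δ ∧
    ∀ p ∈ N, ∀ v : ES d, ENNReal.ofReal (c * ‖v‖ ^ 2 -
      pb (chartAt (ES d) x).symm τ p ![v, inChart J x p v]) ≤ f p * ENNReal.ofReal (‖v‖ ^ 2)

/-- The Morrey condition along measures: for each measure `m` such that the balls of radius
`s ≤ 1` have mass at most `s ^ a`, the `m`-integral over `p ∈ N` of the integral of `h` over
the points of `N` at distance at most `r` from `p` is at most `B * r ^ (d - b)`. For `a = 0`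
this holds if the integrals of `h` over the balls of radius `r` are at most `B * r ^ (d - b)`
and `N` has diameter at most one. -/
def MorreyAlong (N : Set (ES d)) (h : ES d → ℝ≥0∞) (a b B : ℝ) : Prop :=
  ∀ m : Measure (ES d), (∀ (z : ES d) (s : ℝ), 0 < s → s ≤ 1 →
    m (Metric.closedBall z s) ≤ ENNReal.ofReal (s ^ a)) → ∀ r : ℝ, 0 < r → r ≤ 1 →
    ∫⁻ p in N, (∫⁻ q in N ∩ Metric.closedBall p r, h q ∂(vol d)) ∂m ≤
      ENNReal.ofReal (B * r ^ ((d : ℝ) - b))

/-- For each `0 < s ≤ 1` the set `K` is covered by at most `A * s ^ (-k)` balls of radius `s`. -/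
def BoxDimLe (K : Set (ES d)) (A k : ℝ) : Prop :=
  ∀ s : ℝ, 0 < s → s ≤ 1 → ∃ T : Finset (ES d), (T.card : ℝ) ≤ A * s ^ (-k) ∧
    K ⊆ ⋃ z ∈ T, Metric.closedBall z s

/-- There are a finite set `t` of points and a number `δ > 0` such that each closed two-form `τ`
whose norm satisfies the condition `S x` in the chart at `x` and which almost tames `J` on `N x`
with the constant `c x` and the error `δ`, for the points `x` of `t`, is cohomologous to a
symplectic form taming `J`. -/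
def AlmostTamingSuffices (J : End (ES d) X) (N : X → Set (ES d)) (c : X → ℝ)
    (S : X → (ES d → ℝ≥0∞) → Prop) : Prop :=
  ∃ (t : Finset X) (δ : ℝ≥0∞), 0 < δ ∧ ∀ τ : Form (ES d) X 2, IsSmooth τ → IsClosedForm τ →
    (∀ x ∈ t, S x (nrm τ x) ∧ AlmostTames τ J x (N x) (c x) δ) →
    ∃ (α : Form (ES d) X 1) (η : Form (ES d) X 2), IsSmooth α ∧ IsSmooth η ∧ IsD α η ∧
      IsTamingSymplectic (addF τ η) J

end defs

open Pool.Agent.Y501.SYP
open Pool.Agent.Y501

attribute [local instance] cs mf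

section small

theorem exists_exact {d : ℕ} {X : Type} [TopologicalSpace X] [ChartedSpace (ES d) X]
    [IsManifold 𝓘(ℝ, ES d) ∞ X] [CompactSpace X] [T2Space X]
    {J : End (ES d) X} (hJ : IsAlmostComplex J) {C : Set X} (hC : IsClosed C)
    (hsmall : ∀ z ∈ C, SmallAll J (connectedComponentIn C z) z) :
    ∃ (α : SY.Form d X 1) (η : SY.Form d X 2), SY.IsSmooth α ∧ SY.IsSmooth η ∧ SY.IsD α η ∧
      SY.IsClosedForm η ∧ ∀ x ∈ C, ∀ v : TangentSpace (𝓡 d) x, v ≠ 0 → 0 < η x ![v, J x v] := by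
  classical
  have hJ' := ac_of J hJ
  have hD2 : SY.D2 (0 : SY.Form d X 2) 0 J C = ∅ ∨ SY.D2 (0 : SY.Form d X 2) 0 J C = C := by
    by_cases hne : ∃ v : SY.E d, v ≠ 0
    · right
      apply Subset.antisymm
      · exact fun x hx => hx.1
      · intro x hx
        obtain ⟨v, hv⟩ := hne
        exact ⟨hx, v, hv, rfl, rfl⟩
    · left
      push Not at hne
      ext x
      constructor
      · rintro ⟨-, v, hv, -⟩
        exact absurd (hne v) hv
      · intro h
        exact absurd h (notMem_empty x)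
  obtain ⟨α, η, hpair, hη⟩ := SY.level2 Pool.Agent.Y484.SY.t_GEN Pool.Agent.Y108.SY.t_PERT2
    Pool.Agent.Y925.SY.t_PLANAR hJ' (σ := 0) (θ := 0) SY.IsSmooth.zero SY.IsSmooth.zero hC (by
      rcases hD2 with h | h
      · rw [h]
        exact fun z hz => absurd hz (notMem_empty z)
      · rw [h]
        exact fun z hz => smallAll_of hJ (hsmall z hz))
  obtain ⟨hα, hηs, hαη, hηc⟩ := hpair.props Pool.Agent.Y484.SY.t_GEN
  exact ⟨α, η, hα, hηs, hαη, hηc, fun x hx v hv => hη x hx v hv rfl rfl⟩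

end small

theorem osc_of {d : ℕ} {X : Type} [TopologicalSpace X] [ChartedSpace (ES d) X]
    {J : End (ES d) X} {x : X} {N : Set (ES d)} {b : ℝ} (h : LittleHolder J x N b) :
    Osc (d := d) (X := X) J x N b := by
  intro ε hε
  obtain ⟨r, hr, h1⟩ := h ε hε
  refine ⟨r, hr, fun p hp q hq hpq => ?_⟩
  exact ContinuousLinearMap.opNorm_le_bound _ (by positivity) fun v => h1 p hp q hq hpq v

theorem closed_of_ex {d : ℕ} {X : Type} [TopologicalSpace X] [ChartedSpace (SY.E d) X]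
    {α : SY.Form d X 1} {η : SY.Form d X 2} (hα : SY.IsSmooth α) (h : SY.IsD α η) :
    SY.IsClosedForm η := by
  intro U φ hU hφ p hp
  have h1 : SY.pb φ η =ᶠ[𝓝 p] extDeriv (SY.pb φ α) := by
    filter_upwards [hU.mem_nhds hp] with q hq using (h U φ hU hφ q hq).symm
  rw [h1.extDeriv_eq, SG.ext_ext ((hα U φ hU hφ).contDiffAt (hU.mem_nhds hp)), SY.pb_zero]
  rfl

theorem suff_core {d : ℕ} {X : Type} [TopologicalSpace X] [ChartedSpace (ES d) X]
    [IsManifold 𝓘(ℝ, ES d) ∞ X] [CompactSpace X] [T2Space X]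
    {J : End (ES d) X} (hJ : IsAlmostComplex J) {C : Set X} (hC : IsClosed C)
    (hsmall : ∀ z ∈ C, SmallAll J (connectedComponentIn C z) z)
    {N : X → Set (ES d)} (hN : ∀ x, N x ∈ 𝓝 (chartAt (ES d) x x)) {b c : X → ℝ}
    (hb : ∀ x, 0 ≤ b x ∧ b x < 1) (hJb : ∀ x, LittleHolder J x (N x) (b x))
    (hc : ∀ x, 0 ≤ c x) (hcC : ∀ x, x ∉ C → 0 < c x)
    {S : X → (ES d → ℝ≥0∞) → Prop} {a' B' : X → ℝ} (ha : ∀ x, a' x < 2) (hB : ∀ x, 0 ≤ B' x)
    (hS : ∀ (x : X) (R : ℝ), 0 < R → R ≤ 1 → Metric.closedBall (chartAt (ES d) x x) R ⊆ N x →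
      ∀ τ : Form (ES d) X 2, ContinuousOn (nrm τ x) (Metric.closedBall (chartAt (ES d) x x) R) →
      S x (nrm τ x) → MorC d (Metric.closedBall (chartAt (ES d) x x) R) (nrm τ x)
        (a' x) (b x) (B' x)) :
    AlmostTamingSuffices J N c S := by
  classical
  rcases isEmpty_or_nonempty X with hX | hX
  · refine ⟨∅, 1, one_pos, fun τ h1 h2 _ => ⟨0, 0, (smooth_iff _).2 SY.IsSmooth.zero,
      (smooth_iff _).2 SY.IsSmooth.zero, (isD_iff _ _).2 SY.IsD.zero, ?_⟩⟩
    have e : addF τ 0 = τ := funext fun x => (hX.false x).elim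
    rw [e]
    exact ⟨h1, h2, fun x => (hX.false x).elim, fun x => (hX.false x).elim⟩
  obtain ⟨α₀, η₀, h1, h2, h3, h4, h5⟩ := exists_exact hJ hC hsmall
  obtain ⟨t, δ, R, hδ, hR, hmain⟩ := main_deg (d := d) (X := X) (ac_of J hJ) (C := C) h1 h2 h3 h4
    h5 (N := N) hN (a' := a') (b := b) (B := B') (c₁ := c) ha (fun x => (hb x).1)
    (fun x => (hb x).2) hB hc hcC fun x => osc_of (hJb x)
  refine ⟨t, δ, hδ, fun τ hτs hτc hτ => ?_⟩
  have hτs' := (smooth_iff τ).1 hτs
  obtain ⟨α, η, g1, g2, g3, g4⟩ := hmain τ hτs' ((closed_iff τ).1 hτc)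
    fun x hx => by
      obtain ⟨hSx, f, hfm, hfδ, hfp⟩ := hτ x hx
      obtain ⟨hR0, hR1, hRN, hRt⟩ := hR x
      have hcont : ContinuousOn (SY.pb (chartAt (SY.E d) x).symm τ)
          (Metric.closedBall (chartAt (SY.E d) x x) (R x)) :=
        ((hτs' _ _ (chartAt (SY.E d) x).open_target contMDiffOn_chart_symm).continuousOn).mono hRt
      refine ⟨f, ⟨hS x (R x) hR0 hR1 hRN τ hcont.enorm hSx, hfm, fun p hp v => ?_⟩, ?_⟩
      · exact hfp p (hRN hp) v
      · exact (lintegral_mono_set hRN).trans hfδ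
  refine ⟨α, η, (smooth_iff α).2 g1, (smooth_iff η).2 g2, (isD_iff α η).2 g3, ?_⟩
  obtain ⟨τ', hτ'⟩ : ∃ τ' : SY.Form d X 2, τ' = τ := ⟨τ, rfl⟩
  have hcl : SY.IsClosedForm (τ' + η) := by
    have e1 : (0 : SY.Form d X 3) = 0 + 0 := (add_zero _).symm
    unfold SY.IsClosedForm
    rw [e1, hτ']
    exact SY.IsD.add ((closed_iff τ).1 hτc) (closed_of_ex g1 g3) hτs' g2
  have hsm : SY.IsSmooth (τ' + η) := by
    rw [hτ']
    exact hτs'.add g2
  have e2 : addF τ η = τ' + η := by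
    rw [hτ']
    rfl
  rw [e2]
  refine symp_of ((smooth_iff _).2 hsm) ((closed_iff _).2 hcl) ?_
  rw [hτ']
  exact g4

theorem almostTaming (d : ℕ) (X : Type) [TopologicalSpace X] [ChartedSpace (ES d) X]
    [IsManifold 𝓘(ℝ, ES d) ∞ X] [CompactSpace X] [T2Space X]
    (J : End (ES d) X) (hJ : IsAlmostComplex J) (C : Set X) (hC : IsClosed C)
    (hsmall : ∀ z ∈ C, SmallAll J (connectedComponentIn C z) z)
    (N : X → Set (ES d)) (hN : ∀ x, N x ∈ 𝓝 (chartAt (ES d) x x)) (b c : X → ℝ)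
    (hb : ∀ x, 0 ≤ b x ∧ b x < 1) (hJb : ∀ x, LittleHolder J x (N x) (b x))
    (hc : ∀ x, 0 ≤ c x) (hcC : ∀ x, x ∉ C → 0 < c x) :
    (∀ p B : X → ℝ, (∀ x, 1 ≤ p x ∧ (d : ℝ) - 2 < p x * b x) →
      AlmostTamingSuffices J N c fun x h =>
        ∫⁻ q in N x, h q ^ p x ∂(vol d) ≤ ENNReal.ofReal (B x)) ∧
    (∀ (K : X → Set (ES d)) (A k γ B : X → ℝ), (∀ x, BoxDimLe (K x) (A x) (k x) ∧ 0 ≤ k x ∧
        0 ≤ γ x ∧ γ x + k x < 2 + b x ∧ γ x + k x < d) →
      AlmostTamingSuffices J N c fun x h =>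
        ∀ q ∈ N x, h q ≤ ENNReal.ofReal (B x) * (1 + Metric.infEDist q (K x) ^ (-γ x))) ∧
    (∀ a B : X → ℝ, (∀ x, a x < 2) →
      AlmostTamingSuffices J N c fun x h => MorreyAlong (N x) h (a x) (b x) (B x)) := by
  refine ⟨fun p B hp => ?_, fun K A k γ B hK => ?_, fun a B ha => ?_⟩
  · refine suff_core hJ hC hsmall hN hb hJb hc hcC (a' := fun x => (d : ℝ) - p x * b x)
      (B' := fun x => om d + max (B x) 0) (fun x => by have := (hp x).2; linarith)
      (fun x => add_nonneg om_nonneg (le_max_right _ _)) ?_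
    intro x R hR0 hR1 hRN τ hcont hS
    refine mor_lp (hp x).1 Metric.isClosed_closedBall.measurableSet (z₀ := chartAt (ES d) x x)
      (Metric.closedBall_subset_closedBall hR1)
      (indicator_cont Metric.isClosed_closedBall.measurableSet hcont) (le_max_right _ _) ?_
    refine (lintegral_mono_set hRN).trans (le_trans hS ?_)
    exact ENNReal.ofReal_le_ofReal (le_max_left _ _)
  · have h1 : ∀ x, ∃ a B' : ℝ, a < 2 ∧ 0 ≤ B' ∧ ∀ (N : Set (SY.E d)) (z₀ : SY.E d),
        MeasurableSet N → N ⊆ Metric.closedBall z₀ 1 → ∀ h : SY.E d → ℝ≥0∞,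
        (∀ q ∈ N, h q ≤ ENNReal.ofReal (max (B x) 0) *
          (1 + (Metric.infEDist q (K x)) ^ (-γ x))) → MorC d N h a (b x) B' := by
      intro x
      obtain ⟨h1, h2, h3, h4, h5⟩ := hK x
      have hA : 0 ≤ A x := by
        obtain ⟨T, hT, -⟩ := h1 1 one_pos le_rfl
        rw [Real.one_rpow, mul_one] at hT
        exact (Nat.cast_nonneg _).trans hT
      exact mor_gro hA h1 h3 h2 (hb x).1 (hb x).2 h4 h5 (le_max_right _ _)
    choose a B' ha hB' hmor using h1
    refine suff_core hJ hC hsmall hN hb hJb hc hcC (a' := a) (B' := B') ha hB' ?_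
    intro x R hR0 hR1 hRN τ hcont hS
    refine hmor x _ (chartAt (ES d) x x) Metric.isClosed_closedBall.measurableSet
      (Metric.closedBall_subset_closedBall hR1) _ fun q hq => (hS q (hRN hq)).trans ?_
    exact mul_le_mul' (ENNReal.ofReal_le_ofReal (le_max_left _ _)) (le_refl _)
  · refine suff_core hJ hC hsmall hN hb hJb hc hcC (a' := a) (B' := fun x => max (B x) 0) ha
      (fun x => le_max_right _ _) ?_
    intro x R hR0 hR1 hRN τ hcont hS
    have h1 : MorC d (N x) (nrm τ x) (a x) (b x) (B x) := hS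
    intro m hm r hr hr1
    refine (h1.mono hRN m hm r hr hr1).trans (ENNReal.ofReal_le_ofReal ?_)
    exact mul_le_mul_of_nonneg_right (le_max_left _ _) (by positivity)

end Pool.Agent.V7H86.LP
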